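import Pool.Agent.R467.PS.SpecC
import Pool.Agent.R467.PS.A0
import Pool.Agent.R467.PS.A1
import Pool.Agent.R467.PS.A2
import Pool.Agent.R467.PS.A3
import Pool.Agent.R467.PS.A4
import Pool.Agent.R467.PS.A5
import Pool.Agent.R467.PS.A6
import Pool.Agent.R467.PS.A7
import Pool.Agent.R467.PS.A8
import Pool.Agent.R467.PS.A9
import Pool.Agent.R467.PS.A10
import Pool.Agent.R467.PS.A11
import Pool.Agent.R467.PS.A12
import Pool.Agent.R467.PS.A13
import Pool.Agent.R467.PS.A14
import Pool.Agent.R467.PS.A15
import Pool.Agent.R467.PS.A16
import Pool.Agent.R467.PS.A17
import Pool.Agent.R467.PS.A18
import Pool.Agent.R467.PS.A19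
import Pool.Agent.R467.PS.Q0
import Pool.Agent.R467.PS.Q1
import Pool.Agent.R467.PS.Q2
import Pool.Agent.R467.PS.Q3
import Pool.Agent.R467.PS.Q4
import Pool.Agent.R467.PS.Q5

/-! The chain of partial results. -/

namespace R467.PS

theorem g0 : G 2097152 = 377766217121013502793025644315504937 :=
  grp_step G_zero t0 (by norm_num) (by norm_num)

theorem g1 : G 4194304 = 750238725335473919605402302238568356 :=
  grp_step g0 t1 (by norm_num) (by norm_num)

theorem g2 : G 6291456 = 1130853353355200253863593582991855678 :=
  grp_step g1 t2 (by norm_num) (by norm_num)

theorem g3 : G 8388608 = 1515638551849677462852710324462839872 :=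
  grp_step g2 t3 (by norm_num) (by norm_num)

theorem g4 : G 10485760 = 1903320331965676176024248348252173053 :=
  grp_step g3 t4 (by norm_num) (by norm_num)

theorem g5 : G 12582912 = 2293136835692459227507908141946467436 :=
  grp_step g4 t5 (by norm_num) (by norm_num)

theorem g6 : G 14680064 = 2684520155561124370531819184427004185 :=
  grp_step g5 t6 (by norm_num) (by norm_num)

theorem g7 : G 16777216 = 3077124222957809298469372877066640949 :=
  grp_step g6 t7 (by norm_num) (by norm_num)

theorem g8 : G 18874368 = 3470449583546024088936379513467157862 :=
  grp_step g7 t8 (by norm_num) (by norm_num)

theorem g9 : G 20971520 = 3865100906662077607357353043956167937 :=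
  grp_step g8 t9 (by norm_num) (by norm_num)

theorem g10 : G 23068672 = 4260354363813239534744038835591063585 :=
  grp_step g9 t10 (by norm_num) (by norm_num)

theorem g11 : G 25165824 = 4656054033975681798880052791421782671 :=
  grp_step g10 t11 (by norm_num) (by norm_num)

theorem g12 : G 27262976 = 5052136534619392988295320076220222717 :=
  grp_step g11 t12 (by norm_num) (by norm_num)

theorem g13 : G 29360128 = 5449152026104872154550090287017048435 :=
  grp_step g12 t13 (by norm_num) (by norm_num)

theorem g14 : G 31457280 = 5846338650421382131774063874565978936 :=
  grp_step g13 t14 (by norm_num) (by norm_num)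

theorem g15 : G 33554432 = 6244060223291188421805470412476656389 :=
  grp_step g14 t15 (by norm_num) (by norm_num)

theorem g16 : G 35651584 = 6642082229353248802205033001221876625 :=
  grp_step g15 t16 (by norm_num) (by norm_num)

theorem g17 : G 37748736 = 7040597351498797963841779153033629112 :=
  grp_step g16 t17 (by norm_num) (by norm_num)

theorem g18 : G 39845888 = 7439098529487744614955110158924281826 :=
  grp_step g17 t18 (by norm_num) (by norm_num)

theorem g19 : G 41943040 = 7838011693921765440623928938498058989 :=
  grp_step g18 t19 (by norm_num) (by norm_num)

theorem g20 : G 44040192 = 8237052891066409317462300213797445763 :=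
  grp_step g19 t20 (by norm_num) (by norm_num)

theorem g21 : G 46137344 = 8636374238993703632998403600547816154 :=
  grp_step g20 t21 (by norm_num) (by norm_num)

theorem g22 : G 48234496 = 9036023908426457059949495979292621958 :=
  grp_step g21 t22 (by norm_num) (by norm_num)

theorem g23 : G 50331648 = 9435906825569652481110465091726245138 :=
  grp_step g22 t23 (by norm_num) (by norm_num)

theorem g24 : G 52428800 = 9836115528917106557227620206374417679 :=
  grp_step g23 t24 (by norm_num) (by norm_num)

theorem g25 : G 54525952 = 10236395220698173414191260466893167190 :=
  grp_step g24 t25 (by norm_num) (by norm_num)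

theorem g26 : G 56623104 = 10636655897720236847713879599343214030 :=
  grp_step g25 t26 (by norm_num) (by norm_num)

theorem g27 : G 58720256 = 11036953336609706899889143463822626103 :=
  grp_step g26 t27 (by norm_num) (by norm_num)

theorem g28 : G 60817408 = 11437495432065021000338897539641257777 :=
  grp_step g27 t28 (by norm_num) (by norm_num)

theorem g29 : G 62914560 = 11838223872158568650510672974389735834 :=
  grp_step g28 t29 (by norm_num) (by norm_num)

theorem g30 : G 65011712 = 12239224857131165370003771553424932108 :=
  grp_step g29 t30 (by norm_num) (by norm_num)

theorem g31 : G 67108864 = 12640145980115947711044577158768711909 :=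
  grp_step g30 t31 (by norm_num) (by norm_num)

theorem g32 : G 69206016 = 13041174853401749451584511321775224563 :=
  grp_step g31 t32 (by norm_num) (by norm_num)

theorem g33 : G 71303168 = 13442600501325422627927115324093096896 :=
  grp_step g32 t33 (by norm_num) (by norm_num)

theorem g34 : G 73400320 = 13844027416899696032499122151398470992 :=
  grp_step g33 t34 (by norm_num) (by norm_num)

theorem g35 : G 75497472 = 14245237564221330409843474345101046137 :=
  grp_step g34 t35 (by norm_num) (by norm_num)

theorem g36 : G 77594624 = 14646769694795422757455808067949541728 :=
  grp_step g35 t36 (by norm_num) (by norm_num)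

theorem g37 : G 79691776 = 15048292951815313507462332641076269348 :=
  grp_step g36 t37 (by norm_num) (by norm_num)

theorem g38 : G 81788928 = 15450242139436880942547761489421835732 :=
  grp_step g37 t38 (by norm_num) (by norm_num)

theorem g39 : G 83886080 = 15852020194227417566663989590617799327 :=
  grp_step g38 t39 (by norm_num) (by norm_num)

theorem g40 : G 85983232 = 16254124035222212845736403717514333059 :=
  grp_step g39 t40 (by norm_num) (by norm_num)

theorem g41 : G 88080384 = 16656074490494380509051238052526402510 :=
  grp_step g40 t41 (by norm_num) (by norm_num)

theorem g42 : G 90177536 = 17058357070223807968469265900542622885 :=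
  grp_step g41 t42 (by norm_num) (by norm_num)

theorem g43 : G 92274688 = 17460163013327549613632332251012574574 :=
  grp_step g42 t43 (by norm_num) (by norm_num)

theorem g44 : G 94371840 = 17862266854322344892704751699355943948 :=
  grp_step g43 t44 (by norm_num) (by norm_num)

theorem g45 : G 96468992 = 18264455627907355463147072770134699769 :=
  grp_step g44 t45 (by norm_num) (by norm_num)

theorem g46 : G 98566144 = 18666679895709172424012637084751235954 :=
  grp_step g45 t46 (by norm_num) (by norm_num)

theorem g47 : G 100663296 = 19068863598691782081537354829676122265 :=
  grp_step g46 t47 (by norm_num) (by norm_num)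

theorem g48 : G 102760448 = 19471272943481232363895540354585183932 :=
  grp_step g47 t48 (by norm_num) (by norm_num)

theorem g49 : G 104857600 = 19873812856282506153882081392943713596 :=
  grp_step g48 t49 (by norm_num) (by norm_num)

theorem g50 : G 106954752 = 20276206989264753697487451617780652155 :=
  grp_step g49 t50 (by norm_num) (by norm_num)

theorem g51 : G 109051904 = 20678716478451622009968359393564920227 :=
  grp_step g50 t51 (by norm_num) (by norm_num)

theorem g52 : G 111149056 = 21081312167879305842048570291992704929 :=
  grp_step g51 t52 (by norm_num) (by norm_num)

theorem g53 : G 113246208 = 21484053637126015920509954669219403852 :=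
  grp_step g52 t53 (by norm_num) (by norm_num)

theorem g54 : G 115343360 = 21886692426674107512389819127682558172 :=
  grp_step g53 t54 (by norm_num) (by norm_num)

theorem g55 : G 117440512 = 22289350230981202527710707372179324957 :=
  grp_step g54 t55 (by norm_num) (by norm_num)

theorem g56 : G 119537664 = 22692392133420166696540250521943741423 :=
  grp_step g55 t56 (by norm_num) (by norm_num)

theorem g57 : G 121634816 = 23095252761823298228565380941966581438 :=
  grp_step g56 t57 (by norm_num) (by norm_num)

theorem g58 : G 123731968 = 23498122263780631358196323173787038824 :=
  grp_step g57 t58 (by norm_num) (by norm_num)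

theorem g59 : G 125829120 = 23901222478147206025578339184090602398 :=
  grp_step g58 t59 (by norm_num) (by norm_num)

theorem g60 : G 127926272 = 24304127474321345545632525997015215250 :=
  grp_step g59 t60 (by norm_num) (by norm_num)

theorem g61 : G 130023424 = 24707116135435100128827212942226825152 :=
  grp_step g60 t61 (by norm_num) (by norm_num)

theorem g62 : G 132120576 = 25110171982030666808180180559678799265 :=
  grp_step g61 t62 (by norm_num) (by norm_num)

theorem g63 : G 134217728 = 25513207546216629835862725559267952502 :=
  grp_step g62 t63 (by norm_num) (by norm_num)

theorem g64 : G 136314880 = 25916241842751992635315870395803425944 :=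
  grp_step g63 t64 (by norm_num) (by norm_num)

theorem g65 : G 138412032 = 26319428257359382822297196203361130734 :=
  grp_step g64 t65 (by norm_num) (by norm_num)

theorem g66 : G 140509184 = 26722552557087361826037849992523280877 :=
  grp_step g65 t66 (by norm_num) (by norm_num)

theorem g67 : G 142606336 = 27125518400490312301103317991887635663 :=
  grp_step g66 t67 (by norm_num) (by norm_num)

theorem g68 : G 144703488 = 27528678194435097695267216364348354500 :=
  grp_step g67 t68 (by norm_num) (by norm_num)

theorem g69 : G 146800640 = 27931893765006293131524781938469849615 :=
  grp_step g68 t69 (by norm_num) (by norm_num)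

theorem g70 : G 148897792 = 28335109335577488567782348846630971964 :=
  grp_step g69 t70 (by norm_num) (by norm_num)

theorem g71 : G 150994944 = 28738406035787098610721612897382960147 :=
  grp_step g70 t71 (by norm_num) (by norm_num)

theorem g72 : G 153092096 = 29141763583225519608672150139042024104 :=
  grp_step g71 t72 (by norm_num) (by norm_num)

theorem g73 : G 155189248 = 29545207330904756126221990511868063867 :=
  grp_step g72 t73 (by norm_num) (by norm_num)

theorem g74 : G 157286400 = 29948599104909383286366370842184325869 :=
  grp_step g73 t74 (by norm_num) (by norm_num)

theorem g75 : G 159383552 = 30351823549034780320229754900381462331 :=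
  grp_step g74 t75 (by norm_num) (by norm_num)

theorem g76 : G 161480704 = 30755083487376983744516382209260488417 :=
  grp_step g75 t76 (by norm_num) (by norm_num)

theorem g77 : G 163577856 = 31158591885236831901765704269838264717 :=
  grp_step g76 t77 (by norm_num) (by norm_num)

theorem g78 : G 165675008 = 31561986194542659518368892932710416571 :=
  grp_step g77 t78 (by norm_num) (by norm_num)

theorem g79 : G 167772160 = 31965504733607309501453429640094667613 :=
  grp_step g78 t79 (by norm_num) (by norm_num)

theorem g80 : G 169869312 = 32368963693093748757756097321815104000 :=
  grp_step g79 t80 (by norm_num) (by norm_num)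

theorem g81 : G 171966464 = 32772480964507798512611235202303667339 :=
  grp_step g80 t81 (by norm_num) (by norm_num)

theorem g82 : G 174063616 = 33175898091524430237343656150835230541 :=
  grp_step g81 t82 (by norm_num) (by norm_num)

theorem g83 : G 176160768 = 33579435645348083643869220654245205460 :=
  grp_step g82 t83 (by norm_num) (by norm_num)

theorem g84 : G 178257920 = 33983083484773956906352716736939372778 :=
  grp_step g83 t84 (by norm_num) (by norm_num)

theorem g85 : G 180355072 = 34386454976368980414826687795669336682 :=
  grp_step g84 t85 (by norm_num) (by norm_num)

theorem g86 : G 182452224 = 34790062250975646373969338643036096688 :=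
  grp_step g85 t86 (by norm_num) (by norm_num)

theorem g87 : G 184549376 = 35193887561485551588569048322072340594 :=
  grp_step g86 t87 (by norm_num) (by norm_num)

theorem g88 : G 186646528 = 35597342718020190160183522191932745744 :=
  grp_step g87 t88 (by norm_num) (by norm_num)

theorem g89 : G 188743680 = 36001340429011726413981838146178174286 :=
  grp_step g88 t89 (by norm_num) (by norm_num)

theorem g90 : G 190840832 = 36405262080967248974016065612050040876 :=
  grp_step g89 t90 (by norm_num) (by norm_num)

theorem g91 : G 192937984 = 36808830058405307858047276727168384143 :=
  grp_step g90 t91 (by norm_num) (by norm_num)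

theorem g92 : G 195035136 = 37212533674457591162624449366479539377 :=
  grp_step g91 t92 (by norm_num) (by norm_num)

theorem g93 : G 197132288 = 37616230952256873326054615856211535208 :=
  grp_step g92 t93 (by norm_num) (by norm_num)

theorem g94 : G 199229440 = 38019887665236948186143935774284212743 :=
  grp_step g93 t94 (by norm_num) (by norm_num)

theorem g95 : G 201326592 = 38423524095807419394562833074383696228 :=
  grp_step g94 t95 (by norm_num) (by norm_num)

theorem g96 : G 203423744 = 38827263206076509089563252975516400700 :=
  grp_step g95 t96 (by norm_num) (by norm_num)

theorem g97 : G 205520896 = 39231009922249200153940083195343648600 :=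
  grp_step g96 t97 (by norm_num) (by norm_num)

theorem g98 : G 207618048 = 39634887206433714725945268953914773953 :=
  grp_step g97 t98 (by norm_num) (by norm_num)

theorem g99 : G 209715200 = 40038574343028195063540231480664111540 :=
  grp_step g98 t99 (by norm_num) (by norm_num)

theorem g100 : G 211812352 = 40442361624020093431257913616059017826 :=
  grp_step g99 t100 (by norm_num) (by norm_num)

theorem g101 : G 213909504 = 40846375814469432652038465073441667779 :=
  grp_step g100 t101 (by norm_num) (by norm_num)

theorem g102 : G 216006656 = 41250114924738522347038892989768231123 :=
  grp_step g101 t102 (by norm_num) (by norm_num)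

theorem g103 : G 218103808 = 41653818540790805651616080322029951909 :=
  grp_step g102 t103 (by norm_num) (by norm_num)

theorem g104 : G 220200960 = 42057750333951130037485538475524521957 :=
  grp_step g103 t104 (by norm_num) (by norm_num)

theorem g105 : G 222298112 = 42461917910123096874023676434819499071 :=
  grp_step g104 t105 (by norm_num) (by norm_num)

theorem g106 : G 224395264 = 42865649414488585199647700711913964209 :=
  grp_step g105 t106 (by norm_num) (by norm_num)

theorem g107 : G 226492416 = 43269467119094889044871028131268874117 :=
  grp_step g106 t107 (by norm_num) (by norm_num)

theorem g108 : G 228589568 = 43673453421231023244604756008897741078 :=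
  grp_step g107 t108 (by norm_num) (by norm_num)

theorem g109 : G 230686720 = 44077230561018119786487238191309958802 :=
  grp_step g108 t109 (by norm_num) (by norm_num)

theorem g110 : G 232783872 = 44481178833636247139338923826903408535 :=
  grp_step g109 t110 (by norm_num) (by norm_num)

theorem g111 : G 234881024 = 44885277956675801651489388962387690479 :=
  grp_step g110 t111 (by norm_num) (by norm_num)

theorem g112 : G 236978176 = 45289015799294291118260428740105425532 :=
  grp_step g111 t112 (by norm_num) (by norm_num)

theorem g113 : G 239075328 = 45693194784321660008863190872575649537 :=
  grp_step g112 t113 (by norm_num) (by norm_num)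

theorem g114 : G 241172480 = 46097080942060376178474208492380225299 :=
  grp_step g113 t114 (by norm_num) (by norm_num)

theorem g115 : G 243269632 = 46501076117750711975813756206831873675 :=
  grp_step g114 t115 (by norm_num) (by norm_num)

theorem g116 : G 245366784 = 46904993966754433851159813929515625622 :=
  grp_step g115 t116 (by norm_num) (by norm_num)

theorem g117 : G 247463936 = 47308980268890568050893553837166397243 :=
  grp_step g116 t117 (by norm_num) (by norm_num)

theorem g118 : G 249561088 = 47712975444580903848233105561480641949 :=
  grp_step g117 t118 (by norm_num) (by norm_num)

theorem g119 : G 251658240 = 48116710751898192858545351696056742820 :=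
  grp_step g118 t119 (by norm_num) (by norm_num)

theorem g120 : G 253755392 = 48520496765239490998033659054725713377 :=
  grp_step g119 t120 (by norm_num) (by norm_num)

theorem g121 : G 255852544 = 48924173760629169509793438988919167664 :=
  grp_step g120 t121 (by norm_num) (by norm_num)

theorem g122 : G 257949696 = 49328038368307681799504641846967108977 :=
  grp_step g121 t122 (by norm_num) (by norm_num)

theorem g123 : G 260046848 = 49732326371286670317835946113184537098 :=
  grp_step g122 t123 (by norm_num) (by norm_num)

theorem g124 : G 262144000 = 50136185908362781694629545655110479619 :=
  grp_step g123 t124 (by norm_num) (by norm_num)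

theorem g125 : G 264241152 = 50540268551944533239797810045731389018 :=
  grp_step g124 t125 (by norm_num) (by norm_num)

theorem g126 : G 266338304 = 50944289080646873601725402408702415762 :=
  grp_step g125 t126 (by norm_num) (by norm_num)

theorem g127 : G 268435456 = 51348348906517821038764442522851327543 :=
  grp_step g126 t127 (by norm_num) (by norm_num)

theorem g128 : G 270532608 = 51752469579617579430814755841417494768 :=
  grp_step g127 t128 (by norm_num) (by norm_num)

theorem g129 : G 272629760 = 52156250522356476657385469235252238851 :=
  grp_step g128 t129 (by norm_num) (by norm_num)

theorem g130 : G 274726912 = 52560410492624842124547231642903190095 :=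
  grp_step g129 t130 (by norm_num) (by norm_num)

theorem g131 : G 276824064 = 52964924137410671267712013121643447386 :=
  grp_step g130 t131 (by norm_num) (by norm_num)

theorem g132 : G 278921216 = 53368815365751788350240660784926522478 :=
  grp_step g131 t132 (by norm_num) (by norm_num)

theorem g133 : G 281018368 = 53772905615237141264785344854947385081 :=
  grp_step g132 t133 (by norm_num) (by norm_num)

theorem g134 : G 283115520 = 54177113756228315404664369507974014007 :=
  grp_step g133 t134 (by norm_num) (by norm_num)

theorem g135 : G 285212672 = 54581002449268232030734218185630434733 :=
  grp_step g134 t135 (by norm_num) (by norm_num)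

theorem g136 : G 287309824 = 54985177631343800236648806584084844513 :=
  grp_step g135 t136 (by norm_num) (by norm_num)

theorem g137 : G 289406976 = 55389247598419549499523072045456122978 :=
  grp_step g136 t137 (by norm_num) (by norm_num)

theorem g138 : G 291504128 = 55793548277904540300148411349603655505 :=
  grp_step g137 t138 (by norm_num) (by norm_num)

theorem g139 : G 293601280 = 56197587821365884085517043550290141464 :=
  grp_step g138 t139 (by norm_num) (by norm_num)

theorem g140 : G 295698432 = 56601906247959278081354006492452992865 :=
  grp_step g139 t140 (by norm_num) (by norm_num)

theorem g141 : G 297795584 = 57006007906300033049963314734361041395 :=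
  grp_step g140 t141 (by norm_num) (by norm_num)

theorem g142 : G 299892736 = 57410245203255012439118584524020671476 :=
  grp_step g141 t142 (by norm_num) (by norm_num)

theorem g143 : G 301989888 = 57814775327498644549265601529097821006 :=
  grp_step g142 t143 (by norm_num) (by norm_num)

theorem g144 : G 304087040 = 58218653879333759349500250255616327088 :=
  grp_step g143 t144 (by norm_num) (by norm_num)

theorem g145 : G 306184192 = 58622879767433336684590910582481983272 :=
  grp_step g144 t145 (by norm_num) (by norm_num)

theorem g146 : G 308281344 = 59027008046436696446017656953178363635 :=
  grp_step g145 t146 (by norm_num) (by norm_num)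

theorem g147 : G 310378496 = 59431029842789637036174678886265768952 :=
  grp_step g146 t147 (by norm_num) (by norm_num)

theorem g148 : G 312475648 = 59835217701371207524383298305797708598 :=
  grp_step g147 t148 (by norm_num) (by norm_num)

theorem g149 : G 314572800 = 60239242033025348570999125907061212613 :=
  grp_step g148 t149 (by norm_num) (by norm_num)

theorem g150 : G 316669952 = 60643377917932309701802286610093965832 :=
  grp_step g149 t150 (by norm_num) (by norm_num)

theorem g151 : G 318767104 = 61047635497296892742627992395329160675 :=
  grp_step g150 t151 (by norm_num) (by norm_num)

theorem g152 : G 320864256 = 61451877864854273044700881550093275888 :=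
  grp_step g151 t152 (by norm_num) (by norm_num)

theorem g153 : G 322961408 = 61855783037351992637752973748233262335 :=
  grp_step g152 t153 (by norm_num) (by norm_num)

theorem g154 : G 325058560 = 62260088787439384351295940445645639662 :=
  grp_step g153 t154 (by norm_num) (by norm_num)

theorem g155 : G 327155712 = 62664293125478757806486788692218449541 :=
  grp_step g154 t155 (by norm_num) (by norm_num)

theorem g156 : G 329252864 = 63068387177915911405719708005862330053 :=
  grp_step g155 t156 (by norm_num) (by norm_num)

theorem g157 : G 331350016 = 63472710675111706314474299679191643964 :=
  grp_step g156 t157 (by norm_num) (by norm_num)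

theorem g158 : G 333447168 = 63876816136404261967771835143144421385 :=
  grp_step g157 t158 (by norm_num) (by norm_num)

theorem g159 : G 335544320 = 64281068645166444095679945639240464304 :=
  grp_step g158 t159 (by norm_num) (by norm_num)

theorem g160 : G 337641472 = 64685075229712181947084166981924501763 :=
  grp_step g159 t160 (by norm_num) (by norm_num)

theorem g161 : G 339738624 = 65089242805884148783622379828976937799 :=
  grp_step g160 t161 (by norm_num) (by norm_num)

theorem g162 : G 341835776 = 65493160654887870658968499028422064840 :=
  grp_step g161 t162 (by norm_num) (by norm_num)

theorem g163 : G 343932928 = 65897595705336485651910430498728330261 :=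
  grp_step g162 t163 (by norm_num) (by norm_num)

theorem g164 : G 346030080 = 66301868496508271431488971640957307766 :=
  grp_step g163 t164 (by norm_num) (by norm_num)

theorem g165 : G 348127232 = 66706079172800646027826840748575273990 :=
  grp_step g164 t165 (by norm_num) (by norm_num)

theorem g166 : G 350224384 = 67110108575057187987360297065056538687 :=
  grp_step g165 t166 (by norm_num) (by norm_num)

theorem g167 : G 352321536 = 67514475172373390655914553028360081454 :=
  grp_step g166 t167 (by norm_num) (by norm_num)

theorem g168 : G 354418688 = 67918547674750340375247662930535130845 :=
  grp_step g167 t168 (by norm_num) (by norm_num)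

theorem g169 : G 356515840 = 68322692433211503103656659521985342017 :=
  grp_step g168 t169 (by norm_num) (by norm_num)

theorem g170 : G 358612992 = 68726772541492054192366181082604788290 :=
  grp_step g169 t170 (by norm_num) (by norm_num)

theorem g171 : G 360710144 = 69130952794170023311198422276530408548 :=
  grp_step g170 t171 (by norm_num) (by norm_num)

theorem g172 : G 362807296 = 69535164738112998135765702243255521629 :=
  grp_step g171 t172 (by norm_num) (by norm_num)

theorem g173 : G 364904448 = 69939298087718758810110090706595762598 :=
  grp_step g172 t173 (by norm_num) (by norm_num)

theorem g174 : G 367001600 = 70343516369914734775824380835523034358 :=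
  grp_step g173 t174 (by norm_num) (by norm_num)

theorem g175 : G 369098752 = 70747796766990121924779345676371783627 :=
  grp_step g174 t175 (by norm_num) (by norm_num)

theorem g176 : G 371195904 = 71152258438101341710538725989402895289 :=
  grp_step g175 t176 (by norm_num) (by norm_num)

theorem g177 : G 373293056 = 71556278966803682072466386528788254781 :=
  grp_step g176 t177 (by norm_num) (by norm_num)

theorem g178 : G 375390208 = 71960328651469827683670282846258682932 :=
  grp_step g177 t178 (by norm_num) (by norm_num)

theorem g179 : G 377487360 = 72364388477340775120709392480394713747 :=
  grp_step g178 t179 (by norm_num) (by norm_num)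

theorem g180 : G 379584512 = 72768587744777747662982668171594611624 :=
  grp_step g179 t180 (by norm_num) (by norm_num)

theorem g181 : G 381681664 = 73172836450588129106202603601642160860 :=
  grp_step g180 t181 (by norm_num) (by norm_num)

theorem g182 : G 383778816 = 73576908952965078825535732221253471535 :=
  grp_step g181 t182 (by norm_num) (by norm_num)

theorem g183 : G 385875968 = 73981281888534282635237017078811915651 :=
  grp_step g182 t183 (by norm_num) (by norm_num)

theorem g184 : G 387973120 = 74385370870369035321552367839386589519 :=
  grp_step g183 t184 (by norm_num) (by norm_num)

theorem g185 : G 390070272 = 74789496614071194626520363363824112844 :=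
  grp_step g184 t185 (by norm_num) (by norm_num)

theorem g186 : G 392167424 = 75193903776206604598415492667141668679 :=
  grp_step g185 t186 (by norm_num) (by norm_num)

theorem g187 : G 394264576 = 75598014308101561164630672896036723978 :=
  grp_step g186 t187 (by norm_num) (by norm_num)

theorem g188 : G 396361728 = 76002508938128386884354508202412305728 :=
  grp_step g187 t188 (by norm_num) (by norm_num)

theorem g189 : G 398458880 = 76406789335203774033309491770559437673 :=
  grp_step g188 t189 (by norm_num) (by norm_num)

theorem g190 : G 400556032 = 76810849161074721470348616110643323226 :=
  grp_step g189 t190 (by norm_num) (by norm_num)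

theorem g191 : G 402653184 = 77215148572909112042744624816707565586 :=
  grp_step g190 t191 (by norm_num) (by norm_num)

theorem g192 : G 404750336 = 77619570946851724753392580118990296775 :=
  grp_step g191 t192 (by norm_num) (by norm_num)

theorem g193 : G 406847488 = 78023786693746500262648092664202450221 :=
  grp_step g192 t193 (by norm_num) (by norm_num)

theorem g194 : G 408944640 = 78428163432267504757037596731938313354 :=
  grp_step g193 t194 (by norm_num) (by norm_num)

theorem g195 : G 411041792 = 78832256217054058128041166692413468303 :=
  grp_step g194 t195 (by norm_num) (by norm_num)

theorem g196 : G 413138944 = 79236465625695832496149675762289669996 :=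
  grp_step g195 t196 (by norm_num) (by norm_num)

theorem g197 : G 415236096 = 79640800531747029458968934425297215320 :=
  grp_step g196 t197 (by norm_num) (by norm_num)

theorem g198 : G 417333248 = 80044936416653990589772159313094865757 :=
  grp_step g197 t198 (by norm_num) (by norm_num)

theorem g199 : G 419430400 = 80449166107705368609551096355742290604 :=
  grp_step g198 t199 (by norm_num) (by norm_num)

theorem g200 : G 421527552 = 80853459181286758040800109613389084415 :=
  grp_step g199 t200 (by norm_num) (by norm_num)

theorem g201 : G 423624704 = 81257653378121329670155807399663215380 :=
  grp_step g200 t201 (by norm_num) (by norm_num)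

theorem g202 : G 425721856 = 81661803207184893311482454109019187466 :=
  grp_step g201 t202 (by norm_num) (by norm_num)

theorem g203 : G 427819008 = 82065998671670065169067556067696913022 :=
  grp_step g202 t203 (by norm_num) (by norm_num)

theorem g204 : G 429916160 = 82470247377480446612287522261061151936 :=
  grp_step g203 t204 (by norm_num) (by norm_num)

theorem g205 : G 432013312 = 82874388332989808656008362499394026423 :=
  grp_step g204 t205 (by norm_num) (by norm_num)

theorem g206 : G 434110464 = 83278586332776180970052271465281100733 :=
  grp_step g205 t206 (by norm_num) (by norm_num)

theorem g207 : G 436207616 = 83682907294670775422348127033339941132 :=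
  grp_step g206 t207 (by norm_num) (by norm_num)

theorem g208 : G 438304768 = 84087053320782538378986577273263536053 :=
  grp_step g207 t208 (by norm_num) (by norm_num)

theorem g209 : G 440401920 = 84491257658821911834177497739288746724 :=
  grp_step g208 t209 (by norm_num) (by norm_num)

theorem g210 : G 442499072 = 84895445517403482322386200073887136990 :=
  grp_step g209 t210 (by norm_num) (by norm_num)

theorem g211 : G 444596224 = 85299752535141474264158644519582826414 :=
  grp_step g210 t211 (by norm_num) (by norm_num)

theorem g212 : G 446693376 = 85703984761494052740396401945052190073 :=
  grp_step g211 t212 (by norm_num) (by norm_num)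

theorem g213 : G 448790528 = 86108157408268420489852290320800183753 :=
  grp_step g212 t213 (by norm_num) (by norm_num)

theorem g214 : G 450887680 = 86512502455524419278506783707906860673 :=
  grp_step g213 t214 (by norm_num) (by norm_num)

theorem g215 : G 452984832 = 86916648481636182235145243308654824682 :=
  grp_step g214 t215 (by norm_num) (by norm_num)

theorem g216 : G 455081984 = 87320997331843981708487943864167247915 :=
  grp_step g215 t216 (by norm_num) (by norm_num)

theorem g217 : G 457179136 = 87725266320063966803378351407546658655 :=
  grp_step g216 t217 (by norm_num) (by norm_num)

theorem g218 : G 459276288 = 88129589817259761712133024686231629960 :=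
  grp_step g217 t218 (by norm_num) (by norm_num)

theorem g219 : G 461373440 = 88533782746443733113259345047316184608 :=
  grp_step g218 t219 (by norm_num) (by norm_num)

theorem g220 : G 463470592 = 88938028916952914100020529646287946020 :=
  grp_step g219 t220 (by norm_num) (by norm_num)

theorem g221 : G 465567744 = 89342244663847689609276079639852873512 :=
  grp_step g220 t221 (by norm_num) (by norm_num)

theorem g222 : G 467664896 = 89746585908151887713242379236932656451 :=
  grp_step g221 t222 (by norm_num) (by norm_num)

theorem g223 : G 469762048 = 90150638128119233780905138709502828246 :=
  grp_step g222 t223 (by norm_num) (by norm_num)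

theorem g224 : G 471859200 = 90554827254351404497343261264813245485 :=
  grp_step g223 t224 (by norm_num) (by norm_num)

theorem g225 : G 473956352 = 90959126666185795069739315453127182619 :=
  grp_step g224 t225 (by norm_num) (by norm_num)

theorem g226 : G 476053504 = 91363318327719166242636243678555674348 :=
  grp_step g225 t226 (by norm_num) (by norm_num)

theorem g227 : G 478150656 = 91767458015577928058127711837216953850 :=
  grp_step g226 t227 (by norm_num) (by norm_num)

theorem g228 : G 480247808 = 92171866445363938258252298837526254010 :=
  grp_step g227 t228 (by norm_num) (by norm_num)

theorem g229 : G 482344960 = 92576091065812915365113670014217324455 :=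
  grp_step g228 t229 (by norm_num) (by norm_num)

theorem g230 : G 484442112 = 92980177512346467594970279282168458605 :=
  grp_step g229 t230 (by norm_num) (by norm_num)

theorem g231 : G 486539264 = 93384516221349465242477787924315876722 :=
  grp_step g230 t231 (by norm_num) (by norm_num)

theorem g232 : G 488636416 = 93788753518304444631633178090685527961 :=
  grp_step g231 t232 (by norm_num) (by norm_num)

theorem g233 : G 490733568 = 94192789258813987732313731462850170971 :=
  grp_step g232 t233 (by norm_num) (by norm_num)

theorem g234 : G 492830720 = 94597258535828808887449598380586053735 :=
  grp_step g233 t234 (by norm_num) (by norm_num)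

theorem g235 : G 494927872 = 95001381744229767735958857766884578830 :=
  grp_step g234 t235 (by norm_num) (by norm_num)

theorem g236 : G 497025024 = 95405654535401553515537495218360555309 :=
  grp_step g235 t236 (by norm_num) (by norm_num)

theorem g237 : G 499122176 = 95810017329765955499403640344072388391 :=
  grp_step g236 t237 (by norm_num) (by norm_num)

theorem g238 : G 501219328 = 96214086029191104534048639340130493481 :=
  grp_step g237 t238 (by norm_num) (by norm_num)

theorem g239 : G 503316480 = 96618352482109889172480273315751306235 :=
  grp_step g238 t239 (by norm_num) (by norm_num)

theorem g240 : G 505413632 = 97022688655811686363528991003113201410 :=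
  grp_step g239 t240 (by norm_num) (by norm_num)

theorem g241 : G 507510784 = 97427036238368885608642323507947077630 :=
  grp_step g240 t241 (by norm_num) (by norm_num)

theorem g242 : G 509607936 = 97831092261288032360993312874759713526 :=
  grp_step g241 t242 (by norm_num) (by norm_num)

theorem g243 : G 511705088 = 98235546326495650777376373863974060104 :=
  grp_step g242 t243 (by norm_num) (by norm_num)

theorem g244 : G 513802240 = 98639661928993008256509236298040927333 :=
  grp_step g243 t244 (by norm_num) (by norm_num)

theorem g245 : G 515899392 = 99043943593718995633693696272143924349 :=
  grp_step g244 t245 (by norm_num) (by norm_num)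

theorem g246 : G 517996544 = 99448094690433159503249803317023572384 :=
  grp_step g245 t246 (by norm_num) (by norm_num)

theorem g247 : G 520093696 = 99852569038050381571303293623209998828 :=
  grp_step g246 t247 (by norm_num) (by norm_num)

theorem g248 : G 522190848 = 100256902676450978305893219018051892569 :=
  grp_step g247 t248 (by norm_num) (by norm_num)

theorem g249 : G 524288000 = 100660882640334111364480127878429053463 :=
  grp_step g248 t249 (by norm_num) (by norm_num)

theorem g250 : G 526385152 = 101065113599036089612488534630755347149 :=
  grp_step g249 t250 (by norm_num) (by norm_num)

theorem g251 : G 528482304 = 101469250751593650971521231886549412837 :=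
  grp_step g250 t251 (by norm_num) (by norm_num)

theorem g252 : G 530579456 = 101873404383609015297536149950568484160 :=
  grp_step g251 t252 (by norm_num) (by norm_num)

theorem g253 : G 532676608 = 102277669568877199707738401155357805901 :=
  grp_step g252 t253 (by norm_num) (by norm_num)

theorem g254 : G 534773760 = 102682074195711409223174818452038727876 :=
  grp_step g253 t254 (by norm_num) (by norm_num)

theorem g255 : G 536870912 = 103086329239774791807541860349213541173 :=
  grp_step g254 t255 (by norm_num) (by norm_num)

theorem g256 : G 538968064 = 103490311738959125322587581561555925737 :=
  grp_step g255 t256 (by norm_num) (by norm_num)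

theorem g257 : G 541065216 = 103894727774648736892088616352745482099 :=
  grp_step g256 t257 (by norm_num) (by norm_num)

theorem g258 : G 543162368 = 104298831968290692317156884026105772733 :=
  grp_step g257 t258 (by norm_num) (by norm_num)

theorem g259 : G 545259520 = 104703069265245671706312310304559613226 :=
  grp_step g258 t259 (by norm_num) (by norm_num)

theorem g260 : G 547356672 = 105107347127019858398808585849974790533 :=
  grp_step g259 t260 (by norm_num) (by norm_num)

theorem g261 : G 549453824 = 105511590762227838929111022292443446273 :=
  grp_step g260 t261 (by norm_num) (by norm_num)

theorem g262 : G 551550976 = 105915731717737200972831938750556928126 :=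
  grp_step g261 t262 (by norm_num) (by norm_num)

theorem g263 : G 553648128 = 106319960141137978764381559894430420410 :=
  grp_step g262 t263 (by norm_num) (by norm_num)

theorem g264 : G 555745280 = 106724173352731553817178364402203309746 :=
  grp_step g263 t264 (by norm_num) (by norm_num)

theorem g265 : G 557842432 = 107128447411553939824986442142726481242 :=
  grp_step g264 t265 (by norm_num) (by norm_num)

theorem g266 : G 559939584 = 107532443854894875850555593198064884797 :=
  grp_step g265 t266 (by norm_num) (by norm_num)

theorem g267 : G 562036736 = 107936696363657057978463848150684181780 :=
  grp_step g266 t267 (by norm_num) (by norm_num)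

theorem g268 : G 564133888 = 108340784077841210436549909723213324205 :=
  grp_step g267 t268 (by norm_num) (by norm_num)

theorem g269 : G 566231040 = 108744810944796551939624700736636541052 :=
  grp_step g268 t269 (by norm_num) (by norm_num)

theorem g270 : G 568328192 = 109148726258499073358512161277066169221 :=
  grp_step g269 t270 (by norm_num) (by norm_num)

theorem g271 : G 570425344 = 109552939470092648411308975146954480725 :=
  grp_step g270 t271 (by norm_num) (by norm_num)

theorem g272 : G 572522496 = 109956695059819541073291849631735147666 :=
  grp_step g271 t272 (by norm_num) (by norm_num)

theorem g273 : G 574619648 = 110361038839424939633717020455036261093 :=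
  grp_step g272 t273 (by norm_num) (by norm_num)

theorem g274 : G 576716800 = 110765368674873735683618776139925803767 :=
  grp_step g273 t274 (by norm_num) (by norm_num)

theorem g275 : G 578813952 = 111169666819057526027785495716028680842 :=
  grp_step g274 t275 (by norm_num) (by norm_num)

theorem g276 : G 580911104 = 111574005528060523675293064561711343783 :=
  grp_step g275 t276 (by norm_num) (by norm_num)

theorem g277 : G 583008256 = 111978194654292694391731257996734569200 :=
  grp_step g276 t277 (by norm_num) (by norm_num)

theorem g278 : G 585105408 = 112382511813235488159339004053931108400 :=
  grp_step g277 t278 (by norm_num) (by norm_num)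

theorem g279 : G 587202560 = 112786688262961656593483185184716617115 :=
  grp_step g278 t279 (by norm_num) (by norm_num)

theorem g280 : G 589299712 = 113190636535579783946335098034333475148 :=
  grp_step g279 t280 (by norm_num) (by norm_num)

theorem g281 : G 591396864 = 113594735658619338458485790468632348588 :=
  grp_step g280 t281 (by norm_num) (by norm_num)

theorem g282 : G 593494016 = 113998846190514295024701097721385173477 :=
  grp_step g281 t282 (by norm_num) (by norm_num)

theorem g283 : G 595591168 = 114402890804578039722987528420456552154 :=
  grp_step g282 t283 (by norm_num) (by norm_num)

theorem g284 : G 597688320 = 114807204160569032805907078010618119611 :=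
  grp_step g283 t284 (by norm_num) (by norm_num)

theorem g285 : G 599785472 = 115211403428006005348180494127624632208 :=
  grp_step g284 t285 (by norm_num) (by norm_num)

theorem g286 : G 601882624 = 115615176764841301205375008285746598495 :=
  grp_step g285 t286 (by norm_num) (by norm_num)

theorem g287 : G 603979776 = 116019391244085476486401245052141287880 :=
  grp_step g286 t287 (by norm_num) (by norm_num)

theorem g288 : G 606076928 = 116423840238690693989866760269996639304 :=
  grp_step g287 t288 (by norm_num) (by norm_num)

theorem g289 : G 608174080 = 116827901332212241655135418463492516394 :=
  grp_step g288 t289 (by norm_num) (by norm_num)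

theorem g290 : G 610271232 = 117232255253022442041395824013721228951 :=
  grp_step g289 t290 (by norm_num) (by norm_num)

theorem g291 : G 612368384 = 117636365784917398607611143300251201584 :=
  grp_step g290 t291 (by norm_num) (by norm_num)

theorem g292 : G 614465536 = 118040193630728504278669929885575066660 :=
  grp_step g291 t292 (by norm_num) (by norm_num)

theorem g293 : G 616562688 = 118444448674791886863037022610488201047 :=
  grp_step g292 t293 (by norm_num) (by norm_num)

theorem g294 : G 618659840 = 118848422300422018780476984130962320266 :=
  grp_step g293 t294 (by norm_num) (by norm_num)

theorem g295 : G 620756992 = 119252510014606171238563081802801410773 :=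
  grp_step g294 t295 (by norm_num) (by norm_num)

theorem g296 : G 622854144 = 119656630687705929630613619758359714510 :=
  grp_step g295 t296 (by norm_num) (by norm_num)

theorem g297 : G 624951296 = 120060979537913729103956428681946918735 :=
  grp_step g296 t297 (by norm_num) (by norm_num)

theorem g298 : G 627048448 = 120465207961314506895506096637872238627 :=
  grp_step g297 t298 (by norm_num) (by norm_num)

theorem g299 : G 629145600 = 120869225954715646800975117269746122125 :=
  grp_step g298 t299 (by norm_num) (by norm_num)

theorem g300 : G 631242752 = 121273440433959822082001371422991321358 :=
  grp_step g299 t300 (by norm_num) (by norm_num)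

theorem g301 : G 633339904 = 121677557304107779789363711570182944992 :=
  grp_step g300 t301 (by norm_num) (by norm_num)

theorem g302 : G 635437056 = 122081916295520381088541739166862464265 :=
  grp_step g301 t302 (by norm_num) (by norm_num)

theorem g303 : G 637534208 = 122486017953861136057151264012410936299 :=
  grp_step g302 t303 (by norm_num) (by norm_num)

theorem g304 : G 639631360 = 122890057497322479842520116794132810410 :=
  grp_step g303 t304 (by norm_num) (by norm_num)

theorem g305 : G 641728512 = 123294029855302011531730691519257684112 :=
  grp_step g304 t305 (by norm_num) (by norm_num)

theorem g306 : G 643825664 = 123698354620148406668714884022222649330 :=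
  grp_step g305 t306 (by norm_num) (by norm_num)

theorem g307 : G 645922816 = 124102403037163952051689551300430158858 :=
  grp_step g306 t307 (by norm_num) (by norm_num)

theorem g308 : G 648019968 = 124506377930444684197358933031386758954 :=
  grp_step g307 t308 (by norm_num) (by norm_num)

theorem g309 : G 650117120 = 124910314794207409496146271159173894412 :=
  grp_step g308 t309 (by norm_num) (by norm_num)

theorem g310 : G 652214272 = 125314477299776975419767077268286536374 :=
  grp_step g309 t310 (by norm_num) (by norm_num)

theorem g311 : G 654311424 = 125718870517755782881138957352718734904 :=
  grp_step g310 t311 (by norm_num) (by norm_num)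

theorem g312 : G 656408576 = 126122979782000139219124903220053640624 :=
  grp_step g311 t312 (by norm_num) (by norm_num)

theorem g313 : G 658505728 = 126526909039859263148535837705997282794 :=
  grp_step g312 t313 (by norm_num) (by norm_num)

theorem g314 : G 660602880 = 126931156478019044363526549531915083303 :=
  grp_step g313 t314 (by norm_num) (by norm_num)

theorem g315 : G 662700032 = 127335064185817964413037661224171195928 :=
  grp_step g314 t315 (by norm_num) (by norm_num)

theorem g316 : G 664797184 = 127739235564941731934264285843235764549 :=
  grp_step g315 t316 (by norm_num) (by norm_num)

theorem g317 : G 666894336 = 128143147075692452668463604702450922523 :=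
  grp_step g316 t317 (by norm_num) (by norm_num)

theorem g318 : G 668991488 = 128547622690960274964746591525379850430 :=
  grp_step g317 t318 (by norm_num) (by norm_num)

theorem g319 : G 671088640 = 128951744631710633585026561732914572004 :=
  grp_step g318 t319 (by norm_num) (by norm_num)

theorem g320 : G 673185792 = 129355715722039565046007755009432679543 :=
  grp_step g319 t320 (by norm_num) (by norm_num)

theorem g321 : G 675282944 = 129760056966343763149974187053559699906 :=
  grp_step g320 t321 (by norm_num) (by norm_num)

theorem g322 : G 677380096 = 130164201724804925878383388237394005470 :=
  grp_step g321 t322 (by norm_num) (by norm_num)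

theorem g323 : G 679477248 = 130568496066036915537861967529280032992 :=
  grp_step g322 t323 (by norm_num) (by norm_num)

theorem g324 : G 681574400 = 130972768857208701317440722691876271781 :=
  grp_step g323 t324 (by norm_num) (by norm_num)

theorem g325 : G 683671552 = 131376861641995254688444466466419479248 :=
  grp_step g324 t325 (by norm_num) (by norm_num)

theorem g326 : G 685768704 = 131780714840818364924091328442260304014 :=
  grp_step g325 t326 (by norm_num) (by norm_num)

theorem g327 : G 687865856 = 132184811428556718979783279385001363560 :=
  grp_step g326 t327 (by norm_num) (by norm_num)

theorem g328 : G 689963008 = 132588717868705038801065006952802630358 :=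
  grp_step g327 t328 (by norm_num) (by norm_num)

theorem g329 : G 692060160 = 132992866430118002214162421990990554397 :=
  grp_step g328 t329 (by norm_num) (by norm_num)

theorem g330 : G 694157312 = 133396843858699934816290636124531874895 :=
  grp_step g329 t330 (by norm_num) (by norm_num)

theorem g331 : G 696254464 = 133801233273726941592974338475342175532 :=
  grp_step g330 t331 (by norm_num) (by norm_num)

theorem g332 : G 698351616 = 134205120699116257990815048917066093967 :=
  grp_step g331 t332 (by norm_num) (by norm_num)

theorem g333 : G 700448768 = 134609214751553411590048204885499428003 :=
  grp_step g332 t333 (by norm_num) (by norm_num)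

theorem g334 : G 702545920 = 135013344298207371579704604138144071489 :=
  grp_step g333 t334 (by norm_num) (by norm_num)

theorem g335 : G 704643072 = 135417309050283301899538809973619126477 :=
  grp_step g334 t335 (by norm_num) (by norm_num)

theorem g336 : G 706740224 = 135821499444166072844206483810278049637 :=
  grp_step g335 t336 (by norm_num) (by norm_num)

theorem g337 : G 708837376 = 136225547861181618227181191194904185195 :=
  grp_step g336 t337 (by norm_num) (by norm_num)

theorem g338 : G 710934528 = 136629695154943981412049216769727454311 :=
  grp_step g337 t338 (by norm_num) (by norm_num)

theorem g339 : G 713031680 = 137033752445513728392629737314904055792 :=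
  grp_step g338 t339 (by norm_num) (by norm_num)

theorem g340 : G 715128832 = 137437846497950881991862902642948702742 :=
  grp_step g339 t340 (by norm_num) (by norm_num)

theorem g341 : G 717225984 = 137841764346954603867209261066973790701 :=
  grp_step g340 t341 (by norm_num) (by norm_num)

theorem g342 : G 719323136 = 138245833046379752901854399106023219465 :=
  grp_step g341 t342 (by norm_num) (by norm_num)

theorem g343 : G 721420288 = 138649878928094097828370311515885461593 :=
  grp_step g342 t343 (by norm_num) (by norm_num)

theorem g344 : G 723517440 = 139054144113362282238572684442185507346 :=
  grp_step g343 t344 (by norm_num) (by norm_num)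

theorem g345 : G 725614592 = 139458195065679028078006205518250245080 :=
  grp_step g344 t345 (by norm_num) (by norm_num)

theorem g346 : G 727711744 = 139862126858839352463875987104671098012 :=
  grp_step g345 t346 (by norm_num) (by norm_num)

theorem g347 : G 729808896 = 140266337535131727060214099622848107704 :=
  grp_step g346 t347 (by norm_num) (by norm_num)

theorem g348 : G 731906048 = 140670283272448653956607300362243380407 :=
  grp_step g347 t348 (by norm_num) (by norm_num)

theorem g349 : G 734003200 = 141074401410247211892199106188800139306 :=
  grp_step g348 t349 (by norm_num) (by norm_num)

theorem g350 : G 736100352 = 141478497997985565947891087883800158694 :=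
  grp_step g349 t350 (by norm_num) (by norm_num)

theorem g351 : G 738197504 = 141882366408615878922290801243732937998 :=
  grp_step g350 t351 (by norm_num) (by norm_num)

theorem g352 : G 740294656 = 142286636664486464245410790863438816293 :=
  grp_step g351 t352 (by norm_num) (by norm_num)

theorem g353 : G 742391808 = 142690449298490367177716840975775345467 :=
  grp_step g352 t353 (by norm_num) (by norm_num)

theorem g354 : G 744488960 = 143094929984360590386917481970291815050 :=
  grp_step g353 t354 (by norm_num) (by norm_num)

theorem g355 : G 746586112 = 143499005022038740562709644881300322009 :=
  grp_step g354 t355 (by norm_num) (by norm_num)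

theorem g356 : G 748683264 = 143903052171403685717454976168571922528 :=
  grp_step g355 t356 (by norm_num) (by norm_num)

theorem g357 : G 750780416 = 144307076503057826764071081825048083511 :=
  grp_step g356 t357 (by norm_num) (by norm_num)

theorem g358 : G 752877568 = 144711269432241798165197588080401170117 :=
  grp_step g357 t358 (by norm_num) (by norm_num)

theorem g359 : G 754974720 = 145115301369799540581190105399843433744 :=
  grp_step g358 t359 (by norm_num) (by norm_num)

theorem g360 : G 757071872 = 145519092453743239633596339395371914211 :=
  grp_step g359 t360 (by norm_num) (by norm_num)

theorem g361 : G 759169024 = 145923312003589815827540281124898364082 :=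
  grp_step g360 t361 (by norm_num) (by norm_num)

theorem g362 : G 761266176 = 146327194358376731312463425664366862531 :=
  grp_step g361 t362 (by norm_num) (by norm_num)

theorem g363 : G 763363328 = 146731354328645096779625499651944129601 :=
  grp_step g362 t363 (by norm_num) (by norm_num)

theorem g364 : G 765460480 = 147135433169275047640105879090139220765 :=
  grp_step g363 t364 (by norm_num) (by norm_num)

theorem g365 : G 767557632 = 147539348482977569058993466593107763524 :=
  grp_step g364 t365 (by norm_num) (by norm_num)

theorem g366 : G 769654784 = 147943348729270305769250955814315215380 :=
  grp_step g365 t366 (by norm_num) (by norm_num)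

theorem g367 : G 771751936 = 148347464331767663248383982712168811323 :=
  grp_step g366 t367 (by norm_num) (by norm_num)

theorem g368 : G 773849088 = 148751426548542393111759429659258746209 :=
  grp_step g367 t368 (by norm_num) (by norm_num)

theorem g369 : G 775946240 = 149155452147847134386604952855740050135 :=
  grp_step g368 t369 (by norm_num) (by norm_num)

theorem g370 : G 778043392 = 149559482817754276574368083381801037717 :=
  grp_step g369 t370 (by norm_num) (by norm_num)

theorem g371 : G 780140544 = 149963588279046832227665903642369120522 :=
  grp_step g370 t371 (by norm_num) (by norm_num)

theorem g372 : G 782237696 = 150367487113291550679571281022950196752 :=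
  grp_step g371 t372 (by norm_num) (by norm_num)

theorem g373 : G 784334848 = 150771364397476065251576834269148692511 :=
  grp_step g372 t373 (by norm_num) (by norm_num)

theorem g374 : G 786432000 = 151175367179070002418293137180286547901 :=
  grp_step g373 t374 (by norm_num) (by norm_num)

theorem g375 : G 788529152 = 151579598137771980666301711118870173921 :=
  grp_step g374 t375 (by norm_num) (by norm_num)

theorem g376 : G 790626304 = 151983745431534343851169787508024164547 :=
  grp_step g375 t376 (by norm_num) (by norm_num)

theorem g377 : G 792723456 = 152387568206743048609311081673074210415 :=
  grp_step g376 t377 (by norm_num) (by norm_num)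

theorem g378 : G 794820608 = 152791633103216396959268063347660109726 :=
  grp_step g377 t378 (by norm_num) (by norm_num)

theorem g379 : G 796917760 = 153195614334750130246084547471872884365 :=
  grp_step g378 t379 (by norm_num) (by norm_num)

theorem g380 : G 799014912 = 153599738810801689322823402240651526849 :=
  grp_step g379 t380 (by norm_num) (by norm_num)

theorem g381 : G 801112064 = 154003619897938004579517170672131024239 :=
  grp_step g380 t381 (by norm_num) (by norm_num)

theorem g382 : G 803209216 = 154407611270676539692168870792511200326 :=
  grp_step g381 t382 (by norm_num) (by norm_num)

theorem g383 : G 805306368 = 154811621658174078228261594724453289930 :=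
  grp_step g382 t383 (by norm_num) (by norm_num)

theorem g384 : G 807403520 = 155215362036093768151491800852004339535 :=
  grp_step g383 t384 (by norm_num) (by norm_num)

theorem g385 : G 809500672 = 155619426932567116501448791885075238388 :=
  grp_step g384 t385 (by norm_num) (by norm_num)

theorem g386 : G 811597824 = 156023351119823839517942217941268922532 :=
  grp_step g385 t386 (by norm_num) (by norm_num)

theorem g387 : G 813694976 = 156427187839189146786606941949062062489 :=
  grp_step g386 t387 (by norm_num) (by norm_num)

theorem g388 : G 815792128 = 156831422600842925719303737769748809624 :=
  grp_step g387 t388 (by norm_num) (by norm_num)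

theorem g389 : G 817889280 = 157235460876653669276443302685587739328 :=
  grp_step g388 t389 (by norm_num) (by norm_num)

theorem g390 : G 819986432 = 157639496617163212377124065941594067300 :=
  grp_step g389 t390 (by norm_num) (by norm_num)

theorem g391 : G 822083584 = 158043438551528338588829119656903532740 :=
  grp_step g390 t391 (by norm_num) (by norm_num)

theorem g392 : G 824180736 = 158447352597580259779487341744976936258 :=
  grp_step g391 t392 (by norm_num) (by norm_num)

theorem g393 : G 826277888 = 158851117060861354039076188363639324960 :=
  grp_step g392 t393 (by norm_num) (by norm_num)

theorem g394 : G 828375040 = 159254922088961655602005884266294382766 :=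
  grp_step g393 t394 (by norm_num) (by norm_num)

theorem g395 : G 830472192 = 159658872896880983411316753816403179489 :=
  grp_step g394 t395 (by norm_num) (by norm_num)

theorem g396 : G 832569344 = 160062921313896528794291540077109248549 :=
  grp_step g395 t396 (by norm_num) (by norm_num)

theorem g397 : G 834666496 = 160466804936334044507444132886573425211 :=
  grp_step g396 t397 (by norm_num) (by norm_num)

theorem g398 : G 836763648 = 160870622640940348352667849116740037317 :=
  grp_step g397 t398 (by norm_num) (by norm_num)

theorem g399 : G 838860800 = 161274577251811476846666928508203438603 :=
  grp_step g398 t399 (by norm_num) (by norm_num)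

theorem g400 : G 840957952 = 161678649754188426566000348585810595840 :=
  grp_step g399 t400 (by norm_num) (by norm_num)

theorem g401 : G 843055104 = 162082489008854934291123894297253287857 :=
  grp_step g400 t401 (by norm_num) (by norm_num)

theorem g402 : G 845152256 = 162486557708280083325769112553423047805 :=
  grp_step g401 t402 (by norm_num) (by norm_num)

theorem g403 : G 847249408 = 162890466683729603603509743348660612005 :=
  grp_step g402 t403 (by norm_num) (by norm_num)

theorem g404 : G 849346560 = 163294466930022340313767283365298470677 :=
  grp_step g403 t404 (by norm_num) (by norm_num)

theorem g405 : G 851443712 = 163698258013966039366173577482382444954 :=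
  grp_step g404 t405 (by norm_num) (by norm_num)

theorem g406 : G 853540864 = 164102189807126363752043439258436294786 :=
  grp_step g405 t406 (by norm_num) (by norm_num)

theorem g407 : G 855638016 = 164506277521310516210129686675870952447 :=
  grp_step g406 t407 (by norm_num) (by norm_num)

theorem g408 : G 857735168 = 164910036913989209556800947340429727809 :=
  grp_step g407 t408 (by norm_num) (by norm_num)

theorem g409 : G 859832320 = 165314015610221742387158668567438388086 :=
  grp_step g408 t409 (by norm_num) (by norm_num)

theorem g410 : G 861929472 = 165718116000911897127538934979785492601 :=
  grp_step g409 t410 (by norm_num) (by norm_num)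

theorem g411 : G 864026624 = 166122035117566219231114788454065243643 :=
  grp_step g410 t411 (by norm_num) (by norm_num)

theorem g412 : G 866123776 = 166525724789461900025168972048416590162 :=
  grp_step g411 t412 (by norm_num) (by norm_num)

theorem g413 : G 868220928 = 166929648976718623041662434189269944856 :=
  grp_step g412 t413 (by norm_num) (by norm_num)

theorem g414 : G 870318080 = 167333680914276365457655025034213796097 :=
  grp_step g413 t414 (by norm_num) (by norm_num)

theorem g415 : G 872415232 = 167737527774846474552154998442992341434 :=
  grp_step g414 t415 (by norm_num) (by norm_num)

theorem g416 : G 874512384 = 168141375903067183874884374686353496184 :=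
  grp_step g415 t416 (by norm_num) (by norm_num)

theorem g417 : G 876609536 = 168545390093516523095665348563364647123 :=
  grp_step g416 t417 (by norm_num) (by norm_num)

theorem g418 : G 878706688 = 168949214136375828082036099008274577332 :=
  grp_step g417 t418 (by norm_num) (by norm_num)

theorem g419 : G 880803840 = 169353068602849538545912486752313808309 :=
  grp_step g418 t419 (by norm_num) (by norm_num)

theorem g420 : G 882900992 = 169757239981973306067139250449867906208 :=
  grp_step g419 t420 (by norm_num) (by norm_num)

theorem g421 : G 884998144 = 170160999374651999413810528481338782328 :=
  grp_step g420 t421 (by norm_num) (by norm_num)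

theorem g422 : G 887095296 = 170564765105583693901628815341178839385 :=
  grp_step g421 t422 (by norm_num) (by norm_num)

theorem g423 : G 889192448 = 170968658869226011440616654883603746481 :=
  grp_step g422 t423 (by norm_num) (by norm_num)

theorem g424 : G 891289600 = 171372318117507286757165218542584035670 :=
  grp_step g423 t424 (by norm_num) (by norm_num)

theorem g425 : G 893386752 = 171776391887534836704728073542561324272 :=
  grp_step g424 t425 (by norm_num) (by norm_num)

theorem g426 : G 895483904 = 172180291989430155384862924586332237069 :=
  grp_step g425 t426 (by norm_num) (by norm_num)

theorem g427 : G 897581056 = 172584127441144862425298300542963732557 :=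
  grp_step g426 t427 (by norm_num) (by norm_num)

theorem g428 : G 899678208 = 172988458544244258703429663749489068972 :=
  grp_step g427 t428 (by norm_num) (by norm_num)

theorem g429 : G 901775360 = 173392098777766530596537211609087262730 :=
  grp_step g428 t429 (by norm_num) (by norm_num)

theorem g430 : G 903872512 = 173795995076710048591983863502978548190 :=
  grp_step g429 t430 (by norm_num) (by norm_num)

theorem g431 : G 905969664 = 174199696157461131440102685962156615138 :=
  grp_step g430 t431 (by norm_num) (by norm_num)

theorem g432 : G 908066816 = 174603545553332440991061485083388039005 :=
  grp_step g431 t432 (by norm_num) (by norm_num)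

theorem g433 : G 910163968 = 175007426640468756247755323004091985397 :=
  grp_step g432 t433 (by norm_num) (by norm_num)

theorem g434 : G 912261120 = 175411310262906271960907965258446321133 :=
  grp_step g433 t434 (by norm_num) (by norm_num)

theorem g435 : G 914358272 = 175815062049681363938202853001842272725 :=
  grp_step g434 t435 (by norm_num) (by norm_num)

theorem g436 : G 916455424 = 176218682000794032179639986233570100655 :=
  grp_step g435 t436 (by norm_num) (by norm_num)

theorem g437 : G 918552576 = 176622762109074583268349864769852847128 :=
  grp_step g436 t437 (by norm_num) (by norm_num)

theorem g438 : G 920649728 = 177026546854765281179609195482971488014 :=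
  grp_step g437 t438 (by norm_num) (by norm_num)

theorem g439 : G 922746880 = 177430511606841211499443540325762593640 :=
  grp_step g438 t439 (by norm_num) (by norm_num)

theorem g440 : G 924844032 = 177834177193375487957139132847114838874 :=
  grp_step g439 t440 (by norm_num) (by norm_num)

theorem g441 : G 926941184 = 178237953065511984270792657078255384571 :=
  grp_step g440 t441 (by norm_num) (by norm_num)

theorem g442 : G 929038336 = 178641959650057722122197255383381343872 :=
  grp_step g441 t442 (by norm_num) (by norm_num)

theorem g443 : G 931135488 = 179045706366230413186574547819695843262 :=
  grp_step g442 t443 (by norm_num) (by norm_num)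

theorem g444 : G 933232640 = 179449308570234678232800070754820200276 :=
  grp_step g443 t444 (by norm_num) (by norm_num)

theorem g445 : G 935329792 = 179853223883937199651687765172833044111 :=
  grp_step g444 t445 (by norm_num) (by norm_num)

theorem g446 : G 937426944 = 180257118915230117418905036950258581860 :=
  grp_step g445 t446 (by norm_num) (by norm_num)

theorem g447 : G 939524096 = 180661093808510849564574604474690810816 :=
  grp_step g446 t447 (by norm_num) (by norm_num)

theorem g448 : G 941621248 = 181064872215948546334686941055281124309 :=
  grp_step g447 t448 (by norm_num) (by norm_num)

theorem g449 : G 943718400 = 181468532731880421879464939603064967533 :=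
  grp_step g448 t449 (by norm_num) (by norm_num)

theorem g450 : G 945815552 = 181872320012872320247183089345173275423 :=
  grp_step g449 t450 (by norm_num) (by norm_num)

theorem g451 : G 947912704 = 182276052784888408801036975983634612014 :=
  grp_step g450 t451 (by norm_num) (by norm_num)

theorem g452 : G 950009856 = 182680073313590749162965004140755853178 :=
  grp_step g451 t452 (by norm_num) (by norm_num)

theorem g453 : G 952107008 = 183083833973920042737865726420391866183 :=
  grp_step g452 t453 (by norm_num) (by norm_num)

theorem g454 : G 954204160 = 183487622522562541333813283005470092474 :=
  grp_step g453 t454 (by norm_num) (by norm_num)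

theorem g455 : G 956301312 = 183891390788795436278090416948661186127 :=
  grp_step g454 t455 (by norm_num) (by norm_num)

theorem g456 : G 958398464 = 184295366949726768651989398001362839592 :=
  grp_step g455 t456 (by norm_num) (by norm_num)

theorem g457 : G 960495616 = 184698972956682834382903142793091131735 :=
  grp_step g456 t457 (by norm_num) (by norm_num)

theorem g458 : G 962592768 = 185102743758216929783639083741868846722 :=
  grp_step g457 t458 (by norm_num) (by norm_num)

theorem g459 : G 964689920 = 185506580477582237052303903954873180975 :=
  grp_step g458 t459 (by norm_num) (by norm_num)

theorem g460 : G 966787072 = 185910385505682538615233688038024079457 :=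
  grp_step g459 t460 (by norm_num) (by norm_num)

theorem g461 : G 968884224 = 186314223492698446112127912421753587599 :=
  grp_step g460 t461 (by norm_num) (by norm_num)

theorem g462 : G 970981376 = 186717979082425338774111040730309670162 :=
  grp_step g461 t462 (by norm_num) (by norm_num)

theorem g463 : G 973078528 = 187121889325525459280081153209720173329 :=
  grp_step g462 t463 (by norm_num) (by norm_num)

theorem g464 : G 975175680 = 187525803371577380470739471521320452729 :=
  grp_step g463 t464 (by norm_num) (by norm_num)

theorem g465 : G 977272832 = 187929638823292087511174898252897814073 :=
  grp_step g464 t465 (by norm_num) (by norm_num)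

theorem g466 : G 979369984 = 188333410892476783140140251387683200427 :=
  grp_step g465 t466 (by norm_num) (by norm_num)

theorem g467 : G 981467136 = 188737213385275884246611241826504345663 :=
  grp_step g466 t467 (by norm_num) (by norm_num)

theorem g468 : G 983564288 = 189140862492352357737324652262656355798 :=
  grp_step g467 t468 (by norm_num) (by norm_num)

theorem g469 : G 985661440 = 189544635829187653594519410904188214123 :=
  grp_step g468 t469 (by norm_num) (by norm_num)

theorem g470 : G 987758592 = 189948594243010582773206789688419976772 :=
  grp_step g469 t470 (by norm_num) (by norm_num)

theorem g471 : G 989855744 = 190352465188942096204065466400286411212 :=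
  grp_step g470 t471 (by norm_num) (by norm_num)

theorem g472 : G 991952896 = 190756171340295579965101949619246100832 :=
  grp_step g471 t472 (by norm_num) (by norm_num)

theorem g473 : G 994050048 = 191159905379962268747185267145143849070 :=
  grp_step g472 t473 (by norm_num) (by norm_num)

theorem g474 : G 996147200 = 191563750972881777613455917892165193814 :=
  grp_step g473 t474 (by norm_num) (by norm_num)

theorem g475 : G 998244352 = 191967368388693245398434300209645878610 :=
  grp_step g474 t475 (by norm_num) (by norm_num)

theorem g476 : G 1000341504 = 192371196234504351069493332646974590364 :=
  grp_step g475 t476 (by norm_num) (by norm_num)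

theorem g477 : G 1002438656 = 192775130562965875911822092311572302582 :=
  grp_step g476 t477 (by norm_num) (by norm_num)

theorem g478 : G 1004535808 = 193179148556367015817291352227526888110 :=
  grp_step g477 t478 (by norm_num) (by norm_num)

theorem g479 : G 1006632960 = 193582840763563897067804428311143360637 :=
  grp_step g478 t479 (by norm_num) (by norm_num)

theorem g480 : G 1008730112 = 193986985522025059796213840772516404139 :=
  grp_step g479 t480 (by norm_num) (by norm_num)

theorem g481 : G 1010827264 = 194390865341510774824678341338448994146 :=
  grp_step g480 t481 (by norm_num) (by norm_num)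

theorem g482 : G 1012924416 = 194794342048105617276193166645501239215 :=
  grp_step g481 t482 (by norm_num) (by norm_num)

theorem g483 : G 1015021568 = 195198041861206099896082657063766541400 :=
  grp_step g482 t483 (by norm_num) (by norm_num)

theorem g484 : G 1017118720 = 195602203099125065591474294357699521153 :=
  grp_step g483 t484 (by norm_num) (by norm_num)

theorem g485 : G 1019215872 = 196005909250478549352510794941241065093 :=
  grp_step g484 t485 (by norm_num) (by norm_num)

theorem g486 : G 1021313024 = 196409432860145600248513481041807543769 :=
  grp_step g485 t486 (by norm_num) (by norm_num)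

theorem g487 : G 1023410176 = 196813250564751904093737316186711178545 :=
  grp_step g486 t487 (by norm_num) (by norm_num)

theorem g488 : G 1025507328 = 197216942771948785344250404291718822124 :=
  grp_step g487 t488 (by norm_num) (by norm_num)

theorem g489 : G 1027604480 = 197620693291073277093315962675194440471 :=
  grp_step g488 t489 (by norm_num) (by norm_num)

theorem g490 : G 1029701632 = 198024309439234144650064963525752960152 :=
  grp_step g489 t490 (by norm_num) (by norm_num)

theorem g491 : G 1031798784 = 198427969955166020194843018168845429238 :=
  grp_step g490 t491 (by norm_num) (by norm_num)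

theorem g492 : G 1033895936 = 198831709065435109889843967070652657872 :=
  grp_step g491 t492 (by norm_num) (by norm_num)

theorem g493 : G 1035993088 = 199235510290583610768085590748209586085 :=
  grp_step g492 t493 (by norm_num) (by norm_num)

theorem g494 : G 1038090240 = 199639548566394354325225296033565874929 :=
  grp_step g493 t494 (by norm_num) (by norm_num)

theorem g495 : G 1040187392 = 200043055696603602254245774666680744602 :=
  grp_step g494 t495 (by norm_num) (by norm_num)

theorem g496 : G 1042284544 = 200446792271571491492787925914488867694 :=
  grp_step g495 t496 (by norm_num) (by norm_num)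

theorem g497 : G 1044381696 = 200850429969792562929436761592728646724 :=
  grp_step g496 t497 (by norm_num) (by norm_num)

theorem g498 : G 1046478848 = 201254160206507451026831908018255477363 :=
  grp_step g497 t498 (by norm_num) (by norm_num)

theorem g499 : G 1048576000 = 201658103408523177466766507578144536048 :=
  grp_step g498 t499 (by norm_num) (by norm_num)

theorem g500 : G 1050673152 = 202061685330117838861321681315761627992 :=
  grp_step g499 t500 (by norm_num) (by norm_num)

theorem g501 : G 1052770304 = 202465575290808355715621420598481461253 :=
  grp_step g500 t501 (by norm_num) (by norm_num)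

theorem g502 : G 1054867456 = 202869158480053617338405998505281860654 :=
  grp_step g501 t502 (by norm_num) (by norm_num)

theorem g503 : G 1056964608 = 203273028158334530541035316479762324343 :=
  grp_step g502 t503 (by norm_num) (by norm_num)

theorem g504 : G 1059061760 = 203676944739687652188152491246645266851 :=
  grp_step g503 t504 (by norm_num) (by norm_num)

theorem g505 : G 1061158912 = 204080584973209924081260140606705296847 :=
  grp_step g504 t505 (by norm_num) (by norm_num)

theorem g506 : G 1063256064 = 204484057876852965848086793457210119997 :=
  grp_step g505 t506 (by norm_num) (by norm_num)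

theorem g507 : G 1065353216 = 204887606839532021308677537572528474581 :=
  grp_step g506 t507 (by norm_num) (by norm_num)

theorem g508 : G 1067450368 = 205291082278476263531962996090568671691 :=
  grp_step g507 t508 (by norm_num) (by norm_num)

theorem g509 : G 1069547520 = 205694738991456338392052870277589650348 :=
  grp_step g508 t509 (by norm_num) (by norm_num)

theorem g510 : G 1071644672 = 206098595993231249312388182617886258577 :=
  grp_step g509 t510 (by norm_num) (by norm_num)

theorem g511 : G 1073741824 = 206502380738921947223647610859803199769 :=
  grp_step g510 t511 (by norm_num) (by norm_num)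

theorem g512 : G 1075838976 = 206906059001962225963637314534148397351 :=
  grp_step g511 t512 (by norm_num) (by norm_num)

theorem g513 : G 1077936128 = 207309883044821530950008191912775528100 :=
  grp_step g512 t513 (by norm_num) (by norm_num)

theorem g514 : G 1080033280 = 207713541025452206038327474276613359158 :=
  grp_step g513 t514 (by norm_num) (by norm_num)

theorem g515 : G 1082130432 = 208117276332769495048640249406682932665 :=
  grp_step g514 t515 (by norm_num) (by norm_num)

theorem g516 : G 1084227584 = 208520763180569139325990332094412369102 :=
  grp_step g515 t516 (by norm_num) (by norm_num)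

theorem g517 : G 1086324736 = 208924498487886428336303109896110941365 :=
  grp_step g516 t517 (by norm_num) (by norm_num)

theorem g518 : G 1088421888 = 209328446760504555689155340845315973150 :=
  grp_step g517 t518 (by norm_num) (by norm_num)

theorem g519 : G 1090519040 = 209732045161557020050692759439651234451 :=
  grp_step g518 t519 (by norm_num) (by norm_num)

theorem g520 : G 1092616192 = 210135601730139676880659929906385215985 :=
  grp_step g519 t520 (by norm_num) (by norm_num)

theorem g521 : G 1094713344 = 210539296472637758587631865087115608224 :=
  grp_step g520 t521 (by norm_num) (by norm_num)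

theorem g522 : G 1096810496 = 210942817547003609027175796255056055070 :=
  grp_step g521 t522 (by norm_num) (by norm_num)

theorem g523 : G 1098907648 = 211346787369681940259927859368322810848 :=
  grp_step g522 t523 (by norm_num) (by norm_num)

theorem g524 : G 1101004800 = 211750261540975582254983937747129792925 :=
  grp_step g523 t524 (by norm_num) (by norm_num)

theorem g525 : G 1103101952 = 212153821912510039769639319387005505982 :=
  grp_step g524 t525 (by norm_num) (by norm_num)

theorem g526 : G 1105199104 = 212557476090188914173270413281149552603 :=
  grp_step g525 t526 (by norm_num) (by norm_num)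

theorem g527 : G 1107296256 = 212960984488048762330520336135531992947 :=
  grp_step g526 t527 (by norm_num) (by norm_num)

theorem g528 : G 1109393408 = 213364726133619052481980136126610661741 :=
  grp_step g527 t528 (by norm_num) (by norm_num)

theorem g529 : G 1111490560 = 213768546373526556783662830386701877093 :=
  grp_step g528 t529 (by norm_num) (by norm_num)

theorem g530 : G 1113587712 = 214172033221326201061012931764893468288 :=
  grp_step g529 t530 (by norm_num) (by norm_num)

theorem g531 : G 1115684864 = 214575697540209877290479244328394258703 :=
  grp_step g530 t531 (by norm_num) (by norm_num)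

theorem g532 : G 1117782016 = 214979247770539532979299423323231576312 :=
  grp_step g531 t532 (by norm_num) (by norm_num)

theorem g533 : G 1119879168 = 215382900680567807154701125067547675396 :=
  grp_step g532 t533 (by norm_num) (by norm_num)

theorem g534 : G 1121976320 = 215786558661198482243020434143380935234 :=
  grp_step g533 t534 (by norm_num) (by norm_num)

theorem g535 : G 1124073472 = 216190428339479395445649794879301418587 :=
  grp_step g534 t535 (by norm_num) (by norm_num)

theorem g536 : G 1126170624 = 216594199141013490846385840033305869292 :=
  grp_step g535 t536 (by norm_num) (by norm_num)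

theorem g537 : G 1128267776 = 216997617535680722799348269812884836083 :=
  grp_step g536 t537 (by norm_num) (by norm_num)

theorem g538 : G 1130364928 = 217401261572154795377144167742704208100 :=
  grp_step g537 t538 (by norm_num) (by norm_num)

theorem g539 : G 1132462080 = 217804980400014281420474755446546914698 :=
  grp_step g538 t539 (by norm_num) (by norm_num)

theorem g540 : G 1134559232 = 218208701763174967920264147484163452822 :=
  grp_step g539 t540 (by norm_num) (by norm_num)

theorem g541 : G 1136656384 = 218612556229648678384140698249934997139 :=
  grp_step g540 t541 (by norm_num) (by norm_num)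

theorem gz1 : G 1137180672 = 218713560094173663246393333742725021743 :=
  grp_step g541 t1123 (by norm_num) (by norm_num)

theorem gx1 : G 1137326076 = 218741613201956713963048506119494054597 :=
  win_step gz1 y1 (by norm_num) (by norm_num) (by norm_num)

theorem g542 : G 1138753536 = 219016332101785174697794357415255490944 :=
  grp_step g541 t542 (by norm_num) (by norm_num)

theorem g543 : G 1140850688 = 219419741622898205053150984710726716434 :=
  grp_step g542 t543 (by norm_num) (by norm_num)

theorem g544 : G 1142947840 = 219823327347444667132394421700078540585 :=
  grp_step g543 t544 (by norm_num) (by norm_num)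

theorem g545 : G 1145044992 = 220227117163737765956571501362232702053 :=
  grp_step g544 t545 (by norm_num) (by norm_num)

theorem g546 : G 1147142144 = 220630865147561057249178332893837915406 :=
  grp_step g545 t546 (by norm_num) (by norm_num)

theorem g547 : G 1149239296 = 221034286077529489658599579019367418253 :=
  grp_step g546 t547 (by norm_num) (by norm_num)

theorem g548 : G 1151336448 = 221438091105629791221529480677680455801 :=
  grp_step g547 t548 (by norm_num) (by norm_num)

theorem g549 : G 1153433600 = 221841716127344860375884370813218430185 :=
  grp_step g548 t549 (by norm_num) (by norm_num)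

theorem g550 : G 1155530752 = 222245060998277279091541531002560360024 :=
  grp_step g549 t550 (by norm_num) (by norm_num)

theorem g551 : G 1157627904 = 222648830532160774264048194696601849404 :=
  grp_step g550 t551 (by norm_num) (by norm_num)

theorem g552 : G 1159725056 = 223052155120683589328034933570207393725 :=
  grp_step g551 t552 (by norm_num) (by norm_num)

theorem g553 : G 1161822208 = 223455733239326450037901973583496190270 :=
  grp_step g552 t553 (by norm_num) (by norm_num)

theorem g554 : G 1163919360 = 223859564888089356393649314738213445605 :=
  grp_step g553 t554 (by norm_num) (by norm_num)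

theorem g555 : G 1166016512 = 224262827361732760274395384163294406343 :=
  grp_step g554 t555 (by norm_num) (by norm_num)

theorem g556 : G 1168113664 = 224666409283327421668950632679749306519 :=
  grp_step g555 t556 (by norm_num) (by norm_num)

theorem g557 : G 1170210816 = 225069915145886069369741792588932907507 :=
  grp_step g556 t557 (by norm_num) (by norm_num)

theorem g558 : G 1172307968 = 225473514814589133959508664762701032889 :=
  grp_step g557 t558 (by norm_num) (by norm_num)

theorem g559 : G 1174405120 = 225877082792027192843540500795622846000 :=
  grp_step g558 t559 (by norm_num) (by norm_num)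

theorem g560 : G 1176502272 = 226280790211031276832806503059931934619 :=
  grp_step g559 t560 (by norm_num) (by norm_num)

theorem g561 : G 1178599424 = 226684583830276176341671808595766224526 :=
  grp_step g560 t561 (by norm_num) (by norm_num)

theorem g562 : G 1180696576 = 227088061804521619021416142201104456956 :=
  grp_step g561 t562 (by norm_num) (by norm_num)

theorem g563 : G 1182793728 = 227491595555393471743254143100368766496 :=
  grp_step g562 t563 (by norm_num) (by norm_num)

theorem g564 : G 1184890880 = 227895285227289152537308529720743613435 :=
  grp_step g563 t564 (by norm_num) (by norm_num)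

theorem g565 : G 1186988032 = 228298831654667007541440548281163422605 :=
  grp_step g564 t565 (by norm_num) (by norm_num)

theorem g566 : G 1189085184 = 228702299487707648395349675233762529215 :=
  grp_step g565 t566 (by norm_num) (by norm_num)

theorem g567 : G 1191182336 = 229106025921470735808056709334617917731 :=
  grp_step g566 t567 (by norm_num) (by norm_num)

theorem g568 : G 1193279488 = 229509481078005374379671823966438894961 :=
  grp_step g567 t568 (by norm_num) (by norm_num)

theorem g569 : G 1195376640 = 229913114973274645131632551305182088570 :=
  grp_step g568 t569 (by norm_num) (by norm_num)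

theorem g570 : G 1197473792 = 230316452238303462477913329190786769797 :=
  grp_step g569 t570 (by norm_num) (by norm_num)

theorem g571 : G 1199570944 = 230719985989175315199751340771345249565 :=
  grp_step g570 t571 (by norm_num) (by norm_num)

theorem g572 : G 1201668096 = 231123541290107371801489179171924312588 :=
  grp_step g571 t572 (by norm_num) (by norm_num)

theorem g573 : G 1203765248 = 231527217017846450085020161323254998262 :=
  grp_step g572 t573 (by norm_num) (by norm_num)

theorem g574 : G 1205862400 = 231930644286067883635588450984142112610 :=
  grp_step g573 t574 (by norm_num) (by norm_num)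

theorem g575 : G 1207959552 = 232334114654409724945956392949835831510 :=
  grp_step g574 t575 (by norm_num) (by norm_num)

theorem g576 : G 1210056704 = 232737663617088780406547229196174460764 :=
  grp_step g575 t576 (by norm_num) (by norm_num)

theorem g577 : G 1212153856 = 233141106097117416695868340851028172256 :=
  grp_step g576 t577 (by norm_num) (by norm_num)

theorem g578 : G 1214251008 = 233544767880699892468875913189967234699 :=
  grp_step g577 t578 (by norm_num) (by norm_num)

theorem g579 : G 1216348160 = 233948211628379128986426429013506690972 :=
  grp_step g578 t579 (by norm_num) (by norm_num)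

theorem g580 : G 1218445312 = 234351751717503982849411460106571123457 :=
  grp_step g579 t580 (by norm_num) (by norm_num)

theorem g581 : G 1220542464 = 234755414768737058850648437951833498733 :=
  grp_step g580 t581 (by norm_num) (by norm_num)

theorem g582 : G 1222639616 = 235159029649247326179168160165275832269 :=
  grp_step g581 t582 (by norm_num) (by norm_num)

theorem g583 : G 1224736768 = 235562522835299971597665339795405352453 :=
  grp_step g582 t583 (by norm_num) (by norm_num)

theorem g584 : G 1226833920 = 235966074333280227514714989722170958419 :=
  grp_step g583 t584 (by norm_num) (by norm_num)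

theorem g585 : G 1228931072 = 236369747525718105341787184902742665745 :=
  grp_step g584 t585 (by norm_num) (by norm_num)

theorem g586 : G 1231028224 = 236773049296530116297644742164328984100 :=
  grp_step g585 t586 (by norm_num) (by norm_num)

theorem g587 : G 1233125376 = 237176586850353769704170979605525245671 :=
  grp_step g586 t587 (by norm_num) (by norm_num)

theorem g588 : G 1235222528 = 237580204266165237489149512830050734319 :=
  grp_step g587 t588 (by norm_num) (by norm_num)

theorem g589 : G 1237319680 = 237983892670410318054974531343748111391 :=
  grp_step g588 t589 (by norm_num) (by norm_num)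

theorem g590 : G 1239416832 = 238387219794234333575420123926942139632 :=
  grp_step g589 t590 (by norm_num) (by norm_num)

theorem g591 : G 1241513984 = 238791100881370648832114172987893418598 :=
  grp_step g590 t591 (by norm_num) (by norm_num)

theorem g592 : G 1243611136 = 239194482514170474166424032704855124222 :=
  grp_step g591 t592 (by norm_num) (by norm_num)

theorem g593 : G 1245708288 = 239597689211187468005076486867812570986 :=
  grp_step g592 t593 (by norm_num) (by norm_num)

theorem g594 : G 1247805440 = 240001177326637712510656075186708864422 :=
  grp_step g593 t594 (by norm_num) (by norm_num)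

theorem g595 : G 1249902592 = 240404704739256564091347111316045892261 :=
  grp_step g594 t595 (by norm_num) (by norm_num)

theorem g596 : G 1251999744 = 240808099048562391707950991363670995307 :=
  grp_step g595 t596 (by norm_num) (by norm_num)

theorem g597 : G 1254096896 = 241211758296843667024499786080745963036 :=
  grp_step g596 t597 (by norm_num) (by norm_num)

theorem g598 : G 1256194048 = 241615169085607297608085888287640587011 :=
  grp_step g597 t598 (by norm_num) (by norm_num)

theorem g599 : G 1258291200 = 242018895519370385020792965134411090031 :=
  grp_step g598 t599 (by norm_num) (by norm_num)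

theorem g600 : G 1260388352 = 242422332928796620397196501494490623803 :=
  grp_step g599 t600 (by norm_num) (by norm_num)

theorem g601 : G 1262485504 = 242825828650150466272152508154040241919 :=
  grp_step g600 t601 (by norm_num) (by norm_num)

theorem g602 : G 1264582656 = 243229432121805331546607643583335628216 :=
  grp_step g601 t602 (by norm_num) (by norm_num)

theorem g603 : G 1266679808 = 243633083764183005493780037319002728779 :=
  grp_step g602 t603 (by norm_num) (by norm_num)

theorem g604 : G 1268776960 = 244036493285296035849136746035154454649 :=
  grp_step g603 t604 (by norm_num) (by norm_num)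

theorem g605 : G 1270874112 = 244440255213275929652267072875786249019 :=
  grp_step g604 t605 (by norm_num) (by norm_num)

theorem g606 : G 1272971264 = 244843625437220352932512337785130417966 :=
  grp_step g605 t606 (by norm_num) (by norm_num)

theorem g607 : G 1275068416 = 245247330320923236465319599831363000693 :=
  grp_step g606 t607 (by norm_num) (by norm_num)

theorem g608 : G 1277165568 = 245650876748301091469451675806427856523 :=
  grp_step g607 t608 (by norm_num) (by norm_num)

theorem g609 : G 1279262720 = 246054444725739150353483578604362030824 :=
  grp_step g608 t609 (by norm_num) (by norm_num)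

theorem g610 : G 1281359872 = 246457915094080991663851567294197146356 :=
  grp_step g609 t610 (by norm_num) (by norm_num)

theorem g611 : G 1283457024 = 246861574342362266980400380710096231591 :=
  grp_step g610 t611 (by norm_num) (by norm_num)

theorem g612 : G 1285554176 = 247265097952029317876403235039171709009 :=
  grp_step g611 t612 (by norm_num) (by norm_num)

theorem g613 : G 1287651328 = 247668649450009573793452923687815161049 :=
  grp_step g612 t613 (by norm_num) (by norm_num)

theorem g614 : G 1289748480 = 248071868823532569914399420859968649061 :=
  grp_step g613 t614 (by norm_num) (by norm_num)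

theorem g615 : G 1291845632 = 248475394968500821266861082192802110717 :=
  grp_step g614 t615 (by norm_num) (by norm_num)

theorem g616 : G 1293942784 = 248878851392686060066705662399953691912 :=
  grp_step g615 t616 (by norm_num) (by norm_num)

theorem g617 : G 1296039936 = 249282506838015534698566279331480400006 :=
  grp_step g616 t617 (by norm_num) (by norm_num)

theorem g618 : G 1298137088 = 249685975938706775780704877201722613443 :=
  grp_step g617 t618 (by norm_num) (by norm_num)

theorem g619 : G 1300234240 = 250089431095241414352320059914877322907 :=
  grp_step g618 t619 (by norm_num) (by norm_num)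

theorem g620 : G 1302331392 = 250492722724848623482342450552235566124 :=
  grp_step g619 t620 (by norm_num) (by norm_num)

theorem g621 : G 1304428544 = 250896210840298867987922074916852739942 :=
  grp_step g620 t621 (by norm_num) (by norm_num)

theorem g622 : G 1306525696 = 251299460637436269586374218745628648552 :=
  grp_step g621 t622 (by norm_num) (by norm_num)

theorem g623 : G 1308622848 = 251703050164934532350305965725726073028 :=
  grp_step g622 t623 (by norm_num) (by norm_num)

theorem g624 : G 1310720000 = 252106715751468808808001804000938749712 :=
  grp_step g623 t624 (by norm_num) (by norm_num)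

theorem g625 : G 1312817152 = 252510115131377037337523328753161435026 :=
  grp_step g624 t625 (by norm_num) (by norm_num)

theorem g626 : G 1314914304 = 252913361125562638251287273420595636775 :=
  grp_step g625 t626 (by norm_num) (by norm_num)

theorem g627 : G 1317011456 = 253316713602398658336320945366434418618 :=
  grp_step g626 t627 (by norm_num) (by norm_num)

theorem g628 : G 1319108608 = 253720055938029876595519406652335949807 :=
  grp_step g627 t628 (by norm_num) (by norm_num)

theorem g629 : G 1321205760 = 254123391935408093713570861776308553805 :=
  grp_step g628 t629 (by norm_num) (by norm_num)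

theorem g630 : G 1323302912 = 254526788780015121786633590203220266217 :=
  grp_step g629 t630 (by norm_num) (by norm_num)

theorem g631 : G 1325400064 = 254930298445525570172113053407391014662 :=
  grp_step g630 t631 (by norm_num) (by norm_num)

theorem g632 : G 1327497216 = 255333605286939982040888278049639052077 :=
  grp_step g631 t632 (by norm_num) (by norm_num)

theorem g633 : G 1329594368 = 255737142840763635447414576909790651018 :=
  grp_step g632 t633 (by norm_num) (by norm_num)

theorem g634 : G 1331691520 = 256140144178383392312904042874034805562 :=
  grp_step g633 t634 (by norm_num) (by norm_num)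

theorem g635 : G 1333788672 = 256543680464556445491200942904871067746 :=
  grp_step g634 t635 (by norm_num) (by norm_num)

theorem g636 : G 1335885824 = 256947082379765874477181285337759767662 :=
  grp_step g635 t636 (by norm_num) (by norm_num)

theorem g637 : G 1337982976 = 257350589509975122406201953553486423539 :=
  grp_step g636 t637 (by norm_num) (by norm_num)

theorem g638 : G 1340080128 = 257754168896268583344298508568991294447 :=
  grp_step g637 t638 (by norm_num) (by norm_num)

theorem g639 : G 1342177280 = 258157456722923991789632720061316600019 :=
  grp_step g638 t639 (by norm_num) (by norm_num)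

theorem g640 : G 1344274432 = 258561047518072854781793891242389603216 :=
  grp_step g639 t640 (by norm_num) (by norm_num)

theorem g641 : G 1346371584 = 258964467180390686962985861340601790008 :=
  grp_step g640 t641 (by norm_num) (by norm_num)

theorem g642 : G 1348468736 = 259367825995479708189166560802339837174 :=
  grp_step g641 t642 (by norm_num) (by norm_num)

theorem g643 : G 1350565888 = 259771272278460145163175965057437937777 :=
  grp_step g642 t643 (by norm_num) (by norm_num)

theorem g644 : G 1352663040 = 260174761661560989896985021627153323960 :=
  grp_step g643 t644 (by norm_num) (by norm_num)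

theorem g645 : G 1354760192 = 260578096391288606786807096603670821519 :=
  grp_step g644 t645 (by norm_num) (by norm_num)

theorem g646 : G 1356857344 = 260981480559389632577575831392029650959 :=
  grp_step g645 t646 (by norm_num) (by norm_num)

theorem g647 : G 1358954496 = 261384772188996841707598258057837927168 :=
  grp_step g646 t647 (by norm_num) (by norm_num)

theorem g648 : G 1361051648 = 261788236219085681876819289979384930611 :=
  grp_step g647 t648 (by norm_num) (by norm_num)

theorem g649 : G 1363148800 = 262191871382005552857009525658790840113 :=
  grp_step g648 t649 (by norm_num) (by norm_num)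

theorem g650 : G 1365245952 = 262594882860830111548334224953182994011 :=
  grp_step g649 t650 (by norm_num) (by norm_num)

theorem g651 : G 1367343104 = 262998246746521533687432542423962952541 :=
  grp_step g650 t651 (by norm_num) (by norm_num)

theorem g652 : G 1369440256 = 263401533305526341904537369763680973144 :=
  grp_step g651 t652 (by norm_num) (by norm_num)

theorem g653 : G 1371537408 = 263804803385073347154659978944711080502 :=
  grp_step g652 t653 (by norm_num) (by norm_num)

theorem g654 : G 1373634560 = 264208067126367351263635581963152199545 :=
  grp_step g653 t654 (by norm_num) (by norm_num)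

theorem g655 : G 1375731712 = 264611450026817776826174927264488012856 :=
  grp_step g654 t655 (by norm_num) (by norm_num)

theorem g656 : G 1377828864 = 265014726444617783217444547945916920323 :=
  grp_step g655 t656 (by norm_num) (by norm_num)

theorem g657 : G 1379926016 = 265418015538923791891008184955994526118 :=
  grp_step g656 t657 (by norm_num) (by norm_num)

theorem g658 : G 1382023168 = 265821502386723436168358457217510436811 :=
  grp_step g657 t658 (by norm_num) (by norm_num)

theorem g659 : G 1384120320 = 266224839651752253514639353876583278744 :=
  grp_step g658 t659 (by norm_num) (by norm_num)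

theorem g660 : G 1386217472 = 266628310020094094825007409314869626504 :=
  grp_step g659 t660 (by norm_num) (by norm_num)

theorem g661 : G 1388314624 = 267031697991146921300464368621988873237 :=
  grp_step g660 t661 (by norm_num) (by norm_num)

theorem g662 : G 1390411776 = 267435053003284141841956890277428852484 :=
  grp_step g661 t662 (by norm_num) (by norm_num)

theorem g663 : G 1392508928 = 267838224206084329290186195841676365810 :=
  grp_step g662 t663 (by norm_num) (by norm_num)

theorem g664 : G 1394606080 = 268241766830510383609630142090758579023 :=
  grp_step g663 t664 (by norm_num) (by norm_num)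

theorem g665 : G 1396703232 = 268645077474876596163093615267523769755 :=
  grp_step g664 t665 (by norm_num) (by norm_num)

theorem g666 : G 1398800384 = 269048602352194247287325943194285288872 :=
  grp_step g665 t666 (by norm_num) (by norm_num)

theorem g667 : G 1400897536 = 269451842008126847059942935068092686728 :=
  grp_step g666 t667 (by norm_num) (by norm_num)

theorem g668 : G 1402994688 = 269855360547191497043028258167599813252 :=
  grp_step g667 t668 (by norm_num) (by norm_num)

theorem g669 : G 1405091840 = 270258583723666293848663033216124432891 :=
  grp_step g668 t669 (by norm_num) (by norm_num)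

theorem g670 : G 1407188992 = 270661886762128905032750104067696454191 :=
  grp_step g669 t670 (by norm_num) (by norm_num)

theorem g671 : G 1409286144 = 271065300086193736072795106712239991996 :=
  grp_step g670 t671 (by norm_num) (by norm_num)

theorem g672 : G 1411383296 = 271468642421824954331993626718302626333 :=
  grp_step g671 t672 (by norm_num) (by norm_num)

theorem g673 : G 1413480448 = 271871852921793748855334392107624312584 :=
  grp_step g672 t673 (by norm_num) (by norm_num)

theorem g674 : G 1415577600 = 272275294134171784916426231746414774339 :=
  grp_step g673 t674 (by norm_num) (by norm_num)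

theorem g675 : G 1417674752 = 272678730275947420064600466721756448952 :=
  grp_step g674 t675 (by norm_num) (by norm_num)

theorem g676 : G 1419771904 = 273081876125735602948241759637158424830 :=
  grp_step g675 t676 (by norm_num) (by norm_num)

theorem g677 : G 1421869056 = 273484916760523966888842729424381973631 :=
  grp_step g676 t677 (by norm_num) (by norm_num)

theorem g678 : G 1423966208 = 273888468258504222805892504863287695493 :=
  grp_step g677 t678 (by norm_num) (by norm_num)

theorem g679 : G 1426063360 = 274291910738532859095213752675846607723 :=
  grp_step g678 t679 (by norm_num) (by norm_num)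

theorem g680 : G 1428160512 = 274695308850790487396505949338841383860 :=
  grp_step g679 t680 (by norm_num) (by norm_num)

theorem g681 : G 1430257664 = 275098545971421886712664156891858694432 :=
  grp_step g680 t681 (by norm_num) (by norm_num)

theorem g682 : G 1432354816 = 275502134231269549248366581158990652987 :=
  grp_step g681 t682 (by norm_num) (by norm_num)

theorem g683 : G 1434451968 = 275905427128527358606618457361777348679 :=
  grp_step g682 t683 (by norm_num) (by norm_num)

theorem g684 : G 1436549120 = 276308789746568180517487417375625048824 :=
  grp_step g683 t684 (by norm_num) (by norm_num)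

theorem g685 : G 1438646272 = 276712024331898379377186827266537221074 :=
  grp_step g684 t685 (by norm_num) (by norm_num)

theorem g686 : G 1440743424 = 277115267790782779834492048988860106411 :=
  grp_step g685 t686 (by norm_num) (by norm_num)

theorem g687 : G 1442840576 = 277518757173883624568301162965140224658 :=
  grp_step g686 t687 (by norm_num) (by norm_num)

theorem g688 : G 1444937728 = 277921871332406801746207434397511448443 :=
  grp_step g687 t688 (by norm_num) (by norm_num)

theorem g689 : G 1447034880 = 278325162962014010876229917106980941346 :=
  grp_step g688 t689 (by norm_num) (by norm_num)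

theorem g690 : G 1449132032 = 278728260641079385087153971712452353252 :=
  grp_step g689 t690 (by norm_num) (by norm_num)

theorem g691 : G 1451229184 = 279131534523578191021964836096270837479 :=
  grp_step g690 t691 (by norm_num) (by norm_num)

theorem g692 : G 1453326336 = 279534935171137019779715851774806956804 :=
  grp_step g691 t692 (by norm_num) (by norm_num)

theorem g693 : G 1455423488 = 279938292718575440777667217801667675521 :=
  grp_step g692 t693 (by norm_num) (by norm_num)

theorem g694 : G 1457520640 = 280341558995170645343101677191115165060 :=
  grp_step g693 t694 (by norm_num) (by norm_num)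

theorem g695 : G 1459617792 = 280744713718513029824348805947833740195 :=
  grp_step g694 t695 (by norm_num) (by norm_num)

theorem g696 : G 1461714944 = 281148071265951450822300175978252071818 :=
  grp_step g695 t696 (by norm_num) (by norm_num)

theorem g697 : G 1463812096 = 281551369233811661093469676860833674054 :=
  grp_step g696 t697 (by norm_num) (by norm_num)

theorem g698 : G 1465909248 = 281954610157394861094316111594296479113 :=
  grp_step g697 t698 (by norm_num) (by norm_num)

theorem g699 : G 1468006400 = 282357947422423678440597061634422494860 :=
  grp_step g698 t699 (by norm_num) (by norm_num)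

theorem g700 : G 1470103552 = 282761202290163480951966915532665654040 :=
  grp_step g699 t700 (by norm_num) (by norm_num)

theorem g701 : G 1472200704 = 283164369690011867715508067289486015245 :=
  grp_step g700 t701 (by norm_num) (by norm_num)

theorem g702 : G 1474297856 = 283567724702149088257000642328493803678 :=
  grp_step g701 t702 (by norm_num) (by norm_num)

theorem g703 : G 1476395008 = 283970868016636070684183168259772689730 :=
  grp_step g702 t703 (by norm_num) (by norm_num)

theorem g704 : G 1478492160 = 284373906116123234168325371052975154909 :=
  grp_step g703 t704 (by norm_num) (by norm_num)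

theorem g705 : G 1480589312 = 284777389160971077760987501561489456389 :=
  grp_step g704 t705 (by norm_num) (by norm_num)

theorem g706 : G 1482686464 = 285180718820096293737892051945357097722 :=
  grp_step g705 t706 (by norm_num) (by norm_num)

theorem g707 : G 1484783616 = 285584075099884114507614035157012658322 :=
  grp_step g706 t707 (by norm_num) (by norm_num)

theorem g708 : G 1486880768 = 285987142355335083241032477777412676130 :=
  grp_step g707 t708 (by norm_num) (by norm_num)

theorem g709 : G 1488977920 = 286390352855303877764373291195211162885 :=
  grp_step g708 t709 (by norm_num) (by norm_num)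

theorem g710 : G 1491075072 = 286793573496477474113549317944243252912 :=
  grp_step g709 t710 (by norm_num) (by norm_num)

theorem g711 : G 1493172224 = 287196818223012474799083974521660292280 :=
  grp_step g710 t711 (by norm_num) (by norm_num)

theorem g712 : G 1495269376 = 287600004637619864986066163447376324176 :=
  grp_step g711 t712 (by norm_num) (by norm_num)

theorem g713 : G 1497366528 = 288003246828853665215142019693577697498 :=
  grp_step g712 t713 (by norm_num) (by norm_num)

theorem g714 : G 1499463680 = 288406141683823002909361866356103863194 :=
  grp_step g713 t714 (by norm_num) (by norm_num)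

theorem g715 : G 1501560832 = 288809656419935852207759047707202606035 :=
  grp_step g714 t715 (by norm_num) (by norm_num)

theorem g716 : G 1503657984 = 289212814946230037373694408975458398165 :=
  grp_step g715 t716 (by norm_num) (by norm_num)

theorem g717 : G 1505755136 = 289616254890957473206556904514151736037 :=
  grp_step g716 t717 (by norm_num) (by norm_num)

theorem g718 : G 1507852288 = 290019424826107060426556881947944299448 :=
  grp_step g717 t718 (by norm_num) (by norm_num)

theorem g719 : G 1509949440 = 290422531378726636235086785729479793673 :=
  grp_step g718 t719 (by norm_num) (by norm_num)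

theorem g720 : G 1512046592 = 290825727934538828247904197325713698623 :=
  grp_step g719 t720 (by norm_num) (by norm_num)

theorem g721 : G 1514143744 = 291228773639929593101422831787780298250 :=
  grp_step g720 t721 (by norm_num) (by norm_num)

theorem g722 : G 1516240896 = 291632141328572815925209448516173360029 :=
  grp_step g721 t722 (by norm_num) (by norm_num)

theorem g723 : G 1518338048 = 292035235204686389451445342635509095752 :=
  grp_step g722 t723 (by norm_num) (by norm_num)

theorem g724 : G 1520435200 = 292438587681522409536479144036040385965 :=
  grp_step g723 t724 (by norm_num) (by norm_num)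

theorem g725 : G 1522532352 = 292841831140406809993784417792857249854 :=
  grp_step g724 t725 (by norm_num) (by norm_num)

theorem g726 : G 1524629504 = 293244932622423984889396724911377444385 :=
  grp_step g725 t726 (by norm_num) (by norm_num)

theorem g727 : G 1526726656 = 293648280028657604061512924316439452852 :=
  grp_step g726 t727 (by norm_num) (by norm_num)

theorem g728 : G 1528823808 = 294051680676216432819263988046108727003 :=
  grp_step g727 t728 (by norm_num) (by norm_num)

theorem g729 : G 1530920960 = 294454702296245793336424004681332951829 :=
  grp_step g728 t729 (by norm_num) (by norm_num)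

theorem g730 : G 1533018112 = 294857978714045799727693724103190397456 :=
  grp_step g729 t730 (by norm_num) (by norm_num)

theorem g731 : G 1535115264 = 295261326120279418899809928846576356543 :=
  grp_step g730 t731 (by norm_num) (by norm_num)

theorem g732 : G 1537212416 = 295664691273621441267137755921476800268 :=
  grp_step g731 t732 (by norm_num) (by norm_num)

theorem g733 : G 1539309568 = 296067771205578412282850246880530881034 :=
  grp_step g732 t733 (by norm_num) (by norm_num)

theorem g734 : G 1541406720 = 296470920858318395851179821661291924951 :=
  grp_step g733 t734 (by norm_num) (by norm_num)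

theorem g735 : G 1543503872 = 296874024875636771203250943783600040102 :=
  grp_step g734 t735 (by norm_num) (by norm_num)

theorem g736 : G 1545601024 = 297277207487292360705544960226708276971 :=
  grp_step g735 t736 (by norm_num) (by norm_num)

theorem g737 : G 1547698176 = 297680368548887746327939152507531334891 :=
  grp_step g736 t737 (by norm_num) (by norm_num)

theorem g738 : G 1549795328 = 298083619613675748154620852608220018752 :=
  grp_step g737 t738 (by norm_num) (by norm_num)

theorem g739 : G 1551892480 = 298486672924970114377515920073494805477 :=
  grp_step g738 t739 (by norm_num) (by norm_num)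

theorem g740 : G 1553989632 = 298889806098252294978863283360190507063 :=
  grp_step g739 t740 (by norm_num) (by norm_num)

theorem g741 : G 1556086784 = 299293014062919889045745336469926348824 :=
  grp_step g740 t741 (by norm_num) (by norm_num)

theorem g742 : G 1558183936 = 299696149771503270103551505424116764680 :=
  grp_step g741 t742 (by norm_num) (by norm_num)

theorem g743 : G 1560281088 = 300099258859424046368540244215862132883 :=
  grp_step g742 t743 (by norm_num) (by norm_num)

theorem g744 : G 1562378240 = 300502675986440678093273548799249728717 :=
  grp_step g743 t744 (by norm_num) (by norm_num)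

theorem g745 : G 1564475392 = 300905821836228860976914933753467385509 :=
  grp_step g744 t745 (by norm_num) (by norm_num)

theorem g746 : G 1566572544 = 301308818103246216929486943061039907059 :=
  grp_step g745 t746 (by norm_num) (by norm_num)

theorem g747 : G 1568669696 = 301712111000504026287738904664418537549 :=
  grp_step g746 t747 (by norm_num) (by norm_num)

theorem g748 : G 1570766848 = 302115259385593409627839096620332100507 :=
  grp_step g747 t748 (by norm_num) (by norm_num)

theorem g749 : G 1572864000 = 302518458476706802097115349903740248207 :=
  grp_step g748 t749 (by norm_num) (by norm_num)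

theorem g750 : G 1574961152 = 302921636017759990686491779023878036128 :=
  grp_step g749 t750 (by norm_num) (by norm_num)

theorem g751 : G 1577058304 = 303324847785379385438062049973966462750 :=
  grp_step g750 t751 (by norm_num) (by norm_num)

theorem g752 : G 1579155456 = 303728049411793978363797110259510690918 :=
  grp_step g751 t752 (by norm_num) (by norm_num)

theorem g753 : G 1581252608 = 304131155964413554172327059389238090697 :=
  grp_step g752 t753 (by norm_num) (by norm_num)

theorem g754 : G 1583349760 = 304534464073478566269331848331838425229 :=
  grp_step g753 t754 (by norm_num) (by norm_num)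

theorem g755 : G 1585446912 = 304937447663989919939609854641336757663 :=
  grp_step g754 t755 (by norm_num) (by norm_num)

theorem g756 : G 1587544064 = 305340770984862134775367464250963698303 :=
  grp_step g755 t756 (by norm_num) (by norm_num)

theorem g757 : G 1589641216 = 305744038529107939569031409200578476179 :=
  grp_step g756 t757 (by norm_num) (by norm_num)

theorem g758 : G 1591738368 = 306146991696004887761803783513064488507 :=
  grp_step g757 t758 (by norm_num) (by norm_num)

theorem g759 : G 1593835520 = 306550273184407295065991147629983368410 :=
  grp_step g758 t759 (by norm_num) (by norm_num)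

theorem g760 : G 1595932672 = 306953436781303881144844173591224994572 :=
  grp_step g759 t760 (by norm_num) (by norm_num)

theorem g761 : G 1598029824 = 307356606716453468364844208386139994085 :=
  grp_step g760 t761 (by norm_num) (by norm_num)

theorem g762 : G 1600126976 = 307759548474495014503551974532746536726 :=
  grp_step g761 t762 (by norm_num) (by norm_num)

theorem g763 : G 1602224128 = 308162879401270830708686002483815227810 :=
  grp_step g762 t763 (by norm_num) (by norm_num)

theorem g764 : G 1604321280 = 308566087365938424775568086278016780603 :=
  grp_step g763 t764 (by norm_num) (by norm_num)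

theorem g765 : G 1606418432 = 308969269977594014277862141407617631964 :=
  grp_step g764 t765 (by norm_num) (by norm_num)

theorem g766 : G 1608515584 = 309372513436478414735167469867703000255 :=
  grp_step g765 t766 (by norm_num) (by norm_num)

theorem g767 : G 1610612736 = 309775324626508137366246888188576931603 :=
  grp_step g766 t767 (by norm_num) (by norm_num)

theorem g768 : G 1612709888 = 310178518647019128922605560819545513103 :=
  grp_step g767 t768 (by norm_num) (by norm_num)

theorem g769 : G 1614807040 = 310581673370361513403852788287164992948 :=
  grp_step g768 t769 (by norm_num) (by norm_num)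

theorem g770 : G 1616904192 = 310984796402438892179364979590127559330 :=
  grp_step g769 t770 (by norm_num) (by norm_num)

theorem g771 : G 1619001344 = 311387866193191061369242309229431657286 :=
  grp_step g770 t771 (by norm_num) (by norm_num)

theorem g772 : G 1621098496 = 311790758512859198607003430210669358040 :=
  grp_step g771 t772 (by norm_num) (by norm_num)

theorem g773 : G 1623195648 = 312194008309996600205455775509824596318 :=
  grp_step g772 t773 (by norm_num) (by norm_num)

theorem g774 : G 1625292800 = 312596985562254952734586799653214056845 :=
  grp_step g773 t774 (by norm_num) (by norm_num)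

theorem g775 : G 1627389952 = 313000515510175004771736879111048105594 :=
  grp_step g774 t775 (by norm_num) (by norm_num)

theorem g776 : G 1629487104 = 313403603048035577156825836418183468118 :=
  grp_step g775 t776 (by norm_num) (by norm_num)

theorem g777 : G 1631584256 = 313806508044209716676880979063342748822 :=
  grp_step g776 t777 (by norm_num) (by norm_num)

theorem g778 : G 1633681408 = 314209666570503901842816423035776242766 :=
  grp_step g777 t778 (by norm_num) (by norm_num)

theorem g779 : G 1635778560 = 314612679316979060762370695845812626483 :=
  grp_step g778 t779 (by norm_num) (by norm_num)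

theorem g780 : G 1637875712 = 315015793475502237940277089987332088462 :=
  grp_step g779 t780 (by norm_num) (by norm_num)

theorem g781 : G 1639972864 = 315418784671917192979931539964588942936 :=
  grp_step g780 t781 (by norm_num) (by norm_num)

theorem g782 : G 1642070016 = 315821998974837788187960655272307824110 :=
  grp_step g781 t782 (by norm_num) (by norm_num)

theorem g783 : G 1644167168 = 316225026933120149846267751416006171649 :=
  grp_step g782 t783 (by norm_num) (by norm_num)

theorem g784 : G 1646264320 = 316627973761764096897893152893514995216 :=
  grp_step g783 t784 (by norm_num) (by norm_num)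

theorem g785 : G 1648361472 = 317031147499865484802581424203648455322 :=
  grp_step g784 t785 (by norm_num) (by norm_num)

theorem g786 : G 1650458624 = 317434216022967053764229372347578476903 :=
  grp_step g785 t786 (by norm_num) (by norm_num)

theorem g787 : G 1652555776 = 317837472158357456503828743826370540640 :=
  grp_step g786 t787 (by norm_num) (by norm_num)

theorem g788 : G 1654652928 = 318240487440133815879841831637255076653 :=
  grp_step g787 t788 (by norm_num) (by norm_num)

theorem g789 : G 1656750080 = 318643496383657174114707913281702135417 :=
  grp_step g788 t789 (by norm_num) (by norm_num)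

theorem g790 : G 1658847232 = 319046640965794756770119956761661618066 :=
  grp_step g789 t790 (by norm_num) (by norm_num)

theorem g791 : G 1660944384 = 319449917383594763161389757577523957437 :=
  grp_step g790 t791 (by norm_num) (by norm_num)

theorem g792 : G 1663041536 = 319853159574828563390465719226850320027 :=
  grp_step g791 t792 (by norm_num) (by norm_num)

theorem g793 : G 1665138688 = 320256167250701321397102404704847075586 :=
  grp_step g792 t793 (by norm_num) (by norm_num)

theorem g794 : G 1667235840 = 320659361271212312953461112021383906016 :=
  grp_step g793 t794 (by norm_num) (by norm_num)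

theorem g795 : G 1669332992 = 321062576841783508389719646172799961593 :=
  grp_step g794 t795 (by norm_num) (by norm_num)

theorem g796 : G 1671430144 = 321465377890608429194963891144119070957 :=
  grp_step g795 t796 (by norm_num) (by norm_num)

theorem g797 : G 1673527296 = 321868342466360779441800930954307538712 :=
  grp_step g796 t797 (by norm_num) (by norm_num)

theorem g798 : G 1675624448 = 322271428736570751598660516102825742255 :=
  grp_step g797 t798 (by norm_num) (by norm_num)

theorem g799 : G 1677721600 = 322674654448346748860754267591197905302 :=
  grp_step g798 t799 (by norm_num) (by norm_num)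

theorem g800 : G 1679818752 = 323077324929159846158370163387181441109 :=
  grp_step g799 t800 (by norm_num) (by norm_num)

theorem g801 : G 1681915904 = 323480638108827259168292621048303098629 :=
  grp_step g800 t801 (by norm_num) (by norm_num)

theorem g802 : G 1684013056 = 323883581134519405535229842023747785313 :=
  grp_step g801 t802 (by norm_num) (by norm_num)

theorem g803 : G 1686110208 = 324286628107560770616977987338535297091 :=
  grp_step g802 t803 (by norm_num) (by norm_num)

theorem g804 : G 1688207360 = 324689615501023924971944263482993948764 :=
  grp_step g803 t804 (by norm_num) (by norm_num)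

theorem g805 : G 1690304512 = 325092616838643681837433957461669384416 :=
  grp_step g804 t805 (by norm_num) (by norm_num)

theorem g806 : G 1692401664 = 325495698038251253081375947279585417421 :=
  grp_step g805 t806 (by norm_num) (by norm_num)

theorem g807 : G 1694498816 = 325898898397015245778881679439297578890 :=
  grp_step g806 t807 (by norm_num) (by norm_num)

theorem g808 : G 1696595968 = 326301671557526961563079107401251857310 :=
  grp_step g807 t808 (by norm_num) (by norm_num)

theorem g809 : G 1698693120 = 326704889663399357455796463230648656311 :=
  grp_step g808 t809 (by norm_num) (by norm_num)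

theorem g810 : G 1700790272 = 327108090022163350153302199392966108654 :=
  grp_step g809 t810 (by norm_num) (by norm_num)

theorem g811 : G 1702887424 = 327511105303939709529315317873395775953 :=
  grp_step g810 t811 (by norm_num) (by norm_num)

theorem g812 : G 1704984576 = 327914286647944698803380034202050945371 :=
  grp_step g811 t812 (by norm_num) (by norm_num)

theorem g813 : G 1707081728 = 328317381791708872557845449856884714603 :=
  grp_step g812 t813 (by norm_num) (by norm_num)

theorem g814 : G 1709178880 = 328720626518243873243380243859651208189 :=
  grp_step g813 t814 (by norm_num) (by norm_num)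

theorem g815 : G 1711276032 = 329123798988694660919839153689704824348 :=
  grp_step g814 t815 (by norm_num) (by norm_num)

theorem g816 : G 1713373184 = 329526702717218200211664946826498201829 :=
  grp_step g815 t816 (by norm_num) (by norm_num)

theorem g817 : G 1715470336 = 329929640672307945665684581799824712301 :=
  grp_step g816 t817 (by norm_num) (by norm_num)

theorem g818 : G 1717567488 = 330332757366132323300049829625520158658 :=
  grp_step g817 t818 (by norm_num) (by norm_num)

theorem g819 : G 1719664640 = 330735844903992895685138844282209157606 :=
  grp_step g818 t819 (by norm_num) (by norm_num)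

theorem g820 : G 1721761792 = 331138633276311814208089106238236349980 :=
  grp_step g819 t820 (by norm_num) (by norm_num)

theorem g821 : G 1723858944 = 331541690390557981115672487558276028146 :=
  grp_step g820 t821 (by norm_num) (by norm_num)

theorem g822 : G 1725956096 = 331944937652394182257666095234967621532 :=
  grp_step g821 t822 (by norm_num) (by norm_num)

theorem g823 : G 1728053248 = 332347870536881526798768132207059875320 :=
  grp_step g822 t823 (by norm_num) (by norm_num)

theorem g824 : G 1730150400 = 332750676656308848516930020495968333158 :=
  grp_step g823 t824 (by norm_num) (by norm_num)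

theorem g825 : G 1732247552 = 333153941665253452854135253177674358812 :=
  grp_step g824 t825 (by norm_num) (by norm_num)

theorem g826 : G 1734344704 = 333556870746788996710549089648770167567 :=
  grp_step g825 t826 (by norm_num) (by norm_num)

theorem g827 : G 1736441856 = 333959690810372920939234398437793528978 :=
  grp_step g826 t827 (by norm_num) (by norm_num)

theorem g828 : G 1738539008 = 334362716233354082141082751588528240865 :=
  grp_step g827 t828 (by norm_num) (by norm_num)

theorem g829 : G 1740636160 = 334766052230732299259134473617803674823 :=
  grp_step g828 t829 (by norm_num) (by norm_num)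

theorem g830 : G 1742733312 = 335169089062568862515047442937637672859 :=
  grp_step g829 t830 (by norm_num) (by norm_num)

theorem g831 : G 1744830464 = 335572067582477815272407944581973472547 :=
  grp_step g830 t831 (by norm_num) (by norm_num)

theorem g832 : G 1746927616 = 335975046102386768029768447559521077063 :=
  grp_step g831 t832 (by norm_num) (by norm_num)

theorem g833 : G 1749024768 = 336378383367415585376049576426833949636 :=
  grp_step g832 t833 (by norm_num) (by norm_num)

theorem g834 : G 1751121920 = 336781091877746689520547562528172907881 :=
  grp_step g833 t834 (by norm_num) (by norm_num)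

theorem g835 : G 1753219072 = 337184083074161644560202084507952763797 :=
  grp_step g834 t835 (by norm_num) (by norm_num)

theorem g836 : G 1755316224 = 337587237797504029041449401348282662180 :=
  grp_step g835 t836 (by norm_num) (by norm_num)

theorem g837 : G 1757413376 = 337990201105605779060057092990009775632 :=
  grp_step g836 t837 (by norm_num) (by norm_num)

theorem g838 : G 1759510528 = 338392981872021096213630969933420316396 :=
  grp_step g837 t838 (by norm_num) (by norm_num)

theorem g839 : G 1761607680 = 338796075748134669739867018764786524021 :=
  grp_step g838 t839 (by norm_num) (by norm_num)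

theorem g840 : G 1763704832 = 339199319207019070197172445956784904424 :=
  grp_step g839 t840 (by norm_num) (by norm_num)

theorem g841 : G 1765801984 = 339602274909217218846403733930356716514 :=
  grp_step g840 t841 (by norm_num) (by norm_num)

theorem g842 : G 1767899136 = 340005456253222208120468490279457059828 :=
  grp_step g841 t842 (by norm_num) (by norm_num)

theorem g843 : G 1769996288 = 340408296599215736000824244397080350789 :=
  grp_step g842 t843 (by norm_num) (by norm_num)

theorem g844 : G 1772093440 = 340811220610148878944320498864115193230 :=
  grp_step g843 t844 (by norm_num) (by norm_num)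

theorem g845 : G 1774190592 = 341214336036322656350456381202309644512 :=
  grp_step g844 t845 (by norm_num) (by norm_num)

theorem g846 : G 1776287744 = 341617348782797815270010743353410400529 :=
  grp_step g845 t846 (by norm_num) (by norm_num)

theorem g847 : G 1778384896 = 342020484491381196327817052363201216797 :=
  grp_step g846 t847 (by norm_num) (by norm_num)

theorem g848 : G 1780482048 = 342423350190386728772760843150827252330 :=
  grp_step g847 t848 (by norm_num) (by norm_num)

theorem g849 : G 1782579200 = 342826466884211106407126132324239542941 :=
  grp_step g848 t849 (by norm_num) (by norm_num)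

theorem g850 : G 1784676352 = 343229512589601871260644938816685145258 :=
  grp_step g849 t850 (by norm_num) (by norm_num)

theorem g851 : G 1786773504 = 343632432797583213519452998115333049244 :=
  grp_step g850 t851 (by norm_num) (by norm_num)

theorem g852 : G 1788870656 = 344035249058215337063450135724457783556 :=
  grp_step g851 t852 (by norm_num) (by norm_num)

theorem g853 : G 1790967808 = 344438173069148480006946402190317551359 :=
  grp_step g852 t853 (by norm_num) (by norm_num)

theorem g854 : G 1793064960 = 344841130038997228884407108996898201948 :=
  grp_step g853 t854 (by norm_num) (by norm_num)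

theorem g855 : G 1795162112 = 345244146588424188488649687650022770938 :=
  grp_step g854 t855 (by norm_num) (by norm_num)

theorem g856 : G 1797259264 = 345646926087188905413994187081475862733 :=
  grp_step g855 t856 (by norm_num) (by norm_num)

theorem g857 : G 1799356416 = 346049951510170066615842578903557878652 :=
  grp_step g856 t857 (by norm_num) (by norm_num)

theorem g858 : G 1801453568 = 346452961721344025078938154055886960595 :=
  grp_step g857 t858 (by norm_num) (by norm_num)

theorem g859 : G 1803550720 = 346855983341373385596098344044431445783 :=
  grp_step g858 t859 (by norm_num) (by norm_num)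

theorem g860 : G 1805647872 = 347258710866463493164037387293829961919 :=
  grp_step g859 t860 (by norm_num) (by norm_num)

theorem g861 : G 1807745024 = 347661657695107440215662891430531521462 :=
  grp_step g860 t861 (by norm_num) (by norm_num)

theorem g862 : G 1809842176 = 348064576635438182246241563893366008859 :=
  grp_step g861 t862 (by norm_num) (by norm_num)

theorem g863 : G 1811939328 = 348467869532695991604493680285308918595 :=
  grp_step g862 t863 (by norm_num) (by norm_num)

theorem g864 : G 1814036480 = 348870645228508907845149985877444224869 :=
  grp_step g863 t864 (by norm_num) (by norm_num)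

theorem g865 : G 1816133632 = 349273603466008256950840108850159592193 :=
  grp_step g864 t865 (by norm_num) (by norm_num)

theorem g866 : G 1818230784 = 349676450150254785972342901126290860845 :=
  grp_step g865 t866 (by norm_num) (by norm_num)

theorem g867 : G 1820327936 = 350079650509018778669848713331061146308 :=
  grp_step g866 t867 (by norm_num) (by norm_num)

theorem g868 : G 1822425088 = 350482869882541774790795549374686120262 :=
  grp_step g867 t868 (by norm_num) (by norm_num)

theorem g869 : G 1824522240 = 350885621492993286695093233123232965285 :=
  grp_step g868 t869 (by norm_num) (by norm_num)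

theorem g870 : G 1826619392 = 351288641845372046984024036279567321210 :=
  grp_step g869 t870 (by norm_num) (by norm_num)

theorem g871 : G 1828716544 = 351691565856305189927520326742087220991 :=
  grp_step g870 t871 (by norm_num) (by norm_num)

theorem g872 : G 1830813696 = 352094603955792353411662753570444297506 :=
  grp_step g871 t872 (by norm_num) (by norm_num)

theorem g873 : G 1832910848 = 352497472190099086313065380683598765641 :=
  grp_step g872 t873 (by norm_num) (by norm_num)

theorem g874 : G 1835008000 = 352900282112478208715915540112156414714 :=
  grp_step g873 t874 (by norm_num) (by norm_num)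

theorem g875 : G 1837105152 = 353303089499556130662306897872779823725 :=
  grp_step g874 t875 (by norm_num) (by norm_num)

theorem g876 : G 1839202304 = 353706098443079488897173095526444599211 :=
  grp_step g875 t876 (by norm_num) (by norm_num)

theorem g877 : G 1841299456 = 354109024989313832297128196988763702264 :=
  grp_step g876 t877 (by norm_num) (by norm_num)

theorem g878 : G 1843396608 = 354511768993861742832049483728484412445 :=
  grp_step g877 t878 (by norm_num) (by norm_num)

theorem g879 : G 1845493760 = 354914743710818894904721844872185764378 :=
  grp_step g878 t879 (by norm_num) (by norm_num)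

theorem g880 : G 1847590912 = 355317547294945016166425004795614464592 :=
  grp_step g879 t880 (by norm_num) (by norm_num)

theorem g881 : G 1849688064 = 355720471305878159109921308589997006049 :=
  grp_step g880 t881 (by norm_num) (by norm_num)

theorem g882 : G 1851785216 = 356123622226268742906480482290205929965 :=
  grp_step g881 t882 (by norm_num) (by norm_num)

theorem g883 : G 1853882368 = 356526515813587480372471152741155378042 :=
  grp_step g882 t883 (by norm_num) (by norm_num)

theorem g884 : G 1855979520 = 356929330806569003688238931499510263471 :=
  grp_step g883 t884 (by norm_num) (by norm_num)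

theorem g885 : G 1858076672 = 357332128052442123808795090584638516760 :=
  grp_step g884 t885 (by norm_num) (by norm_num)

theorem g886 : G 1860173824 = 357735147137170283869496513576405564260 :=
  grp_step g885 t886 (by norm_num) (by norm_num)

theorem g887 : G 1862270976 = 358138168757199644386656740902364339466 :=
  grp_step g886 t887 (by norm_num) (by norm_num)

theorem g888 : G 1864368128 = 358540898817590952411054624463236547018 :=
  grp_step g887 t888 (by norm_num) (by norm_num)

theorem g889 : G 1866465280 = 358944066217439339174596027006106938293 :=
  grp_step g888 t889 (by norm_num) (by norm_num)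

theorem g890 : G 1868562432 = 359346968678312278238192517291648651587 :=
  grp_step g889 t890 (by norm_num) (by norm_num)

theorem g891 : G 1870659584 = 359749915506956225289818061425788441914 :=
  grp_step g890 t891 (by norm_num) (by norm_num)

theorem g892 : G 1872756736 = 360152831911985766863937970882293694211 :=
  grp_step g891 t892 (by norm_num) (by norm_num)

theorem g893 : G 1874853888 = 360555909308641537423191872229474255887 :=
  grp_step g892 t893 (by norm_num) (by norm_num)

theorem g894 : G 1876951040 = 360958818107767477627935375349651863908 :=
  grp_step g893 t894 (by norm_num) (by norm_num)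

theorem g895 : G 1879048192 = 361361468306170971273880973708861107525 :=
  grp_step g894 t895 (by norm_num) (by norm_num)

theorem g896 : G 1881145344 = 361764431614272721292488744014786095419 :=
  grp_step g895 t896 (by norm_num) (by norm_num)

theorem g897 : G 1883242496 = 362167133786350824295839806557789255213 :=
  grp_step g896 t897 (by norm_num) (by norm_num)

theorem g898 : G 1885339648 = 362570127518066979791953215541723495781 :=
  grp_step g897 t898 (by norm_num) (by norm_num)

theorem g899 : G 1887436800 = 362973130123337336885672436362512850574 :=
  grp_step g898 t899 (by norm_num) (by norm_num)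

theorem g900 : G 1889533952 = 363375874127885247420593752418879199171 :=
  grp_step g899 t900 (by norm_num) (by norm_num)

theorem g901 : G 1891631104 = 363778946453938617066930058433095701395 :=
  grp_step g900 t901 (by norm_num) (by norm_num)

theorem g902 : G 1893728256 = 364181502846197693823899955082076465596 :=
  grp_step g901 t902 (by norm_num) (by norm_num)

theorem g903 : G 1895825408 = 364584397701167031518120053694559854076 :=
  grp_step g902 t903 (by norm_num) (by norm_num)

theorem g904 : G 1897922560 = 364987250723666561680769904123749193099 :=
  grp_step g903 t904 (by norm_num) (by norm_num)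

theorem g905 : G 1900019712 = 365390139240382898233842997899793643018 :=
  grp_step g904 t905 (by norm_num) (by norm_num)

theorem g906 : G 1902116864 = 365793174804568861261526667067825722145 :=
  grp_step g905 t906 (by norm_num) (by norm_num)

theorem g907 : G 1904214016 = 366195970782791381153853453973163216831 :=
  grp_step g906 t907 (by norm_num) (by norm_num)

theorem g908 : G 1906311168 = 366598879581917321358596975756520723352 :=
  grp_step g907 t908 (by norm_num) (by norm_num)

theorem g909 : G 1908408320 = 367001815001705866356157930384339732126 :=
  grp_step g908 t909 (by norm_num) (by norm_num)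

theorem g910 : G 1910505472 = 367404732674386008158507265337929588988 :=
  grp_step g909 t910 (by norm_num) (by norm_num)

theorem g911 : G 1912602624 = 367807356252126897011635453502404385490 :=
  grp_step g910 t911 (by norm_num) (by norm_num)

theorem g912 : G 1914699776 = 368210195330469824663761898089402850954 :=
  grp_step g911 t912 (by norm_num) (by norm_num)

theorem g913 : G 1916796928 = 368613180188631778562269516570784838009 :=
  grp_step g912 t913 (by norm_num) (by norm_num)

theorem g914 : G 1918894080 = 369016138426131127667959704874121612367 :=
  grp_step g913 t914 (by norm_num) (by norm_num)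

theorem g915 : G 1920991232 = 369419127087244882251155530523892503675 :=
  grp_step g914 t915 (by norm_num) (by norm_num)

theorem g916 : G 1923088384 = 369821563052696937326332303268675345861 :=
  grp_step g915 t916 (by norm_num) (by norm_num)

theorem g917 : G 1925185536 = 370224362833871257903347308002852666904 :=
  grp_step g916 t917 (by norm_num) (by norm_num)

theorem g918 : G 1927282688 = 370627100500166167297121640542502787158 :=
  grp_step g917 t918 (by norm_num) (by norm_num)

theorem g919 : G 1929379840 = 371030068878870318228647047516922746356 :=
  grp_step g918 t919 (by norm_num) (by norm_num)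

theorem g920 : G 1931476992 = 371432745697936416667410110694600372616 :=
  grp_step g919 t920 (by norm_num) (by norm_num)

theorem g921 : G 1933574144 = 371835683653026162121429884321833272834 :=
  grp_step g920 t921 (by norm_num) (by norm_num)

theorem g922 : G 1935671296 = 372238629214019508944826068285416548594 :=
  grp_step g921 t922 (by norm_num) (by norm_num)

theorem g923 : G 1937768448 = 372641615339832063071563101601258113602 :=
  grp_step g922 t923 (by norm_num) (by norm_num)

theorem g924 : G 1939865600 = 373044166661488738915615421551035151325 :=
  grp_step g923 t924 (by norm_num) (by norm_num)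

theorem g925 : G 1941962752 = 373447135040192889847140836525171415093 :=
  grp_step g924 t925 (by norm_num) (by norm_num)

theorem g926 : G 1944059904 = 373850069192330834616472412316717679592 :=
  grp_step g925 t926 (by norm_num) (by norm_num)

theorem g927 : G 1946157056 = 374252797985071542412640946345013137105 :=
  grp_step g926 t927 (by norm_num) (by norm_num)

theorem g928 : G 1948254208 = 374655544524920653404021102714331954202 :=
  grp_step g927 t928 (by norm_num) (by norm_num)

theorem g929 : G 1950351360 = 375058324023685370329365699431820219343 :=
  grp_step g928 t929 (by norm_num) (by norm_num)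

theorem g930 : G 1952448512 = 375461248034618513272862068551318231896 :=
  grp_step g929 t930 (by norm_num) (by norm_num)

theorem g931 : G 1954545664 = 375864393884406696156503701610377795932 :=
  grp_step g930 t931 (by norm_num) (by norm_num)

theorem g932 : G 1956642816 = 376266995912087381129732092239898047639 :=
  grp_step g931 t932 (by norm_num) (by norm_num)

theorem g933 : G 1958739968 = 376669557374948858799619636181545286484 :=
  grp_step g932 t933 (by norm_num) (by norm_num)

theorem g934 : G 1960837120 = 377072524486002409502915661654642090311 :=
  grp_step g933 t934 (by norm_num) (by norm_num)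

theorem g935 : G 1962934272 = 377475189896213105887614131312228132336 :=
  grp_step g934 t935 (by norm_num) (by norm_num)

theorem g936 : G 1965031424 = 377877955450821220302435320851562151772 :=
  grp_step g935 t936 (by norm_num) (by norm_num)

theorem g937 : G 1967128576 = 378280573957959708242645937649687056902 :=
  grp_step g936 t937 (by norm_num) (by norm_num)

theorem g938 : G 1969225728 = 378683572760278264651677005972143526816 :=
  grp_step g937 t938 (by norm_num) (by norm_num)

theorem g939 : G 1971322880 = 379086209014525155787099246443872521084 :=
  grp_step g938 t939 (by norm_num) (by norm_num)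

theorem g940 : G 1973420032 = 379489102601843893253089992879374958233 :=
  grp_step g939 t940 (by norm_num) (by norm_num)

theorem g941 : G 1975517184 = 379891968300849425698033907633679009822 :=
  grp_step g940 t941 (by norm_num) (by norm_num)

theorem g942 : G 1977614336 = 380294719911300937602331688661869808265 :=
  grp_step g941 t942 (by norm_num) (by norm_num)

theorem g943 : G 1979711488 = 380697339686090025770771714953836168176 :=
  grp_step g942 t943 (by norm_num) (by norm_num)

theorem g944 : G 1981808640 = 381100188905637755248733414198589897968 :=
  grp_step g943 t944 (by norm_num) (by norm_num)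

theorem g945 : G 1983905792 = 381502899951270059849690351202975516845 :=
  grp_step g944 t945 (by norm_num) (by norm_num)

theorem g946 : G 1986002944 = 381905652829372171982217539062067610445 :=
  grp_step g945 t946 (by norm_num) (by norm_num)

theorem g947 : G 1988100096 = 382308460216450093928608992782686568960 :=
  grp_step g946 t947 (by norm_num) (by norm_num)

theorem g948 : G 1990197248 = 382711401974491640067317006908599105901 :=
  grp_step g947 t948 (by norm_num) (by norm_num)

theorem g949 : G 1992294400 = 383114043299340932115656866705133462617 :=
  grp_step g948 t949 (by norm_num) (by norm_num)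

theorem g950 : G 1994391552 = 383516741668467234434319795364917964430 :=
  grp_step g949 t950 (by norm_num) (by norm_num)

theorem g951 : G 1996488704 = 383919677088255779431880805986960484280 :=
  grp_step g950 t951 (by norm_num) (by norm_num)

theorem g952 : G 1998585856 = 384322416022201289053884585334081915237 :=
  grp_step g951 t952 (by norm_num) (by norm_num)

theorem g953 : G 2000683008 = 384725165097351600501723578019429251966 :=
  grp_step g952 t953 (by norm_num) (by norm_num)

theorem g954 : G 2002780160 = 385128065022923339108861350621271543066 :=
  grp_step g953 t954 (by norm_num) (by norm_num)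

theorem g955 : G 2004877312 = 385530701277170230244283612408477977546 :=
  grp_step g954 t955 (by norm_num) (by norm_num)

theorem g956 : G 2006974464 = 385933135974971685091231036914316136349 :=
  grp_step g955 t956 (by norm_num) (by norm_num)

theorem g957 : G 2009071616 = 386335904064880999962511057440909592913 :=
  grp_step g956 t957 (by norm_num) (by norm_num)

theorem g958 : G 2011168768 = 386738909205452557512689159935100873682 :=
  grp_step g957 t958 (by norm_num) (by norm_num)

theorem g959 : G 2013265920 = 387141570812711453212699457065515443254 :=
  grp_step g958 t959 (by norm_num) (by norm_num)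

theorem g960 : G 2015363072 = 387544141149127132480192847475754199504 :=
  grp_step g959 t960 (by norm_num) (by norm_num)

theorem g961 : G 2017460224 = 387946739373856016768733072233988057870 :=
  grp_step g960 t961 (by norm_num) (by norm_num)

theorem g962 : G 2019557376 = 388349697611355365874423324534530528538 :=
  grp_step g961 t962 (by norm_num) (by norm_num)

theorem g963 : G 2021654528 = 388752401051084069106003876518948722827 :=
  grp_step g962 t963 (by norm_num) (by norm_num)

theorem g964 : G 2023751680 = 389155139985029578728007671856858649630 :=
  grp_step g963 t964 (by norm_num) (by norm_num)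

theorem g965 : G 2025848832 = 389557862439517285383029249017614327364 :=
  grp_step g964 t965 (by norm_num) (by norm_num)

theorem g966 : G 2027945984 = 389960757294486623077249431613605898818 :=
  grp_step g965 t966 (by norm_num) (by norm_num)

theorem g967 : G 2030043136 = 390363292136685495954319589326594589246 :=
  grp_step g966 t967 (by norm_num) (by norm_num)

theorem g968 : G 2032140288 = 390765982899908196903606132965211961585 :=
  grp_step g967 t968 (by norm_num) (by norm_num)

theorem g969 : G 2034237440 = 391168797892889720219374025011816277422 :=
  grp_step g968 t969 (by norm_num) (by norm_num)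

theorem g970 : G 2036334592 = 391571295973221186477791543197827307193 :=
  grp_step g969 t970 (by norm_num) (by norm_num)

theorem g971 : G 2038431744 = 391973962651082483090719462319296966823 :=
  grp_step g970 t971 (by norm_num) (by norm_num)

theorem g972 : G 2040528896 = 392376387207679136111831696123441068818 :=
  grp_step g971 t972 (by norm_num) (by norm_num)

theorem g973 : G 2042626048 = 392779445589575903247644681651953757725 :=
  grp_step g972 t973 (by norm_num) (by norm_num)

theorem g974 : G 2044723200 = 393182036208401186166808514722564731823 :=
  grp_step g973 t974 (by norm_num) (by norm_num)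

theorem g975 : G 2046820352 = 393584815707165903092153172743707944126 :=
  grp_step g974 t975 (by norm_num) (by norm_num)

theorem g976 : G 2048917504 = 393987514076292205410816136046261208489 :=
  grp_step g975 t976 (by norm_num) (by norm_num)

theorem g977 : G 2051014656 = 394390201036563105675414487174250084935 :=
  grp_step g976 t977 (by norm_num) (by norm_num)

theorem g978 : G 2053111808 = 394792983070629023057217952195079457378 :=
  grp_step g977 t978 (by norm_num) (by norm_num)

theorem g979 : G 2055208960 = 395195734681080534961515782528921040321 :=
  grp_step g978 t979 (by norm_num) (by norm_num)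

theorem g980 : G 2057306112 = 395598536997556055994989674228403549972 :=
  grp_step g979 t980 (by norm_num) (by norm_num)

theorem g981 : G 2059403264 = 396001237901983558770111447194745377353 :=
  grp_step g980 t981 (by norm_num) (by norm_num)

theorem g982 : G 2061500416 = 396404159377615501257149082636843749248 :=
  grp_step g981 t982 (by norm_num) (by norm_num)

theorem g983 : G 2063597568 = 396806814646621395816012404238035768589 :=
  grp_step g982 t983 (by norm_num) (by norm_num)

theorem g984 : G 2065694720 = 397209691754482330315020989817543167225 :=
  grp_step g983 t984 (by norm_num) (by norm_num)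

theorem g985 : G 2067791872 = 397612445900235042675777631148928790278 :=
  grp_step g984 t985 (by norm_num) (by norm_num)

theorem g986 : G 2069889024 = 398014997221891718519830033678142749951 :=
  grp_step g985 t986 (by norm_num) (by norm_num)

theorem g987 : G 2071986176 = 398417604320174804405976103576594825240 :=
  grp_step g986 t987 (by norm_num) (by norm_num)

theorem g988 : G 2074083328 = 398820292548096304898803870861402419837 :=
  grp_step g987 t988 (by norm_num) (by norm_num)

theorem g989 : G 2076180480 = 399222889505174588959114731417165223108 :=
  grp_step g988 t989 (by norm_num) (by norm_num)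

theorem g990 : G 2078277632 = 399625584071349090593089508871194490946 :=
  grp_step g989 t990 (by norm_num) (by norm_num)

theorem g991 : G 2080374784 = 400028312864089798389258128180775518525 :=
  grp_step g990 t991 (by norm_num) (by norm_num)

theorem g992 : G 2082471936 = 400430911088818682677798394233566136709 :=
  grp_step g991 t992 (by norm_num) (by norm_num)

theorem g993 : G 2084569088 = 400833419310354950762051155056958110664 :=
  grp_step g992 t993 (by norm_num) (by norm_num)

theorem g994 : G 2086666240 = 401236094861770448972584915327627215339 :=
  grp_step g993 t994 (by norm_num) (by norm_num)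

theorem g995 : G 2088763392 = 401638476318246694233897528726664967934 :=
  grp_step g994 t995 (by norm_num) (by norm_num)

theorem g996 : G 2090860544 = 402041051725264774414308573091879861970 :=
  grp_step g995 t996 (by norm_num) (by norm_num)

theorem g997 : G 2092957696 = 402443546002644439988037922732484392890 :=
  grp_step g996 t997 (by norm_num) (by norm_num)

theorem g998 : G 2095054848 = 402846690584782022643450243662163990839 :=
  grp_step g997 t998 (by norm_num) (by norm_num)

theorem g999 : G 2097152000 = 403249125282583477490397725424223811304 :=
  grp_step g998 t999 (by norm_num) (by norm_num)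

theorem g1000 : G 2099249152 = 403651923796107197839183439275994585682 :=
  grp_step g999 t1000 (by norm_num) (by norm_num)

theorem g1001 : G 2101346304 = 404054684280112911341087109433706428970 :=
  grp_step g1000 t1001 (by norm_num) (by norm_num)

theorem g1002 : G 2103443456 = 404457310393155000650674221827350812262 :=
  grp_step g1001 t1002 (by norm_num) (by norm_num)

theorem g1003 : G 2105540608 = 404859884532522480602855874015917743651 :=
  grp_step g1002 t1003 (by norm_num) (by norm_num)

theorem g1004 : G 2107637760 = 405262740090323211221964660740125074734 :=
  grp_step g1003 t1004 (by norm_num) (by norm_num)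

theorem g1005 : G 2109734912 = 405665245776558278849758634543070472159 :=
  grp_step g1004 t1005 (by norm_num) (by norm_num)

theorem g1006 : G 2111832064 = 406068183731648024303778521493253799051 :=
  grp_step g1005 t1006 (by norm_num) (by norm_num)

theorem g1007 : G 2113929216 = 406470676741377089649278482950454413294 :=
  grp_step g1006 t1007 (by norm_num) (by norm_num)

theorem g1008 : G 2116026368 = 406873376378153992196170890391476241858 :=
  grp_step g1007 t1008 (by norm_num) (by norm_num)

theorem g1009 : G 2118123520 = 407275925164509467583764520553250087003 :=
  grp_step g1008 t1009 (by norm_num) (by norm_num)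

theorem g1010 : G 2120220672 = 407678741425141591127761868745758674501 :=
  grp_step g1009 t1010 (by norm_num) (by norm_num)

theorem g1011 : G 2122317824 = 408081333311617474275155152603661403608 :=
  grp_step g1010 t1011 (by norm_num) (by norm_num)

theorem g1012 : G 2124414976 = 408483999989478770888083126349740340726 :=
  grp_step g1011 t1012 (by norm_num) (by norm_num)

theorem g1013 : G 2126512128 = 408886344684087609530743120185671753312 :=
  grp_step g1012 t1013 (by norm_num) (by norm_num)

theorem g1014 : G 2128609280 = 409289286442129155669451222304222265289 :=
  grp_step g1013 t1014 (by norm_num) (by norm_num)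

theorem g1015 : G 2130706432 = 409691863116797836078091693478684831288 :=
  grp_step g1014 t1015 (by norm_num) (by norm_num)

theorem g1016 : G 2132803584 = 410094390353093107585785507447574806008 :=
  grp_step g1015 t1016 (by norm_num) (by norm_num)

theorem g1017 : G 2134900736 = 410497107736978413327889547893783767388 :=
  grp_step g1016 t1017 (by norm_num) (by norm_num)

theorem g1018 : G 2136997888 = 410899723708815700811641469594421315094 :=
  grp_step g1017 t1018 (by norm_num) (by norm_num)

theorem g1019 : G 2139095040 = 411302520954688820932197807267351594785 :=
  grp_step g1018 t1019 (by norm_num) (by norm_num)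

theorem g1020 : G 2141192192 = 411705322003513741737442350776063742783 :=
  grp_step g1019 t1020 (by norm_num) (by norm_num)

theorem g1021 : G 2143289344 = 412107993751977439263287942516668333059 :=
  grp_step g1020 t1021 (by norm_num) (by norm_num)

theorem g1022 : G 2145386496 = 412510523523573911227440567478521927227 :=
  grp_step g1021 t1022 (by norm_num) (by norm_num)

theorem g1023 : G 2147483648 = 412913076112881187299722420789962089603 :=
  grp_step g1022 t1023 (by norm_num) (by norm_num)

theorem g1024 : G 2149580800 = 413316015335621532981971733238876578898 :=
  grp_step g1023 t1024 (by norm_num) (by norm_num)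

theorem g1025 : G 2151677952 = 413718471583483191708819075138080864048 :=
  grp_step g1024 t1025 (by norm_num) (by norm_num)

theorem g1026 : G 2153775104 = 414120974734417058880154273906412071615 :=
  grp_step g1025 t1026 (by norm_num) (by norm_num)

theorem g1027 : G 2155872256 = 414523694653603565078717130679615860853 :=
  grp_step g1026 t1027 (by norm_num) (by norm_num)

theorem g1028 : G 2157969408 = 414926249778212041607457793652780546515 :=
  grp_step g1027 t1028 (by norm_num) (by norm_num)

theorem g1029 : G 2160066560 = 415328886032458932742880154023453086861 :=
  grp_step g1028 t1029 (by norm_num) (by norm_num)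

theorem g1030 : G 2162163712 = 415731466510079413836208849681057699899 :=
  grp_step g1029 t1030 (by norm_num) (by norm_num)

theorem g1031 : G 2164260864 = 416134341082639147878758694909595368283 :=
  grp_step g1030 t1031 (by norm_num) (by norm_num)

theorem g1032 : G 2166358016 = 416537022972307647230439513314144210689 :=
  grp_step g1031 t1032 (by norm_num) (by norm_num)

theorem g1033 : G 2168455168 = 416939688382518343615138113537606965496 :=
  grp_step g1032 t1033 (by norm_num) (by norm_num)

theorem g1034 : G 2170552320 = 417342382948692845249112949617484596380 :=
  grp_step g1033 t1034 (by norm_num) (by norm_num)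

theorem g1035 : G 2172649472 = 417745019202939736384535317981385432108 :=
  grp_step g1034 t1035 (by norm_num) (by norm_num)

theorem g1036 : G 2174746624 = 418147504606765200360658909052755049951 :=
  grp_step g1035 t1036 (by norm_num) (by norm_num)

theorem g1037 : G 2176843776 = 418550038181313473009499758495564796116 :=
  grp_step g1036 t1037 (by norm_num) (by norm_num)

theorem g1038 : G 2178940928 = 418952948248090013442472855085088988048 :=
  grp_step g1037 t1038 (by norm_num) (by norm_num)

theorem g1039 : G 2181038080 = 419355867188420755473051763515345623437 :=
  grp_step g1038 t1039 (by norm_num) (by norm_num)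

theorem g1040 : G 2183135232 = 419758194135921190920500172279906640835 :=
  grp_step g1039 t1040 (by norm_num) (by norm_num)

theorem g1041 : G 2185232384 = 420160786022397074067893496099731036816 :=
  grp_step g1040 t1041 (by norm_num) (by norm_num)

theorem g1042 : G 2187329536 = 420563483123872776158327145840848542770 :=
  grp_step g1041 t1042 (by norm_num) (by norm_num)

theorem g1043 : G 2189426688 = 420966205578360482813348826936062387816 :=
  grp_step g1042 t1043 (by norm_num) (by norm_num)

theorem g1044 : G 2191523840 = 421368820282547170068871381771448655125 :=
  grp_step g1043 t1044 (by norm_num) (by norm_num)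

theorem g1045 : G 2193620992 = 421771429916131456411476331934684885584 :=
  grp_step g1044 t1045 (by norm_num) (by norm_num)

theorem g1046 : G 2195718144 = 422173933067065323582811557338497914115 :=
  grp_step g1045 t1046 (by norm_num) (by norm_num)

theorem g1047 : G 2197815296 = 422576258746915158802030573920319994932 :=
  grp_step g1046 t1047 (by norm_num) (by norm_num)

theorem g1048 : G 2199912448 = 422978840492186240123588695055896194489 :=
  grp_step g1047 t1048 (by norm_num) (by norm_num)

theorem g1049 : G 2202009600 = 423381428575710322586293825028912677825 :=
  grp_step g1048 t1049 (by norm_num) (by norm_num)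

theorem g1050 : G 2204106752 = 423784115535981222850892273420583463153 :=
  grp_step g1049 t1050 (by norm_num) (by norm_num)

theorem g1051 : G 2206203904 = 424186696013601703944220997051431413439 :=
  grp_step g1050 t1051 (by norm_num) (by norm_num)

theorem g1052 : G 2208301056 = 424588837884114506070176802627213439479 :=
  grp_step g1051 t1052 (by norm_num) (by norm_num)

theorem g1053 : G 2210398208 = 424991627524084024821356776606681758998 :=
  grp_step g1052 t1053 (by norm_num) (by norm_num)

theorem g1054 : G 2212495360 = 425394221945861108425208920745704365793 :=
  grp_step g1053 t1054 (by norm_num) (by norm_num)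

theorem g1055 : G 2214592512 = 425796911441433209146266178801505822619 :=
  grp_step g1054 t1055 (by norm_num) (by norm_num)

theorem g1056 : G 2216689664 = 426199655445981119681187702738620874840 :=
  grp_step g1055 t1056 (by norm_num) (by norm_num)

theorem g1057 : G 2218786816 = 426602101552637976582199875240388199028 :=
  grp_step g1056 t1057 (by norm_num) (by norm_num)

theorem g1058 : G 2220883968 = 427004384132367404041619255426470063435 :=
  grp_step g1057 t1058 (by norm_num) (by norm_num)

theorem g1059 : G 2222981120 = 427406978554144487645471406225604327972 :=
  grp_step g1058 t1059 (by norm_num) (by norm_num)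

theorem g1060 : G 2225078272 = 427809514663993960750771089303973816875 :=
  grp_step g1059 t1060 (by norm_num) (by norm_num)

theorem g1061 : G 2227175424 = 428212052041494034084300175215237534145 :=
  grp_step g1060 t1061 (by norm_num) (by norm_num)

theorem g1062 : G 2229272576 = 428614588151343507189599860957054288280 :=
  grp_step g1061 t1062 (by norm_num) (by norm_num)

theorem g1063 : G 2231369728 = 429017248490951802661380895144802721573 :=
  grp_step g1062 t1063 (by norm_num) (by norm_num)

theorem g1064 : G 2233466880 = 429419851786283087862838863112558704099 :=
  grp_step g1063 t1064 (by norm_num) (by norm_num)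

theorem g1065 : G 2235564032 = 429822523534746785388684513475902368097 :=
  grp_step g1064 t1065 (by norm_num) (by norm_num)

theorem g1066 : G 2237661184 = 430224936682488036355732258931696401909 :=
  grp_step g1065 t1066 (by norm_num) (by norm_num)

theorem g1067 : G 2239758336 = 430627352365530487779238808721117766191 :=
  grp_step g1066 t1067 (by norm_num) (by norm_num)

theorem g1068 : G 2241855488 = 431029863122367956319950472430849201492 :=
  grp_step g1067 t1068 (by norm_num) (by norm_num)

theorem g1069 : G 2243952640 = 431432301623121211851586251904502885104 :=
  grp_step g1068 t1069 (by norm_num) (by norm_num)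

theorem g1070 : G 2246049792 = 431835016471705317137231559970135328166 :=
  grp_step g1069 t1070 (by norm_num) (by norm_num)

theorem g1071 : G 2248146944 = 432237477790169376776996569128496045194 :=
  grp_step g1070 t1071 (by norm_num) (by norm_num)

theorem g1072 : G 2250244096 = 432640229400620888681294523393432514035 :=
  grp_step g1071 t1072 (by norm_num) (by norm_num)

theorem g1073 : G 2252341248 = 433042828893000373198064298846294847830 :=
  grp_step g1072 t1073 (by norm_num) (by norm_num)

theorem g1074 : G 2254438400 = 433445538670982077570792006236605405752 :=
  grp_step g1073 t1074 (by norm_num) (by norm_num)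

theorem g1075 : G 2256535552 = 433848035483662943600980262755447369988 :=
  grp_step g1074 t1075 (by norm_num) (by norm_num)

theorem g1076 : G 2258632704 = 434250548775801612598150740121959348261 :=
  grp_step g1075 t1076 (by norm_num) (by norm_num)

theorem g1077 : G 2260729856 = 434652911217518854436022440174658297275 :=
  grp_step g1076 t1077 (by norm_num) (by norm_num)

theorem g1078 : G 2262827008 = 435055547471765745571444865823540945979 :=
  grp_step g1077 t1078 (by norm_num) (by norm_num)

theorem g1079 : G 2264924160 = 435457828783844572802634872460346240021 :=
  grp_step g1078 t1079 (by norm_num) (by norm_num)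

theorem g1080 : G 2267021312 = 435860506870561271469627550314551076102 :=
  grp_step g1079 t1080 (by norm_num) (by norm_num)

theorem g1081 : G 2269118464 = 436263253410410382461007910568239306113 :=
  grp_step g1080 t1081 (by norm_num) (by norm_num)

theorem g1082 : G 2271215616 = 436665953047187285007900416608391657739 :=
  grp_step g1081 t1082 (by norm_num) (by norm_num)

theorem g1083 : G 2273312768 = 437068354786073133920883571188007189920 :=
  grp_step g1082 t1083 (by norm_num) (by norm_num)

theorem g1084 : G 2275409920 = 437470444682911326689433957790557516083 :=
  grp_step g1083 t1084 (by norm_num) (by norm_num)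

theorem g1085 : G 2277507072 = 437873195025712238365502527877959506869 :=
  grp_step g1084 t1085 (by norm_num) (by norm_num)

theorem g1086 : G 2279604224 = 438275985933332357344911947338387386893 :=
  grp_step g1085 t1086 (by norm_num) (by norm_num)

theorem g1087 : G 2281701376 = 438678629793482849849710793984941848805 :=
  grp_step g1086 t1087 (by norm_num) (by norm_num)

theorem g1088 : G 2283798528 = 439081042941224100816758568732768671501 :=
  grp_step g1087 t1088 (by norm_num) (by norm_num)

theorem g1089 : G 2285895680 = 439483761592760006787092106618693435488 :=
  grp_step g1088 t1089 (by norm_num) (by norm_num)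

theorem g1090 : G 2287992832 = 439886225446525266883315944080738537740 :=
  grp_step g1089 t1090 (by norm_num) (by norm_num)

theorem g1091 : G 2290089984 = 440288643664868918763281328827967770966 :=
  grp_step g1090 t1091 (by norm_num) (by norm_num)

theorem g1092 : G 2292187136 = 440691130336344982967634395976547134700 :=
  grp_step g1091 t1092 (by norm_num) (by norm_num)

theorem g1093 : G 2294284288 = 441093504186917626859570730841702455467 :=
  grp_step g1092 t1093 (by norm_num) (by norm_num)

theorem g1094 : G 2296381440 = 441496187344236726439481033354110814356 :=
  grp_step g1093 t1094 (by norm_num) (by norm_num)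

theorem g1095 : G 2298478592 = 441898728524688600457698369053687017069 :=
  grp_step g1094 t1095 (by norm_num) (by norm_num)

theorem g1096 : G 2300575744 = 442301132798875649827140343944090690372 :=
  grp_step g1095 t1096 (by norm_num) (by norm_num)

theorem g1097 : G 2302672896 = 442703658767520321106604864291268801389 :=
  grp_step g1096 t1097 (by norm_num) (by norm_num)

theorem g1098 : G 2304770048 = 443106207553875796494198612994029959298 :=
  grp_step g1097 t1098 (by norm_num) (by norm_num)

theorem g1099 : G 2306867200 = 443508757607881872110021764530164003514 :=
  grp_step g1098 t1099 (by norm_num) (by norm_num)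

theorem g1100 : G 2308964352 = 443911292450080744987092099382626805030 :=
  grp_step g1099 t1100 (by norm_num) (by norm_num)

theorem g1101 : G 2311061504 = 444313752500894204398627746988971559775 :=
  grp_step g1100 t1101 (by norm_num) (by norm_num)

theorem g1102 : G 2313158656 = 444716240440020868831210228955835212698 :=
  grp_step g1101 t1102 (by norm_num) (by norm_num)

theorem g1103 : G 2315255808 = 445118869088364158597256278902539638484 :=
  grp_step g1102 t1103 (by norm_num) (by norm_num)

theorem g1104 : G 2317352960 = 445521273362551207966698264444706215887 :=
  grp_step g1103 t1104 (by norm_num) (by norm_num)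

theorem g1105 : G 2319450112 = 445923595239449242501229153731091204301 :=
  grp_step g1104 t1105 (by norm_num) (by norm_num)

theorem g1106 : G 2321547264 = 446326189661226326105081367137921386060 :=
  grp_step g1105 t1106 (by norm_num) (by norm_num)

theorem g1107 : G 2323644416 = 446728664923846988255369840749636096385 :=
  grp_step g1106 t1107 (by norm_num) (by norm_num)

theorem g1108 : G 2325741568 = 447131217513154264327651807276016515455 :=
  grp_step g1107 t1108 (by norm_num) (by norm_num)

theorem g1109 : G 2327838720 = 447533495022281290874153649339787863066 :=
  grp_step g1108 t1109 (by norm_num) (by norm_num)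

theorem g1110 : G 2329935872 = 447935944931889948459854096919290767261 :=
  grp_step g1109 t1110 (by norm_num) (by norm_num)

theorem g1111 : G 2332033024 = 448338347938426397601066690280098315699 :=
  grp_step g1110 t1111 (by norm_num) (by norm_num)

theorem g1112 : G 2334130176 = 448741007010384092844618388249152018045 :=
  grp_step g1111 t1112 (by norm_num) (by norm_num)

theorem g1113 : G 2336227328 = 449143393537462739018848764755094731942 :=
  grp_step g1112 t1113 (by norm_num) (by norm_num)

theorem g1114 : G 2338324480 = 449545946126770015091130739272828750896 :=
  grp_step g1113 t1114 (by norm_num) (by norm_num)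

theorem g1115 : G 2340421632 = 449948593789872308280617827726373355497 :=
  grp_step g1114 t1115 (by norm_num) (by norm_num)

theorem g1116 : G 2342518784 = 450350980316950954454848208226750178624 :=
  grp_step g1115 t1116 (by norm_num) (by norm_num)

theorem g1117 : G 2344615936 = 450753393464692205421896021587853574852 :=
  grp_step g1116 t1117 (by norm_num) (by norm_num)

theorem g1118 : G 2346713088 = 451155790132975653421961616761966541531 :=
  grp_step g1117 t1118 (by norm_num) (by norm_num)

theorem g1119 : G 2348810240 = 451558091727464084304822100662631343845 :=
  grp_step g1118 t1119 (by norm_num) (by norm_num)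

theorem g1120 : G 2350907392 = 451960645584421960605333484673278394028 :=
  grp_step g1119 t1120 (by norm_num) (by norm_num)

theorem g1121 : G 2353004544 = 452363021970295804953728659819182966585 :=
  grp_step g1120 t1121 (by norm_num) (by norm_num)

theorem g1122 : G 2355101696 = 452765303282374632184918723690671451275 :=
  grp_step g1121 t1122 (by norm_num) (by norm_num)

theorem gz2 : G 2355625984 = 452865808960213727353016763294351259708 :=
  grp_step g1122 t1125 (by norm_num) (by norm_num)

theorem gx2 : G 2355723586 = 452884605683313911538582226269371455004 :=
  win_step gz2 y2 (by norm_num) (by norm_num) (by norm_num)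

theorem Qp0 : Q 2274652151 886 = 1409633805706792235612556415612597465 :=
  Q_step (Q_start 2274652151) (by norm_num) p0 (by norm_num) (by norm_num)

theorem Qp1 : Q 2274652151 934 = 2753807402068398933161168320815039551 :=
  Q_step Qp0 (by norm_num) p1 (by norm_num) (by norm_num)

theorem Qp2 : Q 2274652151 982 = 4155861924836426585182169856040644549 :=
  Q_step Qp1 (by norm_num) p2 (by norm_num) (by norm_num)

theorem Qp3 : Q 2274652151 1030 = 5602468027949475359518811193545917372 :=
  Q_step Qp2 (by norm_num) p3 (by norm_num) (by norm_num)

theorem Qp4 : Q 2274652151 1070 = 6883536709781120569231461126849150367 :=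
  Q_step Qp3 (by norm_num) p4 (by norm_num) (by norm_num)

theorem Qp5 : Q 2274652151 1134 = 8312630219852016354386410641169627739 :=
  Q_step Qp4 (by norm_num) p5 (by norm_num) (by norm_num)

theorem Qp6 : Q 2274652151 1190 = 9869103600486845770950866374412995446 :=
  Q_step Qp5 (by norm_num) p6 (by norm_num) (by norm_num)

theorem Qp7 : Q 2274652151 1262 = 11450440679994551678996300704336055525 :=
  Q_step Qp6 (by norm_num) p7 (by norm_num) (by norm_num)

theorem Qp8 : Q 2274652151 1334 = 12941125529778736446081824999817331974 :=
  Q_step Qp7 (by norm_num) p8 (by norm_num) (by norm_num)

theorem Qp9 : Q 2274652151 1390 = 14454216103921955167838823288376048322 :=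
  Q_step Qp8 (by norm_num) p9 (by norm_num) (by norm_num)

theorem Qp10 : Q 2274652151 1462 = 15901753930226171690785567755211253542 :=
  Q_step Qp9 (by norm_num) p10 (by norm_num) (by norm_num)

theorem Qp11 : Q 2274652151 1558 = 17502617899579793244531675708331321889 :=
  Q_step Qp10 (by norm_num) p11 (by norm_num) (by norm_num)

theorem Qp12 : Q 2274652151 1654 = 19083540457341224521562822704808852487 :=
  Q_step Qp11 (by norm_num) p12 (by norm_num) (by norm_num)

theorem Qp13 : Q 2274652151 1742 = 20587605359210818249981158620672574499 :=
  Q_step Qp12 (by norm_num) p13 (by norm_num) (by norm_num)

theorem Qp14 : Q 2274652151 1830 = 22150291495437366218842359820606194255 :=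
  Q_step Qp13 (by norm_num) p14 (by norm_num) (by norm_num)

theorem Qp15 : Q 2274652151 1934 = 23700560994034678680715891634433854146 :=
  Q_step Qp14 (by norm_num) p15 (by norm_num) (by norm_num)

theorem Qp16 : Q 2274652151 2046 = 25289391156240333652753585762832089574 :=
  Q_step Qp15 (by norm_num) p16 (by norm_num) (by norm_num)

theorem Qp17 : Q 2274652151 2166 = 26853367760777913959145515680495480758 :=
  Q_step Qp16 (by norm_num) p17 (by norm_num) (by norm_num)

theorem Qp18 : Q 2274652151 2294 = 28387233860608273132563669741089865055 :=
  Q_step Qp17 (by norm_num) p18 (by norm_num) (by norm_num)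

theorem Qp19 : Q 2274652151 2438 = 29990241427126880622227720059213072271 :=
  Q_step Qp18 (by norm_num) p19 (by norm_num) (by norm_num)

theorem Qp20 : Q 2274652151 2566 = 31555303140578256292987337009159955847 :=
  Q_step Qp19 (by norm_num) p20 (by norm_num) (by norm_num)

theorem Qp21 : Q 2274652151 2718 = 32993707544307828423096302455185391296 :=
  Q_step Qp20 (by norm_num) p21 (by norm_num) (by norm_num)

theorem Qp22 : Q 2274652151 2870 = 34574480519298432769058087509913393788 :=
  Q_step Qp21 (by norm_num) p22 (by norm_num) (by norm_num)

theorem Qp23 : Q 2274652151 3038 = 36114512471648302050285137233118568287 :=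
  Q_step Qp22 (by norm_num) p23 (by norm_num) (by norm_num)

theorem Qp24 : Q 2274652151 3198 = 37688397033277266197679189799430209619 :=
  Q_step Qp23 (by norm_num) p24 (by norm_num) (by norm_num)

theorem Qp25 : Q 2274652151 3406 = 39249256484988885287972856135626883904 :=
  Q_step Qp24 (by norm_num) p25 (by norm_num) (by norm_num)

theorem Qp26 : Q 2274652151 3606 = 40795383301424651896162318392382910929 :=
  Q_step Qp25 (by norm_num) p26 (by norm_num) (by norm_num)

theorem Qp27 : Q 2274652151 3814 = 42316891075553386061145294484842744353 :=
  Q_step Qp26 (by norm_num) p27 (by norm_num) (by norm_num)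

theorem Qp28 : Q 2274652151 4054 = 43879900462682992228503913334630320066 :=
  Q_step Qp27 (by norm_num) p28 (by norm_num) (by norm_num)

theorem Qp29 : Q 2274652151 4310 = 45410277988061523314609181012027271345 :=
  Q_step Qp28 (by norm_num) p29 (by norm_num) (by norm_num)

theorem Qp30 : Q 2274652151 4550 = 46938333177540436284450910484446397986 :=
  Q_step Qp29 (by norm_num) p30 (by norm_num) (by norm_num)

theorem Qp31 : Q 2274652151 4814 = 48484208999157357703218903172505058101 :=
  Q_step Qp30 (by norm_num) p31 (by norm_num) (by norm_num)

theorem Qp32 : Q 2274652151 5094 = 50016277570436593247345789589921303574 :=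
  Q_step Qp31 (by norm_num) p32 (by norm_num) (by norm_num)

theorem Qp33 : Q 2274652151 5422 = 51526581848560510320878367632109131858 :=
  Q_step Qp32 (by norm_num) p33 (by norm_num) (by norm_num)

theorem Qp34 : Q 2274652151 5750 = 53028949366276398450128176870992801221 :=
  Q_step Qp33 (by norm_num) p34 (by norm_num) (by norm_num)

theorem Qp35 : Q 2274652151 6118 = 54517524845461803443489700385868278486 :=
  Q_step Qp34 (by norm_num) p35 (by norm_num) (by norm_num)

theorem Qp36 : Q 2274652151 6454 = 55937208585127205081797430354839040639 :=
  Q_step Qp35 (by norm_num) p36 (by norm_num) (by norm_num)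

theorem Qp37 : Q 2274652151 6846 = 57395412423581741926928488368996856385 :=
  Q_step Qp36 (by norm_num) p37 (by norm_num) (by norm_num)

theorem Qp38 : Q 2274652151 7270 = 58794370075933412014521754015375863176 :=
  Q_step Qp37 (by norm_num) p38 (by norm_num) (by norm_num)

theorem Qp39 : Q 2274652151 7678 = 60212513620119536354106706233576921334 :=
  Q_step Qp38 (by norm_num) p39 (by norm_num) (by norm_num)

theorem Qp40 : Q 2274652151 8126 = 61598390385927451342505946253704773306 :=
  Q_step Qp39 (by norm_num) p40 (by norm_num) (by norm_num)

theorem Qp41 : Q 2274652151 8654 = 62967659661221776297516180632673120633 :=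
  Q_step Qp40 (by norm_num) p41 (by norm_num) (by norm_num)

theorem Qp42 : Q 2274652151 9150 = 64314876886674530973857976917838042598 :=
  Q_step Qp41 (by norm_num) p42 (by norm_num) (by norm_num)

theorem Qp43 : Q 2274652151 9734 = 65607820919329114236604060471767302513 :=
  Q_step Qp42 (by norm_num) p43 (by norm_num) (by norm_num)

theorem Qp44 : Q 2274652151 10326 = 66897594557832526697617021924947316383 :=
  Q_step Qp43 (by norm_num) p44 (by norm_num) (by norm_num)

theorem Qp45 : Q 2274652151 10934 = 68143101837375969387929699769249711285 :=
  Q_step Qp44 (by norm_num) p45 (by norm_num) (by norm_num)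

theorem Qp46 : Q 2274652151 11598 = 69358319873477558764923012428115529701 :=
  Q_step Qp45 (by norm_num) p46 (by norm_num) (by norm_num)

theorem Qp47 : Q 2274652151 12326 = 70531647127844006073114451514205413367 :=
  Q_step Qp46 (by norm_num) p47 (by norm_num) (by norm_num)

theorem Qp48 : Q 2274652151 13102 = 71653156628624924048060885974966131656 :=
  Q_step Qp47 (by norm_num) p48 (by norm_num) (by norm_num)

theorem Qp49 : Q 2274652151 13926 = 72730417517554275447518663930312880651 :=
  Q_step Qp48 (by norm_num) p49 (by norm_num) (by norm_num)

theorem Qp50 : Q 2274652151 14814 = 73740714763526570628842339073967656995 :=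
  Q_step Qp49 (by norm_num) p50 (by norm_num) (by norm_num)

theorem Qp51 : Q 2274652151 15798 = 74684215696421039718312909911686500418 :=
  Q_step Qp50 (by norm_num) p51 (by norm_num) (by norm_num)

theorem Qp52 : Q 2274652151 16806 = 75551609422579006370976369619238631431 :=
  Q_step Qp51 (by norm_num) p52 (by norm_num) (by norm_num)

theorem Qp53 : Q 2274652151 17950 = 76325251513295893861793259903310390689 :=
  Q_step Qp52 (by norm_num) p53 (by norm_num) (by norm_num)

theorem Qp54 : Q 2274652151 19182 = 76992585889376441578541734487625193665 :=
  Q_step Qp53 (by norm_num) p54 (by norm_num) (by norm_num)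

theorem Qp55 : Q 2274652151 20582 = 77523074847861151474939682690560445063 :=
  Q_step Qp54 (by norm_num) p55 (by norm_num) (by norm_num)

theorem Qp56 : Q 2274652151 22094 = 77888426962654129927204438310493691349 :=
  Q_step Qp55 (by norm_num) p56 (by norm_num) (by norm_num)

theorem Qp57 : Q 2274652151 23854 = 78021610137665908392814114068350886580 :=
  Q_step Qp56 (by norm_num) p57 (by norm_num) (by norm_num)

theorem Qq0 : Q 4711447171 854 = 766596488680818991803683378298138200 :=
  Q_step (Q_start 4711447171) (by norm_num) q0 (by norm_num) (by norm_num)

theorem Qq1 : Q 4711447171 870 = 1774917467367358363491000721496373797 :=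
  Q_step Qq0 (by norm_num) q1 (by norm_num) (by norm_num)

theorem Qq2 : Q 4711447171 886 = 2767965791622348027349058482426040076 :=
  Q_step Qq1 (by norm_num) q2 (by norm_num) (by norm_num)

theorem Qq3 : Q 4711447171 910 = 4225581440198378974039056766714116612 :=
  Q_step Qq2 (by norm_num) q3 (by norm_num) (by norm_num)

theorem Qq4 : Q 4711447171 934 = 5406870807984859791102105069347242283 :=
  Q_step Qq3 (by norm_num) q4 (by norm_num) (by norm_num)

theorem Qq5 : Q 4711447171 950 = 6569293731888143869982644073286476061 :=
  Q_step Qq4 (by norm_num) q5 (by norm_num) (by norm_num)

theorem Qq6 : Q 4711447171 974 = 7709645591190854246753684504240349866 :=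
  Q_step Qq5 (by norm_num) q6 (by norm_num) (by norm_num)

theorem Qq7 : Q 4711447171 998 = 9042695553535458231305386211731725359 :=
  Q_step Qq6 (by norm_num) q7 (by norm_num) (by norm_num)

theorem Qq8 : Q 4711447171 1014 = 10352878366702545185683448070736519187 :=
  Q_step Qq7 (by norm_num) q8 (by norm_num) (by norm_num)

theorem Qq9 : Q 4711447171 1038 = 11424324542328649696877209586033058591 :=
  Q_step Qq8 (by norm_num) q9 (by norm_num) (by norm_num)

theorem Qq10 : Q 4711447171 1062 = 12894841071063203334186262829111454784 :=
  Q_step Qq9 (by norm_num) q10 (by norm_num) (by norm_num)

theorem Qq11 : Q 4711447171 1086 = 14335192586114726024657246897097220167 :=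
  Q_step Qq10 (by norm_num) q11 (by norm_num) (by norm_num)

theorem Qq12 : Q 4711447171 1118 = 15336907837523476092933353174747405311 :=
  Q_step Qq11 (by norm_num) q12 (by norm_num) (by norm_num)

theorem Qq13 : Q 4711447171 1134 = 16320829077456822505100618362917145306 :=
  Q_step Qq12 (by norm_num) q13 (by norm_num) (by norm_num)

theorem Qq14 : Q 4711447171 1150 = 17484323166117299437825424675900767107 :=
  Q_step Qq13 (by norm_num) q14 (by norm_num) (by norm_num)

theorem Qq15 : Q 4711447171 1182 = 19003163803383153408149020598423007589 :=
  Q_step Qq14 (by norm_num) q15 (by norm_num) (by norm_num)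

theorem Qq16 : Q 4711447171 1206 = 20490986298112022833247337924970335370 :=
  Q_step Qq15 (by norm_num) q16 (by norm_num) (by norm_num)

theorem Qq17 : Q 4711447171 1238 = 21946477364282071267460424482087880914 :=
  Q_step Qq16 (by norm_num) q17 (by norm_num) (by norm_num)

theorem Qq18 : Q 4711447171 1278 = 23358256034804449667221621732378303743 :=
  Q_step Qq17 (by norm_num) q18 (by norm_num) (by norm_num)

theorem Qq19 : Q 4711447171 1326 = 24901744870341141330027962911289186177 :=
  Q_step Qq18 (by norm_num) q19 (by norm_num) (by norm_num)

theorem Qq20 : Q 4711447171 1342 = 25907959013730101384449988674442867430 :=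
  Q_step Qq19 (by norm_num) q20 (by norm_num) (by norm_num)

theorem Qq21 : Q 4711447171 1358 = 27069211896129374807592944570725654701 :=
  Q_step Qq20 (by norm_num) q21 (by norm_num) (by norm_num)

theorem Qq22 : Q 4711447171 1390 = 28375836414061621122040999503522551966 :=
  Q_step Qq21 (by norm_num) q22 (by norm_num) (by norm_num)

theorem Qq23 : Q 4711447171 1422 = 29813354730021633719799633739540296450 :=
  Q_step Qq22 (by norm_num) q23 (by norm_num) (by norm_num)

theorem Qq24 : Q 4711447171 1462 = 31217382984774216725000066647387183889 :=
  Q_step Qq23 (by norm_num) q24 (by norm_num) (by norm_num)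

theorem Qq25 : Q 4711447171 1502 = 32586292247298076862861372361752698376 :=
  Q_step Qq24 (by norm_num) q25 (by norm_num) (by norm_num)

theorem Qq26 : Q 4711447171 1542 = 34069135410469249802870603148708803395 :=
  Q_step Qq25 (by norm_num) q26 (by norm_num) (by norm_num)

theorem Qq27 : Q 4711447171 1590 = 35224835983239523581234995189988391902 :=
  Q_step Qq26 (by norm_num) q27 (by norm_num) (by norm_num)

theorem Qq28 : Q 4711447171 1622 = 36356617256834090899022502948126840296 :=
  Q_step Qq27 (by norm_num) q28 (by norm_num) (by norm_num)

theorem Qq29 : Q 4711447171 1662 = 37876521452953536353813957768369829375 :=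
  Q_step Qq28 (by norm_num) q29 (by norm_num) (by norm_num)

theorem Qq30 : Q 4711447171 1702 = 39230468635442902700049372459567057663 :=
  Q_step Qq29 (by norm_num) q30 (by norm_num) (by norm_num)

theorem Qq31 : Q 4711447171 1750 = 40681133755777882264930954092552043092 :=
  Q_step Qq30 (by norm_num) q31 (by norm_num) (by norm_num)

theorem Qq32 : Q 4711447171 1790 = 42099808445565502232636308201205042451 :=
  Q_step Qq31 (by norm_num) q32 (by norm_num) (by norm_num)

theorem Qq33 : Q 4711447171 1830 = 43490147341486220588529956367718466593 :=
  Q_step Qq32 (by norm_num) q33 (by norm_num) (by norm_num)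

theorem Qq34 : Q 4711447171 1878 = 44850317420772107312897331023438706448 :=
  Q_step Qq33 (by norm_num) q34 (by norm_num) (by norm_num)

theorem Qq35 : Q 4711447171 1926 = 46297514249064862442136413227599810015 :=
  Q_step Qq34 (by norm_num) q35 (by norm_num) (by norm_num)

theorem Qq36 : Q 4711447171 1966 = 47711635537896462609831585301189237150 :=
  Q_step Qq35 (by norm_num) q36 (by norm_num) (by norm_num)

theorem Qq37 : Q 4711447171 2022 = 48979289941076492696018763304233424937 :=
  Q_step Qq36 (by norm_num) q37 (by norm_num) (by norm_num)

theorem Qq38 : Q 4711447171 2078 = 50553784242644166621756373512539743686 :=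
  Q_step Qq37 (by norm_num) q38 (by norm_num) (by norm_num)

theorem Qq39 : Q 4711447171 2134 = 52086659039705147319783970208034854063 :=
  Q_step Qq38 (by norm_num) q39 (by norm_num) (by norm_num)

theorem Qq40 : Q 4711447171 2198 = 53476360307373950876288666650672219040 :=
  Q_step Qq39 (by norm_num) q40 (by norm_num) (by norm_num)

theorem Qq41 : Q 4711447171 2254 = 54829583661370586903535829156822815395 :=
  Q_step Qq40 (by norm_num) q41 (by norm_num) (by norm_num)

theorem Qq42 : Q 4711447171 2318 = 56152875249394633978154799089099915088 :=
  Q_step Qq41 (by norm_num) q42 (by norm_num) (by norm_num)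

theorem Qq43 : Q 4711447171 2374 = 57643301498456372186443803202042984945 :=
  Q_step Qq42 (by norm_num) q43 (by norm_num) (by norm_num)

theorem Qq44 : Q 4711447171 2454 = 59189629871337575083109511444236976013 :=
  Q_step Qq43 (by norm_num) q44 (by norm_num) (by norm_num)

theorem Qq45 : Q 4711447171 2502 = 60601849684268832906702440002517333602 :=
  Q_step Qq44 (by norm_num) q45 (by norm_num) (by norm_num)

theorem Qq46 : Q 4711447171 2582 = 62167602267297332962487320021065657623 :=
  Q_step Qq45 (by norm_num) q46 (by norm_num) (by norm_num)

theorem Qq47 : Q 4711447171 2654 = 63599771097724382432171640193147211477 :=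
  Q_step Qq46 (by norm_num) q47 (by norm_num) (by norm_num)

theorem Qq48 : Q 4711447171 2734 = 65166064967559179941910962521655040435 :=
  Q_step Qq47 (by norm_num) q48 (by norm_num) (by norm_num)

theorem Qq49 : Q 4711447171 2814 = 66695135545168875723504669416116441427 :=
  Q_step Qq48 (by norm_num) q49 (by norm_num) (by norm_num)

theorem Qq50 : Q 4711447171 2886 = 68185091495857929258685725572120397271 :=
  Q_step Qq49 (by norm_num) q50 (by norm_num) (by norm_num)

theorem Qq51 : Q 4711447171 2950 = 69719535644361992504712389375947693458 :=
  Q_step Qq50 (by norm_num) q51 (by norm_num) (by norm_num)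

theorem Qq52 : Q 4711447171 3054 = 71289244564913804864459354470823267310 :=
  Q_step Qq51 (by norm_num) q52 (by norm_num) (by norm_num)

theorem Qq53 : Q 4711447171 3134 = 72664950969956088768371514278898518177 :=
  Q_step Qq52 (by norm_num) q53 (by norm_num) (by norm_num)

theorem Qq54 : Q 4711447171 3206 = 74160585995334164771271290205901030809 :=
  Q_step Qq53 (by norm_num) q54 (by norm_num) (by norm_num)

theorem Qq55 : Q 4711447171 3318 = 75687142821803607973961832985989810094 :=
  Q_step Qq54 (by norm_num) q55 (by norm_num) (by norm_num)

theorem Qq56 : Q 4711447171 3406 = 77171859572561918237026501566744731827 :=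
  Q_step Qq55 (by norm_num) q56 (by norm_num) (by norm_num)

theorem Qq57 : Q 4711447171 3494 = 78688211811699524193034980498335020968 :=
  Q_step Qq56 (by norm_num) q57 (by norm_num) (by norm_num)

theorem Qq58 : Q 4711447171 3606 = 80232263484102717189695615636258076194 :=
  Q_step Qq57 (by norm_num) q58 (by norm_num) (by norm_num)

theorem Qq59 : Q 4711447171 3734 = 81794754402136830011230457471070825860 :=
  Q_step Qq58 (by norm_num) q59 (by norm_num) (by norm_num)

theorem Qq60 : Q 4711447171 3822 = 83377200675919735620003700465768153174 :=
  Q_step Qq59 (by norm_num) q60 (by norm_num) (by norm_num)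

theorem Qq61 : Q 4711447171 3934 = 84797760362149894964829114591617774590 :=
  Q_step Qq60 (by norm_num) q61 (by norm_num) (by norm_num)

theorem Qq62 : Q 4711447171 4054 = 86358382763199271376226155494337957680 :=
  Q_step Qq61 (by norm_num) q62 (by norm_num) (by norm_num)

theorem Qq63 : Q 4711447171 4174 = 87874535981192641500218613249584385916 :=
  Q_step Qq62 (by norm_num) q63 (by norm_num) (by norm_num)

theorem Qq64 : Q 4711447171 4310 = 89404021080548611912826639125409984499 :=
  Q_step Qq63 (by norm_num) q64 (by norm_num) (by norm_num)

theorem Qq65 : Q 4711447171 4414 = 90893824913165638060479545297833822233 :=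
  Q_step Qq64 (by norm_num) q65 (by norm_num) (by norm_num)

theorem Qq66 : Q 4711447171 4550 = 92453123886988376200381433862005083089 :=
  Q_step Qq65 (by norm_num) q66 (by norm_num) (by norm_num)

theorem Qq67 : Q 4711447171 4678 = 94019543254232596304831545076441138322 :=
  Q_step Qq66 (by norm_num) q67 (by norm_num) (by norm_num)

theorem Qq68 : Q 4711447171 4814 = 95545264698956489104346534252275315168 :=
  Q_step Qq67 (by norm_num) q68 (by norm_num) (by norm_num)

theorem Qq69 : Q 4711447171 4950 = 97127411807197740850981051399588415592 :=
  Q_step Qq68 (by norm_num) q69 (by norm_num) (by norm_num)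

theorem Qq70 : Q 4711447171 5110 = 98710755577605608046170586713717397774 :=
  Q_step Qq69 (by norm_num) q70 (by norm_num) (by norm_num)

theorem Qq71 : Q 4711447171 5262 = 100249736647607888125225267665629792994 :=
  Q_step Qq70 (by norm_num) q71 (by norm_num) (by norm_num)

theorem Qq72 : Q 4711447171 5430 = 101788140936587064359902272377703573853 :=
  Q_step Qq71 (by norm_num) q72 (by norm_num) (by norm_num)

theorem Qq73 : Q 4711447171 5606 = 103367033985737530241663160016503403638 :=
  Q_step Qq72 (by norm_num) q73 (by norm_num) (by norm_num)

theorem Qq74 : Q 4711447171 5790 = 104939384690140218231482916275422093244 :=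
  Q_step Qq73 (by norm_num) q74 (by norm_num) (by norm_num)

theorem Qq75 : Q 4711447171 5966 = 106421567407348672263974052644492482252 :=
  Q_step Qq74 (by norm_num) q75 (by norm_num) (by norm_num)

theorem Qq76 : Q 4711447171 6134 = 107903482650280478140061477972821334539 :=
  Q_step Qq75 (by norm_num) q76 (by norm_num) (by norm_num)

theorem Qq77 : Q 4711447171 6302 = 109421532273571789695238639640548696009 :=
  Q_step Qq76 (by norm_num) q77 (by norm_num) (by norm_num)

theorem Qq78 : Q 4711447171 6486 = 110898922003860780792362726131807116108 :=
  Q_step Qq77 (by norm_num) q78 (by norm_num) (by norm_num)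

theorem Qq79 : Q 4711447171 6686 = 112444951211200329826889790435200564780 :=
  Q_step Qq78 (by norm_num) q79 (by norm_num) (by norm_num)

theorem Qq80 : Q 4711447171 6894 = 114012657243803781584182496596072585544 :=
  Q_step Qq79 (by norm_num) q80 (by norm_num) (by norm_num)

theorem Qq81 : Q 4711447171 7134 = 115566831106249796992614208661280851743 :=
  Q_step Qq80 (by norm_num) q81 (by norm_num) (by norm_num)

theorem Qq82 : Q 4711447171 7358 = 117101243563488854532905960353524449209 :=
  Q_step Qq81 (by norm_num) q82 (by norm_num) (by norm_num)

theorem Qq83 : Q 4711447171 7574 = 118654471758587099682204169995770536920 :=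
  Q_step Qq82 (by norm_num) q83 (by norm_num) (by norm_num)

theorem Qq84 : Q 4711447171 7798 = 120191662905941857501344023848986100660 :=
  Q_step Qq83 (by norm_num) q84 (by norm_num) (by norm_num)

theorem Qq85 : Q 4711447171 8030 = 121652853329210532054946409235376181016 :=
  Q_step Qq84 (by norm_num) q85 (by norm_num) (by norm_num)

theorem Qq86 : Q 4711447171 8286 = 123186061518379372777306774658766701970 :=
  Q_step Qq85 (by norm_num) q86 (by norm_num) (by norm_num)

theorem Qq87 : Q 4711447171 8558 = 124723848461516237864265367950670248740 :=
  Q_step Qq86 (by norm_num) q87 (by norm_num) (by norm_num)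

theorem Qq88 : Q 4711447171 8822 = 126238618672704758989980954245864616023 :=
  Q_step Qq87 (by norm_num) q88 (by norm_num) (by norm_num)

theorem Qq89 : Q 4711447171 9094 = 127729839738692840298104902173397671095 :=
  Q_step Qq88 (by norm_num) q89 (by norm_num) (by norm_num)

theorem Qq90 : Q 4711447171 9390 = 129251717666796841106074720285223656515 :=
  Q_step Qq89 (by norm_num) q90 (by norm_num) (by norm_num)

theorem Qq91 : Q 4711447171 9718 = 130763881588351292992140865989557991036 :=
  Q_step Qq90 (by norm_num) q91 (by norm_num) (by norm_num)

theorem Qq92 : Q 4711447171 10022 = 132272312278888072742619611495724745210 :=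
  Q_step Qq91 (by norm_num) q92 (by norm_num) (by norm_num)

theorem Qq93 : Q 4711447171 10350 = 133753742011639991206846442573791058670 :=
  Q_step Qq92 (by norm_num) q93 (by norm_num) (by norm_num)

theorem Qq94 : Q 4711447171 10686 = 135247606129129548373272596417058688957 :=
  Q_step Qq93 (by norm_num) q94 (by norm_num) (by norm_num)

theorem Qq95 : Q 4711447171 11006 = 136710405201009912549985628012882846464 :=
  Q_step Qq94 (by norm_num) q95 (by norm_num) (by norm_num)

theorem Qq96 : Q 4711447171 11350 = 138184317765702477613861623950312915584 :=
  Q_step Qq95 (by norm_num) q96 (by norm_num) (by norm_num)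

theorem Qq97 : Q 4711447171 11718 = 139642953873011692285220171393475530473 :=
  Q_step Qq96 (by norm_num) q97 (by norm_num) (by norm_num)

theorem Qq98 : Q 4711447171 12054 = 141066691559296623801155466438718098282 :=
  Q_step Qq97 (by norm_num) q98 (by norm_num) (by norm_num)

theorem Qq99 : Q 4711447171 12486 = 142474070214585610016664435537824675638 :=
  Q_step Qq98 (by norm_num) q99 (by norm_num) (by norm_num)

theorem Qq100 : Q 4711447171 12894 = 143876379535124283542796832937192768917 :=
  Q_step Qq99 (by norm_num) q100 (by norm_num) (by norm_num)

theorem Qq101 : Q 4711447171 13318 = 145273499094105622697759516136039219774 :=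
  Q_step Qq100 (by norm_num) q101 (by norm_num) (by norm_num)

theorem Qq102 : Q 4711447171 13758 = 146662588086534516019463727022742002818 :=
  Q_step Qq101 (by norm_num) q102 (by norm_num) (by norm_num)

theorem Qq103 : Q 4711447171 14214 = 148022745489314400461537546052936090007 :=
  Q_step Qq102 (by norm_num) q103 (by norm_num) (by norm_num)

theorem Qq104 : Q 4711447171 14654 = 149401642570917458818853762930196257829 :=
  Q_step Qq103 (by norm_num) q104 (by norm_num) (by norm_num)

theorem Qq105 : Q 4711447171 15166 = 150760883462313378251070363351070505387 :=
  Q_step Qq104 (by norm_num) q105 (by norm_num) (by norm_num)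

theorem Qq106 : Q 4711447171 15662 = 152082883314375792759929747702266738181 :=
  Q_step Qq105 (by norm_num) q106 (by norm_num) (by norm_num)

theorem Qq107 : Q 4711447171 16206 = 153404774148486587641060637264473572153 :=
  Q_step Qq106 (by norm_num) q107 (by norm_num) (by norm_num)

theorem Qq108 : Q 4711447171 16742 = 154712799420332086148997963735251282421 :=
  Q_step Qq107 (by norm_num) q108 (by norm_num) (by norm_num)

theorem Qq109 : Q 4711447171 17294 = 155990302201025289349406023156316407705 :=
  Q_step Qq108 (by norm_num) q109 (by norm_num) (by norm_num)

theorem Qq110 : Q 4711447171 17918 = 157242412672545320886672684748931059220 :=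
  Q_step Qq109 (by norm_num) q110 (by norm_num) (by norm_num)

theorem Qq111 : Q 4711447171 18510 = 158494889495088818382236426178642295776 :=
  Q_step Qq110 (by norm_num) q111 (by norm_num) (by norm_num)

theorem Qq112 : Q 4711447171 19182 = 159702758960660884713390841866223237707 :=
  Q_step Qq111 (by norm_num) q112 (by norm_num) (by norm_num)

theorem Qq113 : Q 4711447171 19878 = 160886884062840076079625815399983383881 :=
  Q_step Qq112 (by norm_num) q113 (by norm_num) (by norm_num)

theorem Qq114 : Q 4711447171 20606 = 162041495723744753808935123445561660307 :=
  Q_step Qq113 (by norm_num) q114 (by norm_num) (by norm_num)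

theorem Qq115 : Q 4711447171 21318 = 163170077447224345075714089444611728981 :=
  Q_step Qq114 (by norm_num) q115 (by norm_num) (by norm_num)

theorem Qq116 : Q 4711447171 22126 = 164263978785582892442526879567344386287 :=
  Q_step Qq115 (by norm_num) q116 (by norm_num) (by norm_num)

theorem Qq117 : Q 4711447171 22990 = 165310899725046381399490741740066125404 :=
  Q_step Qq116 (by norm_num) q117 (by norm_num) (by norm_num)

theorem Qq118 : Q 4711447171 23894 = 166312569341033523251509322355440957218 :=
  Q_step Qq117 (by norm_num) q118 (by norm_num) (by norm_num)

theorem Qq119 : Q 4711447171 24830 = 167260072246872912861201869578641098950 :=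
  Q_step Qq118 (by norm_num) q119 (by norm_num) (by norm_num)

theorem Qq120 : Q 4711447171 25822 = 168153847049672229195941299143852708638 :=
  Q_step Qq119 (by norm_num) q120 (by norm_num) (by norm_num)

theorem Qq121 : Q 4711447171 26918 = 168979098999276208590382698651221088099 :=
  Q_step Qq120 (by norm_num) q121 (by norm_num) (by norm_num)

theorem Qq122 : Q 4711447171 28078 = 169720490791072689696997310410410968476 :=
  Q_step Qq121 (by norm_num) q122 (by norm_num) (by norm_num)

theorem Qq123 : Q 4711447171 29294 = 170372699560191314180528223637830993550 :=
  Q_step Qq122 (by norm_num) q123 (by norm_num) (by norm_num)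

theorem Qq124 : Q 4711447171 30726 = 170898958368623062475414295508935410157 :=
  Q_step Qq123 (by norm_num) q124 (by norm_num) (by norm_num)

theorem Qq125 : Q 4711447171 32302 = 171273874907194762918514036967370075810 :=
  Q_step Qq124 (by norm_num) q125 (by norm_num) (by norm_num)

theorem Qq126 : Q 4711447171 34046 = 171441789173351594413266291426922678501 :=
  Q_step Qq125 (by norm_num) q126 (by norm_num) (by norm_num)

theorem Qq127 : Q 4711447171 34382 = 171444267430275040601746226645870451646 :=
  Q_step Qq126 (by norm_num) q127 (by norm_num) (by norm_num)

end R467.PS
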