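/-! Bit sieve on big natural numbers, meant for evaluation by the kernel. -/

namespace R467.PS

noncomputable section

/-- `B - 1` with `B = 2 ^ 32`. -/
def BB : Nat := 4294967295

/-- `(B - 1) ^ 2`. -/
def BB2 : Nat := 18446744065119617025

/-- ones at the positions `0, 32, 64, ...` below `2 ^ 21`. -/
def MM : Nat := Nat.div (Nat.sub (Nat.pow 2 2097152) 1) 4294967295

/-- bit `i` (`i < L`) says that `2 * (a + i) + 1` has a divisor in the list. -/
def orl (L : Nat) (P : List Nat) (a : Nat) : Nat :=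
  List.rec (motive := fun _ => Nat) 0
    (fun p _ ih => Nat.lor (Nat.shiftRight
      (Nat.div (Nat.pow 2 (Nat.add L 4096)) (Nat.sub (Nat.pow 2 p) 1))
      (Nat.mod (Nat.add (Nat.add (Nat.add L 4096) a) (Nat.div (Nat.succ p) 2)) p)) ih) P

/-- digit sums of `X`, packed. -/
def gg (X : Nat) : Nat :=
  Nat.rec (motive := fun _ => Nat) 0
    (fun s ih => Nat.add (Nat.mul (Nat.mod (Nat.land (Nat.shiftRight X s) MM) BB2)
      (Nat.add 1 (Nat.mul s 1267650600228229401496703205376))) ih) 32

/-- number of ones, from `gg`. -/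
def cnt (g : Nat) : Nat := Nat.mod (Nat.mod g 1267650600228229401496703205376) BB

/-- sum of the positions of the ones, from `gg`. -/
def pos (g : Nat) : Nat :=
  Nat.add (Nat.mul 32 (Nat.div (Nat.mod g 1267650600228229401496703205376) BB))
    (Nat.mod (Nat.div g 1267650600228229401496703205376) BB)

/-- the result for the window `a, …, a + r - 1`: number of zeros in the upper half, sum of `2 * (a + i) + 1`
over the zeros in the lower half. -/
def enc (g r a : Nat) : Nat :=
  Nat.add (Nat.mul 1267650600228229401496703205376 (Nat.sub r (cnt g)))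
    (Nat.add (Nat.mul (Nat.succ (Nat.mul 2 a)) (Nat.sub r (cnt g)))
      (Nat.mul 2 (Nat.sub (Nat.div (Nat.mul r (Nat.sub r 1)) 2) (pos g))))

def win (X r a : Nat) : Nat := enc (gg (Nat.mod X (Nat.pow 2 r))) r a

/-- the primes `3, …, 1669`. -/
def PP : List Nat := [
  3, 5, 7, 11, 13, 17, 19, 23, 29, 31, 37, 41, 43, 47, 53, 59, 61, 67, 71, 73, 79, 83, 89, 97,
  101, 103, 107, 109, 113, 127, 131, 137, 139, 149, 151, 157, 163, 167, 173, 179, 181, 191,
  193, 197, 199, 211, 223, 227, 229, 233, 239, 241, 251, 257, 263, 269, 271, 277, 281, 283,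
  293, 307, 311, 313, 317, 331, 337, 347, 349, 353, 359, 367, 373, 379, 383, 389, 397, 401,
  409, 419, 421, 431, 433, 439, 443, 449, 457, 461, 463, 467, 479, 487, 491, 499, 503, 509,
  521, 523, 541, 547, 557, 563, 569, 571, 577, 587, 593, 599, 601, 607, 613, 617, 619, 631,
  641, 643, 647, 653, 659, 661, 673, 677, 683, 691, 701, 709, 719, 727, 733, 739, 743, 751,
  757, 761, 769, 773, 787, 797, 809, 811, 821, 823, 827, 829, 839, 853, 857, 859, 863, 877,
  881, 883, 887, 907, 911, 919, 929, 937, 941, 947, 953, 967, 971, 977, 983, 991, 997, 1009,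
  1013, 1019, 1021, 1031, 1033, 1039, 1049, 1051, 1061, 1063, 1069, 1087, 1091, 1093, 1097,
  1103, 1109, 1117, 1123, 1129, 1151, 1153, 1163, 1171, 1181, 1187, 1193, 1201, 1213, 1217,
  1223, 1229, 1231, 1237, 1249, 1259, 1277, 1279, 1283, 1289, 1291, 1297, 1301, 1303, 1307,
  1319, 1321, 1327, 1361, 1367, 1373, 1381, 1399, 1409, 1423, 1427, 1429, 1433, 1439, 1447,
  1451, 1453, 1459, 1471, 1481, 1483, 1487, 1489, 1493, 1499, 1511, 1523, 1531, 1543, 1549,
  1553, 1559, 1567, 1571, 1579, 1583, 1597, 1601, 1607, 1609, 1613, 1619, 1621, 1627, 1637,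
  1657, 1663, 1667, 1669]

/-- `K` windows of length `L`, from `a`. -/
def grp (L a K : Nat) : Nat :=
  Nat.rec (motive := fun _ => Nat) 0
    (fun j ih => Nat.add (win (orl L PP (Nat.add a (Nat.mul j L))) L
      (Nat.add a (Nat.mul j L))) ih) K

def fq (w i : Nat) : Nat :=
  Nat.add (Nat.mul 1267650600228229401496703205376 (Nat.div w 1267650600228229401496703205376))
    (Nat.mul (Nat.succ (Nat.mul 2 i)) (Nat.mod w 1267650600228229401496703205376))

/-- number of odd numbers up to `x / (2 * i + 1)`. -/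
def R (x i : Nat) : Nat := Nat.div (Nat.succ (Nat.div x (Nat.succ (Nat.mul 2 i)))) 2

/-- number of multiples `(2 * i + 1) * q ≤ x`, `q ≥ 2 * i + 1` not marked in `T` (upper half) and
their sum. -/
def qv (T x i : Nat) : Nat :=
  fq (win (Nat.shiftRight (Nat.mod T (Nat.pow 2 (R x i))) i) (Nat.sub (R x i) i) i) i

def qq (T S x i : Nat) : Nat :=
  Nat.rec (motive := fun _ => Nat) (qv T x i) (fun _ _ => 0) (Nat.land (Nat.shiftRight S i) 1)

def qgrp (T S x i : Nat) : Nat :=
  Nat.rec (motive := fun _ => Nat) 0 (fun j ih => Nat.add (qq T S x (Nat.add i j)) ih) 8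

def qgr (T S x i K : Nat) : Nat :=
  Nat.rec (motive := fun _ => Nat) 0 (fun j ih => Nat.add (qgrp T S x (Nat.add i (Nat.mul j 8))) ih) K

end

end R467.PS
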