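import Mathlib
import Pool.Agent.R467.PS.Defs

/-! Correctness of the bit sieve: masks. -/

namespace R467.PS

open Finset

/-- `∑ t < K, 2 ^ (p t)`. -/
noncomputable def geo (p K : ℕ) : ℕ := ∑ t ∈ range K, (2 ^ p) ^ t

theorem geo_succ (p K : ℕ) : geo p (K + 1) = 2 ^ p * geo p K + 1 := by
  unfold geo
  rw [Finset.sum_range_succ', Finset.mul_sum]
  simp [pow_succ, mul_comm]

theorem testBit_geo {p : ℕ} (hp : 0 < p) (K i : ℕ) :
    (geo p K).testBit i = true ↔ (p ∣ i ∧ i < p * K) := by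
  induction K generalizing i with
  | zero => simp [geo]
  | succ K ih =>
    rw [geo_succ, Nat.testBit_two_pow_mul_add _ (Nat.one_lt_two_pow hp.ne')]
    split_ifs with h
    · rw [Nat.testBit_one_eq_true_iff_self_eq_zero]
      constructor
      · rintro rfl
        exact ⟨dvd_zero _, by positivity⟩
      · rintro ⟨h1, _⟩
        exact Nat.eq_zero_of_dvd_of_lt h1 h
    · rw [ih]
      have hle : p ≤ i := not_lt.mp h
      constructor
      · rintro ⟨h1, h2⟩
        refine ⟨?_, ?_⟩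
        · have := (Nat.dvd_add_right (dvd_refl p)).mpr h1
          rwa [Nat.add_sub_cancel' hle] at this
        · rw [mul_add, mul_one]; omega
      · rintro ⟨h1, h2⟩
        refine ⟨Nat.dvd_sub h1 (dvd_refl p), ?_⟩
        rw [mul_add, mul_one] at h2; omega

/-- the pattern of `p`: ones at the positions `≡ N (mod p)` from `N % p` to `N - p`. -/
theorem pat_eq {p : ℕ} (hp : 2 ≤ p) (N : ℕ) :
    2 ^ N / (2 ^ p - 1) = geo p (N / p) * 2 ^ (N % p) := by
  have hp0 : 0 < p := by omega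
  have h4 : 4 ≤ 2 ^ p := by
    calc 4 = 2 ^ 2 := rfl
    _ ≤ 2 ^ p := Nat.pow_le_pow_right (by norm_num) hp
  have hg : geo p (N / p) * (2 ^ p - 1) + 1 = 2 ^ (p * (N / p)) := by
    have h1 := Nat.geomSum_eq (m := 2 ^ p) (by omega) (N / p)
    have h2 : (2 ^ p - 1) ∣ (2 ^ p) ^ (N / p) - 1 := by
      simpa using Nat.sub_dvd_pow_sub_pow (2 ^ p) 1 (N / p)
    have h3 : geo p (N / p) * (2 ^ p - 1) = (2 ^ p) ^ (N / p) - 1 := by
      unfold geo
      rw [h1]; exact Nat.div_mul_cancel h2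
    rw [h3, ← pow_mul]
    exact Nat.sub_add_cancel (Nat.one_le_two_pow)
  have h5 : 2 ^ N = (2 ^ p - 1) * (geo p (N / p) * 2 ^ (N % p)) + 2 ^ (N % p) := by
    have : N = p * (N / p) + N % p := (Nat.div_add_mod N p).symm
    calc 2 ^ N = 2 ^ (p * (N / p)) * 2 ^ (N % p) := by rw [← pow_add, ← this]
    _ = (geo p (N / p) * (2 ^ p - 1) + 1) * 2 ^ (N % p) := by rw [hg]
    _ = _ := by ring
  have h6 : 2 ^ (N % p) < 2 ^ p - 1 := by
    have h7 : N % p ≤ p - 1 := by have := Nat.mod_lt N hp0; omega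
    have h8 : 2 ^ (N % p) ≤ 2 ^ (p - 1) := Nat.pow_le_pow_right (by norm_num) h7
    have h9 : 2 ^ p = 2 * 2 ^ (p - 1) := by
      rw [← pow_succ']; congr 1; omega
    omega
  rw [h5, Nat.mul_add_div (by omega), Nat.div_eq_of_lt h6, add_zero]

theorem testBit_pat {p : ℕ} (hp : 2 ≤ p) (N i : ℕ) :
    (2 ^ N / (2 ^ p - 1)).testBit i = true ↔ (i % p = N % p ∧ i + p ≤ N) := by
  have hp0 : 0 < p := by omega
  have hN := Nat.div_add_mod N p
  have hm := Nat.mod_lt N hp0
  rw [pat_eq hp, ← Nat.shiftLeft_eq, Nat.testBit_shiftLeft, Bool.and_eq_true, decide_eq_true_eq,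
    testBit_geo hp0]
  constructor
  · rintro ⟨h1, ⟨c, hc⟩, h3⟩
    have h4 : i = N % p + p * c := by omega
    refine ⟨?_, ?_⟩
    · rw [h4, Nat.add_mul_mod_self_left, Nat.mod_mod]
    · have h5 : c < N / p := by
        by_contra hh
        have : p * (N / p) ≤ p * c := Nat.mul_le_mul_left p (by omega)
        omega
      have h6 : p * (c + 1) ≤ p * (N / p) := Nat.mul_le_mul_left p h5
      rw [mul_add, mul_one] at h6
      omega
  · rintro ⟨h1, h2⟩
    have h3 := Nat.div_add_mod i p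
    rw [h1] at h3
    refine ⟨by omega, ⟨i / p, by omega⟩, ?_⟩
    omega

theorem MM_aux (e K : ℕ) (h : e = 32 * K) :
    Nat.div (Nat.sub (Nat.pow 2 e) 1) 4294967295 = geo 32 K := by
  subst h
  rw [geo, Nat.geomSum_eq (by norm_num), ← pow_mul]
  rfl

theorem MM_eq : MM = geo 32 65536 := by
  unfold MM
  exact MM_aux _ _ (by norm_num)

theorem off_spec {p : ℕ} (hp : p % 2 = 1) (N a i : ℕ) :
    p ∣ 2 * (a + i) + 1 ↔ ((N + a + (p + 1) / 2) % p + i) % p = N % p := by
  have hp0 : 0 < p := by omega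
  have hc : Nat.Coprime p 2 := by
    rw [Nat.coprime_comm, Nat.coprime_two_left, Nat.odd_iff]; exact hp
  obtain ⟨c, hcc⟩ : ∃ c, p = 2 * c + 1 := ⟨p / 2, by omega⟩
  have hoff : (p + 1) / 2 = c + 1 := by omega
  rw [hoff]
  have key : ((N + a + (c + 1)) % p + i) % p = (N + (a + i + (c + 1))) % p := by
    rw [Nat.mod_add_mod]; congr 1; ring
  rw [key]
  have key2 : ((N + (a + i + (c + 1))) % p = N % p) ↔ p ∣ a + i + (c + 1) := by
    constructor
    · intro h
      have h1 : N + (a + i + (c + 1)) ≡ N + 0 [MOD p] := h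
      exact (Nat.modEq_zero_iff_dvd).mp (Nat.ModEq.add_left_cancel' N h1)
    · intro h
      have h1 : N + (a + i + (c + 1)) ≡ N + 0 [MOD p] :=
        Nat.ModEq.add_left N ((Nat.modEq_zero_iff_dvd).mpr h)
      exact h1
  rw [key2]
  constructor
  · intro h
    have h1 : p ∣ 2 * (a + i + (c + 1)) := by
      have h2 : 2 * (a + i + (c + 1)) = (2 * (a + i) + 1) + p := by omega
      rw [h2]
      exact Nat.dvd_add h (dvd_refl p)
    exact hc.dvd_of_dvd_mul_left h1
  · intro h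
    have h1 : p ∣ 2 * (a + i + (c + 1)) := Dvd.dvd.mul_left h 2
    have h2 : 2 * (a + i + (c + 1)) = (2 * (a + i) + 1) + p := by omega
    rw [h2] at h1
    exact (Nat.dvd_add_left (dvd_refl p)).mp h1

theorem mask_spec {L p : ℕ} (hp : p % 2 = 1) (hp1 : 1 < p) (hp2 : p < 2048) (a i : ℕ)
    (hi : i < L) :
    (Nat.shiftRight
      (Nat.div (Nat.pow 2 (Nat.add L 4096)) (Nat.sub (Nat.pow 2 p) 1))
      (Nat.mod (Nat.add (Nat.add (Nat.add L 4096) a) (Nat.div (Nat.succ p) 2)) p)).testBit i = true ↔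
      p ∣ 2 * (a + i) + 1 := by
  change ((2 ^ (L + 4096) / (2 ^ p - 1)) >>> ((L + 4096 + a + (p + 1) / 2) % p)).testBit i = true ↔ _
  rw [off_spec hp (L + 4096), Nat.testBit_shiftRight, testBit_pat (by omega)]
  have := Nat.mod_lt (L + 4096 + a + (p + 1) / 2) (by omega : 0 < p)
  constructor
  · rintro ⟨h1, _⟩; exact h1
  · intro h1; exact ⟨h1, by omega⟩

theorem orl_cons (L p : ℕ) (P : List ℕ) (a : ℕ) :
    orl L (p :: P) a = (Nat.shiftRight
      (Nat.div (Nat.pow 2 (Nat.add L 4096)) (Nat.sub (Nat.pow 2 p) 1))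
      (Nat.mod (Nat.add (Nat.add (Nat.add L 4096) a) (Nat.div (Nat.succ p) 2)) p)) |||
        orl L P a := rfl

theorem orl_spec {L : ℕ} (P : List ℕ) (hP : ∀ p ∈ P, p % 2 = 1 ∧ 1 < p ∧ p < 2048)
    (a i : ℕ) (hi : i < L) :
    (orl L P a).testBit i = true ↔ ∃ p ∈ P, p ∣ 2 * (a + i) + 1 := by
  induction P with
  | nil =>
    have : orl L [] a = 0 := rfl
    simp [this]
  | cons p P ih =>
    rw [orl_cons, Nat.testBit_or, Bool.or_eq_true, ih (fun q hq => hP q (List.mem_cons_of_mem _ hq)),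
      mask_spec (hP p List.mem_cons_self).1 (hP p List.mem_cons_self).2.1
        (hP p List.mem_cons_self).2.2 a i hi]
    simp

end R467.PS
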