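import Mathlib
import Pool.Agent.R467.PS.SpecA

/-! Correctness of the bit sieve: digit sums. -/

namespace R467.PS

open Finset

/-- bit `i` of `Y` as a number. -/
def bt (Y i : ℕ) : ℕ := (Y.testBit i).toNat

theorem bt_le (Y i : ℕ) : bt Y i ≤ 1 := Bool.toNat_le _

theorem land_geo (Y K : ℕ) :
    Y &&& geo 32 (K + 1) = 2 ^ 32 * ((Y >>> 32) &&& geo 32 K) + bt Y 0 := by
  apply Nat.eq_of_testBit_eq
  intro i
  have hb : bt Y 0 < 2 ^ 32 := lt_of_le_of_lt (bt_le Y 0) (by norm_num)
  rw [Nat.testBit_land, geo_succ, Nat.testBit_two_pow_mul_add _ (by norm_num : 1 < 2 ^ 32),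
    Nat.testBit_two_pow_mul_add _ hb]
  split_ifs with h
  · rcases Nat.eq_zero_or_pos i with rfl | hi
    · cases hY : Y.testBit 0 <;> simp [bt, hY]
    · have h1 : Nat.testBit 1 i = false := by
        rw [Bool.eq_false_iff, ne_eq, Nat.testBit_one_eq_true_iff_self_eq_zero]; omega
      rw [h1, Bool.and_false]
      unfold bt
      cases hY : Y.testBit 0
      · simp
      · simp [h1]
  · rw [Nat.testBit_land, Nat.testBit_shiftRight]
    congr 2
    omega

theorem mod_geo (K : ℕ) : ∀ Y : ℕ, (Y &&& geo 32 K) ≡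
    (∑ t ∈ range K, bt Y (32 * t)) + 4294967295 * (∑ t ∈ range K, t * bt Y (32 * t))
      [MOD 18446744065119617025] := by
  induction K with
  | zero => intro Y; simp [geo, Nat.ModEq]
  | succ K ih =>
    intro Y
    rw [land_geo]
    have h := ih (Y >>> 32)
    have hb : ∀ t, bt (Y >>> 32) (32 * t) = bt Y (32 * (t + 1)) := by
      intro t
      unfold bt
      rw [Nat.testBit_shiftRight]
      congr 2
      ring
    simp only [hb] at h
    rw [Finset.sum_range_succ', Finset.sum_range_succ' (fun t => t * bt Y (32 * t))]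
    set c := ∑ t ∈ range K, bt Y (32 * (t + 1)) with hc
    set d := ∑ t ∈ range K, t * bt Y (32 * (t + 1)) with hd
    have hd' : ∑ t ∈ range K, (t + 1) * bt Y (32 * (t + 1)) = d + c := by
      rw [hc, hd, ← Finset.sum_add_distrib]
      refine Finset.sum_congr rfl fun t _ => by ring
    rw [hd']
    have h2 : 2 ^ 32 * ((Y >>> 32) &&& geo 32 K) + bt Y 0 ≡
        2 ^ 32 * (c + 4294967295 * d) + bt Y 0 [MOD 18446744065119617025] :=
      (h.mul_left _).add_right _
    refine h2.trans ?_
    have h3 : 2 ^ 32 * (c + 4294967295 * d) + bt Y 0 =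
        18446744065119617025 * d + (c + bt Y (32 * 0) + 4294967295 * (d + c + 0 * bt Y (32 * 0))) := by
      simp only [mul_zero, zero_mul]
      ring
    rw [h3]
    simp [Nat.ModEq]

/-- number of ones at the positions `32 t + s`. -/
noncomputable def cs (X s : ℕ) : ℕ := ∑ t ∈ range 65536, bt X (32 * t + s)

/-- sum of `t` over the ones at the positions `32 t + s`. -/
noncomputable def ds (X s : ℕ) : ℕ := ∑ t ∈ range 65536, t * bt X (32 * t + s)

theorem cs_le (X s : ℕ) : cs X s ≤ 65536 := by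
  unfold cs
  calc _ ≤ ∑ t ∈ range 65536, 1 := Finset.sum_le_sum fun t _ => bt_le _ _
  _ = 65536 := by simp

theorem ds_le (X s : ℕ) : ds X s ≤ 2147450880 := by
  unfold ds
  calc _ ≤ ∑ t ∈ range 65536, t := Finset.sum_le_sum fun t _ => by
        have := bt_le X (32 * t + s)
        exact (Nat.mul_le_mul_left t this).trans_eq (mul_one t)
  _ = 2147450880 := by rw [Finset.sum_range_id]

theorem bt_shift (X s i : ℕ) : bt (X >>> s) i = bt X (i + s) := by
  unfold bt
  rw [Nat.testBit_shiftRight, add_comm]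

theorem vs_eq (X s : ℕ) :
    Nat.mod (Nat.land (Nat.shiftRight X s) MM) BB2 = cs X s + 4294967295 * ds X s := by
  have h : (X >>> s &&& geo 32 65536) % 18446744065119617025 =
      (∑ t ∈ range 65536, bt (X >>> s) (32 * t) +
        4294967295 * ∑ t ∈ range 65536, t * bt (X >>> s) (32 * t)) % 18446744065119617025 :=
    mod_geo 65536 (X >>> s)
  simp only [bt_shift] at h
  rw [MM_eq]
  change (X >>> s &&& geo 32 65536) % 18446744065119617025 = _
  rw [h]
  change (cs X s + 4294967295 * ds X s) % 18446744065119617025 = _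
  have h1 := cs_le X s
  have h2 := ds_le X s
  exact Nat.mod_eq_of_lt (by omega)

theorem rec_sum (f : ℕ → ℕ) (n : ℕ) :
    Nat.rec (motive := fun _ => ℕ) 0 (fun s ih => Nat.add (f s) ih) n = ∑ s ∈ range n, f s := by
  induction n with
  | zero => rfl
  | succ n ih =>
    rw [Finset.sum_range_succ, ← ih]
    change Nat.add (f n) _ = _
    exact Nat.add_comm _ _

theorem gg_eq (X : ℕ) : gg X =
    (∑ s ∈ range 32, (cs X s + 4294967295 * ds X s)) +
      1267650600228229401496703205376 * (∑ s ∈ range 32, s * (cs X s + 4294967295 * ds X s)) := by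
  unfold gg
  rw [rec_sum (fun s => Nat.mul (Nat.mod (Nat.land (Nat.shiftRight X s) MM) BB2)
      (Nat.add 1 (Nat.mul s 1267650600228229401496703205376)))]
  rw [Finset.mul_sum, ← Finset.sum_add_distrib]
  refine Finset.sum_congr rfl fun s _ => ?_
  rw [vs_eq]
  change (cs X s + 4294967295 * ds X s) * (1 + s * 1267650600228229401496703205376) = _
  ring

/-- all ones. -/
noncomputable def cc (X : ℕ) : ℕ := ∑ s ∈ range 32, cs X s

theorem sum_32 (f : ℕ → ℕ) (K : ℕ) :
    ∑ i ∈ range (32 * K), f i = ∑ t ∈ range K, ∑ s ∈ range 32, f (32 * t + s) := by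
  induction K with
  | zero => simp
  | succ K ih =>
    rw [mul_add, mul_one, Finset.sum_range_add, ih, Finset.sum_range_succ (n := K)]

theorem sum_cs (X : ℕ) : ∑ s ∈ range 32, cs X s = ∑ i ∈ range 2097152, bt X i := by
  unfold cs
  rw [Finset.sum_comm, ← sum_32 (fun i => bt X i) 65536]

theorem sum_cds (X : ℕ) : 32 * (∑ s ∈ range 32, ds X s) + ∑ s ∈ range 32, s * cs X s =
    ∑ i ∈ range 2097152, i * bt X i := by
  have h := sum_32 (fun i => i * bt X i) 65536
  rw [show 32 * 65536 = 2097152 from rfl] at h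
  rw [h, Finset.sum_comm, Finset.mul_sum, ← Finset.sum_add_distrib]
  refine Finset.sum_congr rfl fun s _ => ?_
  unfold cs ds
  rw [Finset.mul_sum, Finset.mul_sum, ← Finset.sum_add_distrib]
  refine Finset.sum_congr rfl fun t _ => by ring

theorem cnt_gg (X : ℕ) : cnt (gg X) = ∑ i ∈ range 2097152, bt X i := by
  have h1 : ∑ s ∈ range 32, cs X s ≤ 2097152 := by
    calc _ ≤ ∑ s ∈ range 32, 65536 := Finset.sum_le_sum fun s _ => cs_le _ _
    _ = _ := by simp
  have h2 : ∑ s ∈ range 32, ds X s ≤ 68718428160 := by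
    calc _ ≤ ∑ s ∈ range 32, 2147450880 := Finset.sum_le_sum fun s _ => ds_le _ _
    _ = _ := by simp
  have h3 : cnt (gg X) = (gg X % 1267650600228229401496703205376) % 4294967295 := rfl
  rw [h3, gg_eq, Nat.add_mul_mod_self_left, Finset.sum_add_distrib, ← Finset.mul_sum, ← sum_cs]
  rw [Nat.mod_eq_of_lt (a := _ + _) (by omega), Nat.add_mul_mod_self_left,
    Nat.mod_eq_of_lt (by omega)]

theorem pos_gg (X : ℕ) : pos (gg X) = ∑ i ∈ range 2097152, i * bt X i := by
  have h1 : ∑ s ∈ range 32, cs X s ≤ 2097152 := by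
    calc _ ≤ ∑ s ∈ range 32, 65536 := Finset.sum_le_sum fun s _ => cs_le _ _
    _ = _ := by simp
  have h2 : ∑ s ∈ range 32, ds X s ≤ 68718428160 := by
    calc _ ≤ ∑ s ∈ range 32, 2147450880 := Finset.sum_le_sum fun s _ => ds_le _ _
    _ = _ := by simp
  have h4 : ∑ s ∈ range 32, s * cs X s ≤ 32505856 := by
    calc _ ≤ ∑ s ∈ range 32, s * 65536 :=
          Finset.sum_le_sum fun s _ => Nat.mul_le_mul_left s (cs_le _ _)
    _ = 32 * (32 - 1) / 2 * 65536 := by rw [← Finset.sum_mul, Finset.sum_range_id]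
    _ = _ := by norm_num
  have h3 : pos (gg X) = 32 * ((gg X % 1267650600228229401496703205376) / 4294967295) +
    (gg X / 1267650600228229401496703205376) % 4294967295 := rfl
  have h5 : ∑ s ∈ range 32, s * (cs X s + 4294967295 * ds X s) =
      (∑ s ∈ range 32, s * cs X s) + 4294967295 * (∑ s ∈ range 32, s * ds X s) := by
    rw [Finset.mul_sum, ← Finset.sum_add_distrib]
    refine Finset.sum_congr rfl fun s _ => by ring
  rw [h3, gg_eq, Nat.add_mul_mod_self_left, Nat.add_mul_div_left _ _ (by norm_num), h5,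
    Finset.sum_add_distrib, ← Finset.mul_sum, ← sum_cds]
  rw [Nat.mod_eq_of_lt (a := (∑ s ∈ range 32, cs X s) + 4294967295 * _) (by omega),
    Nat.add_mul_div_left _ _ (by norm_num),
    Nat.div_eq_of_lt (a := ∑ s ∈ range 32, cs X s) (by omega),
    Nat.div_eq_of_lt (a := (∑ s ∈ range 32, cs X s) + 4294967295 * _) (by omega)]
  rw [zero_add, zero_add, Nat.add_mul_mod_self_left, Nat.mod_eq_of_lt (by omega)]

end R467.PS
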