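import Mathlib
import Pool.Agent.R467.PS.SpecB
import Pool.Agent.R467.PS.Table

/-! Correctness of the bit sieve: windows. -/

namespace R467.PS

open Finset

/-- `2 ^ 100`. -/
abbrev HH : ℕ := 1267650600228229401496703205376

theorem bt_mod (X r i : ℕ) : bt (X % 2 ^ r) i = if i < r then bt X i else 0 := by
  unfold bt
  rw [Nat.testBit_mod_two_pow]
  split_ifs with h <;> simp [h]

theorem sum_bt_mod (X r : ℕ) (hr : r ≤ 2097152) (w : ℕ → ℕ) :
    ∑ i ∈ range 2097152, w i * bt (X % 2 ^ r) i = ∑ i ∈ range r, w i * bt X i := by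
  simp only [bt_mod]
  symm
  apply Finset.sum_subset_zero_on_sdiff
  · intro i hi; rw [Finset.mem_range] at *; omega
  · intro i hi
    rw [Finset.mem_sdiff, Finset.mem_range, Finset.mem_range] at hi
    simp [hi.2]
  · intro i hi
    rw [Finset.mem_range] at hi
    simp [hi]

theorem win_spec (X r a : ℕ) (hr : r ≤ 2097152) :
    win X r a = ∑ i ∈ range r, (1 - bt X i) * (HH + (2 * (a + i) + 1)) := by
  have h0 : win X r a = HH * (r - cnt (gg (X % 2 ^ r))) +
      ((2 * a + 1) * (r - cnt (gg (X % 2 ^ r))) +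
        2 * (r * (r - 1) / 2 - pos (gg (X % 2 ^ r)))) := rfl
  have hc : cnt (gg (X % 2 ^ r)) = ∑ i ∈ range r, bt X i := by
    rw [cnt_gg]
    have := sum_bt_mod X r hr (fun _ => 1)
    simpa using this
  have hp : pos (gg (X % 2 ^ r)) = ∑ i ∈ range r, i * bt X i := by
    rw [pos_gg]
    exact sum_bt_mod X r hr (fun i => i)
  have h1 : (∑ i ∈ range r, (1 - bt X i)) + ∑ i ∈ range r, bt X i = r := by
    rw [← Finset.sum_add_distrib]
    calc _ = ∑ i ∈ range r, 1 := Finset.sum_congr rfl fun i _ => by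
          have := bt_le X i; omega
    _ = r := by simp
  have h2 : (∑ i ∈ range r, i * (1 - bt X i)) + ∑ i ∈ range r, i * bt X i = r * (r - 1) / 2 := by
    rw [← Finset.sum_add_distrib, ← Finset.sum_range_id]
    refine Finset.sum_congr rfl fun i _ => ?_
    have := bt_le X i
    rw [← mul_add, Nat.sub_add_cancel this, mul_one]
  rw [h0, hc, hp]
  have h3 : r - ∑ i ∈ range r, bt X i = ∑ i ∈ range r, (1 - bt X i) := by omega
  have h4 : r * (r - 1) / 2 - ∑ i ∈ range r, i * bt X i = ∑ i ∈ range r, i * (1 - bt X i) := by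
    omega
  rw [h3, h4, Finset.mul_sum, Finset.mul_sum, Finset.mul_sum, ← Finset.sum_add_distrib,
    ← Finset.sum_add_distrib]
  refine Finset.sum_congr rfl fun i _ => by ring

/-- no divisor in the list. -/
def Ok (m : ℕ) : Prop := ∀ p ∈ PP, ¬ p ∣ m

instance (m : ℕ) : Decidable (Ok m) := inferInstanceAs (Decidable (∀ p ∈ PP, ¬ p ∣ m))

def u (i : ℕ) : ℕ := if Ok (2 * i + 1) then 1 else 0

theorem u_le (i : ℕ) : u i ≤ 1 := by unfold u; split_ifs <;> simp

theorem PP_odd : ∀ p ∈ PP, p % 2 = 1 ∧ 1 < p ∧ p < 2048 := by decide +kernel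

theorem bt_orl {L : ℕ} (a i : ℕ) (hi : i < L) : 1 - bt (orl L PP a) i = u (a + i) := by
  have h := orl_spec PP PP_odd a i hi
  unfold bt u
  cases hb : (orl L PP a).testBit i
  · rw [hb] at h
    have h2 : Ok (2 * (a + i) + 1) := by
      intro p hp hd
      exact absurd (h.mpr ⟨p, hp, hd⟩) (by simp)
    rw [if_pos h2]; rfl
  · rw [hb] at h
    obtain ⟨p, hp, hd⟩ := h.mp rfl
    have h2 : ¬ Ok (2 * (a + i) + 1) := fun hh => hh p hp hd
    rw [if_neg h2]; rfl

/-- the weights. -/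
def gw (i : ℕ) : ℕ := u i * (HH + (2 * i + 1))

noncomputable def G (n : ℕ) : ℕ := ∑ i ∈ range n, gw i

theorem G_add (a r : ℕ) : G (a + r) = G a + ∑ i ∈ range r, gw (a + i) := by
  unfold G; rw [Finset.sum_range_add]

theorem win_orl {L : ℕ} (r a : ℕ) (hr : r ≤ L) (hL : L ≤ 2097152) :
    G (a + r) = G a + win (orl L PP a) r a := by
  rw [G_add, win_spec _ _ _ (hr.trans hL)]
  congr 1
  refine Finset.sum_congr rfl fun i hi => ?_
  rw [Finset.mem_range] at hi
  rw [bt_orl a i (by omega)]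
  rfl

theorem grp_spec {L : ℕ} (hL : L ≤ 2097152) (a K : ℕ) : G (a + K * L) = G a + grp L a K := by
  induction K with
  | zero => simp [grp]
  | succ K ih =>
    have h : grp L a (K + 1) =
      win (orl L PP (a + K * L)) L (a + K * L) + grp L a K := rfl
    rw [h, add_mul, one_mul, ← add_assoc, win_orl (L := L) L _ le_rfl hL, ih]
    ring

theorem grp_step {a v K w a' v' : ℕ} (h1 : G a = v) (h2 : grp 262144 a K = w)
    (ha : a + K * 262144 = a') (hv : v + w = v') : G a' = v' := by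
  rw [← ha, grp_spec (by norm_num), h1, h2, hv]

theorem win_step {a v r w a' v' : ℕ} (h1 : G a = v) (h2 : win (orl 262144 PP a) r a = w)
    (hr : r ≤ 262144) (ha : a + r = a') (hv : v + w = v') : G a' = v' := by
  rw [← ha, win_orl (L := 262144) r a hr (by norm_num), h1, h2, hv]

theorem bt_natmod (X r i : ℕ) (hi : i < r) : bt (Nat.mod X (Nat.pow 2 r)) i = bt X i := by
  change bt (X % 2 ^ r) i = _
  rw [bt_mod, if_pos hi]

theorem bt_TT (i : ℕ) (hi : i < 1391449) : 1 - bt TT i = u i := by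
  rw [← TT_tab, bt_natmod _ _ _ hi, bt_orl 0 i (by omega), zero_add]

theorem bt_TS (i : ℕ) (hi : i < 34400) : 1 - bt TS i = u i := by
  unfold TS
  rw [bt_natmod _ _ _ hi, bt_TT i (by omega)]

theorem win_TT (m r i : ℕ) (h : i + r ≤ m) (hm : m ≤ 1391449) :
    win (Nat.shiftRight (Nat.mod TT (Nat.pow 2 m)) i) r i =
      ∑ j ∈ range r, u (i + j) * (HH + (2 * (i + j) + 1)) := by
  rw [win_spec _ _ _ (by omega)]
  refine Finset.sum_congr rfl fun j hj => ?_
  rw [Finset.mem_range] at hj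
  change (1 - bt ((Nat.mod TT (Nat.pow 2 m)) >>> i) j) * _ = _
  rw [bt_shift, add_comm j i, bt_natmod _ _ _ (by omega), bt_TT _ (by omega)]

theorem R_eq (x i : ℕ) : R x i = (x / (2 * i + 1) + 1) / 2 := rfl

theorem qv_spec (x i : ℕ) (h : R x i ≤ 1391449) (hi : i ≤ 1391449) :
    qv TT x i = ∑ j ∈ Ico i (R x i), u j * (HH + (2 * i + 1) * (2 * j + 1)) := by
  have h0 : qv TT x i =
    fq (win (Nat.shiftRight (Nat.mod TT (Nat.pow 2 (R x i))) i) (R x i - i) i) i := rfl
  have hwin : win (Nat.shiftRight (Nat.mod TT (Nat.pow 2 (R x i))) i) (R x i - i) i =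
      ∑ j ∈ range (R x i - i), u (i + j) * (HH + (2 * (i + j) + 1)) := by
    by_cases hc : i ≤ R x i
    · exact win_TT _ _ _ (by omega) h
    · have h1 : R x i - i = 0 := by omega
      rw [h1, win_spec _ _ _ (by omega)]
      simp
  rw [h0, hwin]
  have h1 : ∀ w, fq w i = HH * (w / HH) + (2 * i + 1) * (w % HH) := fun w => rfl
  rw [h1, Finset.sum_Ico_eq_sum_range]
  set r := R x i - i with hr
  have h2 : ∑ j ∈ range r, u (i + j) * (HH + (2 * (i + j) + 1)) =
      HH * (∑ j ∈ range r, u (i + j)) + ∑ j ∈ range r, u (i + j) * (2 * (i + j) + 1) := by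
    rw [Finset.mul_sum, ← Finset.sum_add_distrib]
    refine Finset.sum_congr rfl fun j _ => by ring
  have h3 : ∑ j ∈ range r, u (i + j) * (2 * (i + j) + 1) < HH := by
    calc _ ≤ ∑ j ∈ range r, 2782898 := Finset.sum_le_sum fun j hj => by
          rw [Finset.mem_range] at hj
          have := u_le (i + j)
          calc _ ≤ 1 * (2 * (i + j) + 1) := Nat.mul_le_mul_right _ this
          _ ≤ _ := by omega
    _ = r * 2782898 := by simp
    _ < HH := by unfold HH; omega
  rw [h2, Nat.mul_add_div (by unfold HH; norm_num), Nat.div_eq_of_lt h3, add_zero,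
    Nat.mul_add_mod, Nat.mod_eq_of_lt h3, Finset.mul_sum, Finset.mul_sum,
    ← Finset.sum_add_distrib]
  refine Finset.sum_congr rfl fun j _ => by ring

theorem qq_spec (x i : ℕ) (h : R x i ≤ 1391449) (hi : i < 34400) :
    qq TT TS x i = ∑ j ∈ Ico i (R x i), u i * u j * (HH + (2 * i + 1) * (2 * j + 1)) := by
  have h0 : Nat.land (Nat.shiftRight TS i) 1 = bt TS i := by
    change TS >>> i &&& 1 = _
    unfold bt Nat.testBit
    rw [Nat.and_comm]
    have : 1 &&& TS >>> i = (TS >>> i) % 2 := by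
      rw [Nat.and_comm]; exact Nat.and_one_is_mod _
    rw [this]
    rcases Nat.mod_two_eq_zero_or_one (TS >>> i) with h | h <;> simp [h]
  have h1 : qq TT TS x i = Nat.rec (motive := fun _ => ℕ) (qv TT x i) (fun _ _ => 0) (bt TS i) := by
    unfold qq; rw [h0]
  have h2 := bt_TS i hi
  have h3 := bt_le TS i
  rw [h1]
  rcases Nat.eq_zero_or_pos (bt TS i) with h4 | h4
  · rw [h4] at h2 ⊢
    change qv TT x i = _
    rw [qv_spec x i h (by omega)]
    refine Finset.sum_congr rfl fun j _ => ?_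
    rw [← h2]; ring
  · have h5 : bt TS i = 1 := by omega
    rw [h5] at h2 ⊢
    change 0 = _
    rw [← h2]; simp

theorem qgrp_spec (T S x i : ℕ) : qgrp T S x i = ∑ j ∈ range 8, qq T S x (i + j) := by
  unfold qgrp
  rw [rec_sum (fun j => qq T S x (Nat.add i j))]
  rfl

theorem sum_8 (f : ℕ → ℕ) (K : ℕ) :
    ∑ i ∈ range (8 * K), f i = ∑ t ∈ range K, ∑ s ∈ range 8, f (8 * t + s) := by
  induction K with
  | zero => simp
  | succ K ih =>
    rw [mul_add, mul_one, Finset.sum_range_add, ih, Finset.sum_range_succ (n := K)]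

theorem qgr_spec (T S x i K : ℕ) : qgr T S x i K = ∑ j ∈ Ico i (i + 8 * K), qq T S x j := by
  unfold qgr
  rw [rec_sum (fun j => qgrp T S x (Nat.add i (Nat.mul j 8))), Finset.sum_Ico_eq_sum_range,
    Nat.add_sub_cancel_left, sum_8]
  refine Finset.sum_congr rfl fun j _ => ?_
  rw [qgrp_spec]
  refine Finset.sum_congr rfl fun s _ => ?_
  congr 1
  change i + j * 8 + s = _
  ring

/-- the total of the pair contributions with `i < b`. -/
noncomputable def Q (x b : ℕ) : ℕ := ∑ j ∈ Ico 846 b, qq TT TS x j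

theorem Q_step {x i K w v i' v' : ℕ} (h1 : Q x i = v) (hi : 846 ≤ i) (h2 : qgr TT TS x i K = w)
    (ha : i + 8 * K = i') (hv : v + w = v') : Q x i' = v' := by
  rw [qgr_spec] at h2
  rw [← hv, ← h1, ← h2, ← ha]
  unfold Q
  rw [Finset.sum_Ico_consecutive _ hi (by omega)]

theorem Q_start (x : ℕ) : Q x 846 = 0 := by simp [Q]

theorem G_zero : G 0 = 0 := by simp [G]

end R467.PS
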