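import Mathlib
import Pool.Agent.R467.PS.SpecC

/-! From the sieve to primes. -/

namespace R467.PS

open Finset

/-- primality test below `42 ^ 2` -/
def isP (n : ℕ) : Bool :=
  (Nat.ble n 41 && [2, 3, 5, 7, 11, 13, 17, 19, 23, 29, 31, 37, 41].elem n) ||
    (Nat.beq (Nat.gcd n 304250263527210) 1 && Nat.ble 2 n)

theorem small_prime {q : ℕ} (hq : q.Prime) (h : q < 42) :
    q ∈ [2, 3, 5, 7, 11, 13, 17, 19, 23, 29, 31, 37, 41] := by
  interval_cases q <;> first | decide | (exfalso; revert hq; norm_num)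

theorem isP_iff {n : ℕ} (hn : n < 1764) : isP n = true ↔ n.Prime := by
  unfold isP
  rw [Bool.or_eq_true, Bool.and_eq_true, Bool.and_eq_true, List.elem_iff, Nat.ble_eq, Nat.ble_eq,
    Nat.beq_eq]
  constructor
  · rintro (⟨-, h⟩ | ⟨h, h2⟩)
    · simp only [List.mem_cons, List.not_mem_nil, or_false] at h
      rcases h with h | h | h | h | h | h | h | h | h | h | h | h | h <;> rw [h] <;> norm_num
    · by_contra hp
      have h3 := Nat.minFac_sq_le_self (by omega) hp
      have h4 : (Nat.minFac n).Prime := Nat.minFac_prime (by omega)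
      have h5 : Nat.minFac n < 42 := by nlinarith
      have h6 := small_prime h4 h5
      have h7 : Nat.minFac n ∣ 304250263527210 := by
        simp only [List.mem_cons, List.not_mem_nil, or_false] at h6
        rcases h6 with h | h | h | h | h | h | h | h | h | h | h | h | h <;> rw [h] <;> norm_num
      have h8 := Nat.dvd_gcd (Nat.minFac_dvd n) h7
      rw [h] at h8
      exact h4.one_lt.ne' (Nat.dvd_one.mp h8)
  · intro hp
    by_cases h : n < 42
    · exact Or.inl ⟨by omega, small_prime hp h⟩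
    · refine Or.inr ⟨?_, hp.two_le⟩
      have h2 : ¬ n ∣ 304250263527210 := by
        intro hd
        have e : 304250263527210 = 2 * 3 * 5 * 7 * 11 * 13 * 17 * 19 * 23 * 29 * 31 * 37 * 41 := by
          norm_num
        rw [e] at hd
        simp only [hp.dvd_mul] at hd
        rcases hd with (((((((((((hd | hd) | hd) | hd) | hd) | hd) | hd) | hd) | hd) | hd) | hd) |
          hd) | hd <;> have := Nat.le_of_dvd (by norm_num) hd <;> omega
      exact (Nat.Prime.coprime_iff_not_dvd hp).mpr h2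

theorem PP_complete_aux : (List.range 1693).filter isP = 2 :: PP := by decide +kernel

theorem PP_complete {p : ℕ} (hp : p.Prime) (h : p < 1693) : p = 2 ∨ p ∈ PP := by
  have h1 : p ∈ (List.range 1693).filter isP :=
    List.mem_filter.mpr ⟨List.mem_range.mpr h, (isP_iff (by omega)).mpr hp⟩
  rw [PP_complete_aux] at h1
  exact List.mem_cons.mp h1

theorem PP_small : ∀ p ∈ PP, 1 < p ∧ p < 1693 := by decide +kernel

theorem card_list (n : ℕ) (p : ℕ → Bool) :
    ((range n).filter (fun k => p k = true)).card = ((List.range n).filter p).length := by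
  induction n with
  | zero => simp
  | succ n ih =>
    rw [Finset.range_add_one, Finset.filter_insert, List.range_succ, List.filter_append,
      List.length_append, ← ih]
    by_cases h : p n = true
    · rw [if_pos h, Finset.card_insert_of_notMem (by simp)]
      simp [h]
    · rw [if_neg h]
      simp [h]

theorem PP_length : (2 :: PP).length = 263 := by decide +kernel

theorem count_small : Nat.count Nat.Prime 1693 = 263 := by
  rw [Nat.count_eq_card_filter_range]
  have h1 : (range 1693).filter Nat.Prime = (range 1693).filter (fun n => isP n = true) := by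
    apply Finset.filter_congr
    intro n hn
    rw [Finset.mem_range] at hn
    exact (isP_iff (by omega)).symm
  rw [h1]
  exact (card_list 1693 isP).trans ((congrArg List.length PP_complete_aux).trans PP_length)

theorem Ok.minFac {n : ℕ} (h : Ok n) (hodd : n % 2 = 1) (h1 : 1 < n) : 1693 ≤ n.minFac := by
  by_contra hlt
  have hp : n.minFac.Prime := Nat.minFac_prime (by omega)
  rcases PP_complete hp (by omega) with h2 | h2
  · have := Nat.minFac_dvd n
    rw [h2] at this
    omega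
  · exact h _ h2 (Nat.minFac_dvd n)

theorem Ok.prime {n : ℕ} (h : Ok n) (hodd : n % 2 = 1) (h1 : 1 < n) (hn : n < 2866249) :
    n.Prime := by
  by_contra hp
  have h2 := h.minFac hodd h1
  have h3 := Nat.minFac_sq_le_self (by omega) hp
  nlinarith

theorem ok_of_prime {p : ℕ} (hp : p.Prime) (h : 1693 ≤ p) : Ok p := by
  intro q hq hd
  have h1 := PP_small q hq
  have := (Nat.dvd_prime hp).mp hd
  omega

theorem ok_mul {p q : ℕ} (hp : p.Prime) (hq : q.Prime) (h1 : 1693 ≤ p) (h2 : 1693 ≤ q) :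
    Ok (p * q) := by
  intro d hd hdd
  have h3 := PP_small d hd
  have h4 : d.minFac.Prime := Nat.minFac_prime (by omega)
  have h5 : d.minFac ∣ p * q := (Nat.minFac_dvd d).trans hdd
  have h6 := Nat.minFac_le (n := d) (by omega)
  rcases (Nat.Prime.dvd_mul h4).mp h5 with h | h
  · have := (Nat.prime_dvd_prime_iff_eq h4 hp).mp h; omega
  · have := (Nat.prime_dvd_prime_iff_eq h4 hq).mp h; omega

theorem Ok.dvd {n m : ℕ} (h : Ok n) (hd : m ∣ n) : Ok m :=
  fun p hp h2 => h p hp (h2.trans hd)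

theorem u_eq_one {i : ℕ} : u i = 1 ↔ Ok (2 * i + 1) := by
  unfold u; split_ifs with h <;> simp [h]

theorem u_zero_or {i : ℕ} (h : ¬ Ok (2 * i + 1)) : u i = 0 := by
  unfold u; rw [if_neg h]

/-- primes in `[1693, x]`. -/
def PSet (x : ℕ) : Finset ℕ := (Finset.Icc 1693 x).filter Nat.Prime

theorem minFac_mul {p q : ℕ} (hp : p.Prime) (hq : q.Prime) (h : p ≤ q) :
    (p * q).minFac = p := by
  have h1 : (p * q).minFac.Prime := Nat.minFac_prime (by
    have := hp.two_le; have := hq.two_le; nlinarith)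
  have h2 : (p * q).minFac ≤ p := Nat.minFac_le_of_dvd hp.two_le (dvd_mul_right _ _)
  rcases (Nat.Prime.dvd_mul h1).mp (Nat.minFac_dvd (p * q)) with h3 | h3
  · exact (Nat.prime_dvd_prime_iff_eq h1 hp).mp h3
  · have := (Nat.prime_dvd_prime_iff_eq h1 hq).mp h3; omega

theorem comp_factor {n x : ℕ} (hnx : n ≤ x) (hx : x < 4852559557) (hodd : n % 2 = 1)
    (h2 : Ok n) (h1 : 1 < n) (h4 : ¬ n.Prime) :
    ∃ a b, n = (2 * a + 1) * (2 * b + 1) ∧ 846 ≤ a ∧ a ≤ b ∧ Ok (2 * a + 1) ∧ Ok (2 * b + 1) ∧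
      n.minFac = 2 * a + 1 := by
  have hp : n.minFac.Prime := Nat.minFac_prime (by omega)
  have h5 := h2.minFac hodd h1
  obtain ⟨q, hq⟩ := Nat.minFac_dvd n
  generalize hpdef : n.minFac = p at hp h5 hq
  have hoddpq : (p * q) % 2 = 1 := by rw [← hq]; omega
  have hpodd : p % 2 = 1 := by
    rcases Nat.mod_two_eq_zero_or_one p with h | h
    · rw [Nat.mul_mod, h] at hoddpq; simp at hoddpq
    · exact h
  have hqodd : q % 2 = 1 := by
    rcases Nat.mod_two_eq_zero_or_one q with h | h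
    · rw [Nat.mul_mod, h] at hoddpq; simp at hoddpq
    · exact h
  have hq2 : q ≠ 1 := by
    rintro rfl
    rw [mul_one] at hq
    rw [hq] at h4; exact h4 hp
  have hqlt : q < 2866249 := by
    by_contra h
    have : 1693 * 2866249 ≤ p * q := Nat.mul_le_mul h5 (by omega)
    omega
  have hqok : Ok q := h2.dvd ⟨p, by rw [hq]; ring⟩
  have hqp : q.Prime := hqok.prime hqodd (by omega) hqlt
  have hpq : p ≤ q := by
    rw [← hpdef]; exact Nat.minFac_le_of_dvd hqp.two_le ⟨p, by rw [hq]; ring⟩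
  have ha : 2 * (p / 2) + 1 = p := by omega
  have hb' : 2 * (q / 2) + 1 = q := by omega
  refine ⟨p / 2, q / 2, ?_, by omega, by omega, ?_, ?_, ?_⟩
  · rw [ha, hb', hq]
  · rw [ha]; exact ok_of_prime hp h5
  · rw [hb']; exact hqok
  · rw [ha]

theorem pair_facts {x a b : ℕ} (hx : x < 4852559557) (h1 : 846 ≤ a) (h3 : a ≤ b)
    (h4 : b < R x a) (h5 : Ok (2 * a + 1)) (h6 : Ok (2 * b + 1)) :
    (2 * a + 1).Prime ∧ (2 * b + 1).Prime ∧ (2 * a + 1) * (2 * b + 1) ≤ x := by
  have h7 : 2 * b + 1 ≤ x / (2 * a + 1) := by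
    rw [R_eq] at h4; omega
  have h8 : (2 * a + 1) * (2 * b + 1) ≤ x := by
    have := (Nat.le_div_iff_mul_le (by omega : 0 < 2 * a + 1)).mp h7
    linarith
  have h9 : 2 * b + 1 < 2866249 := by
    by_contra h
    have : 1693 * 2866249 ≤ (2 * a + 1) * (2 * b + 1) :=
      Nat.mul_le_mul (by omega) (by omega)
    omega
  exact ⟨h5.prime (by omega) (by omega) (by omega), h6.prime (by omega) (by omega) h9, h8⟩

/-- pairs of indices. -/
noncomputable def pairs (x b0 : ℕ) : Finset (ℕ × ℕ) :=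
  (range b0 ×ˢ range (x + 1)).filter
    (fun z => 846 ≤ z.1 ∧ z.1 ≤ z.2 ∧ z.2 < R x z.1 ∧ Ok (2 * z.1 + 1) ∧ Ok (2 * z.2 + 1))

theorem mem_pairs {x b0 a b : ℕ} : (a, b) ∈ pairs x b0 ↔
    (a < b0 ∧ b < x + 1) ∧ 846 ≤ a ∧ a ≤ b ∧ b < R x a ∧ Ok (2 * a + 1) ∧ Ok (2 * b + 1) := by
  unfold pairs
  rw [Finset.mem_filter, Finset.mem_product, Finset.mem_range, Finset.mem_range]

theorem comp_sum1 (x b0 : ℕ) (hx : x < 4852559557) (hb : x < (2 * b0 + 1) ^ 2)
    (f : ℕ → ℕ) :
    ∑ i ∈ (range ((x + 1) / 2)).filter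
      (fun i => Ok (2 * i + 1) ∧ 0 < i ∧ ¬ (2 * i + 1).Prime), f (2 * i + 1) =
    ∑ z ∈ pairs x b0, f ((2 * z.1 + 1) * (2 * z.2 + 1)) := by
  symm
  apply Finset.sum_bij (fun z _ => 2 * z.1 * z.2 + z.1 + z.2)
  · rintro ⟨a, b⟩ hz
    rw [mem_pairs] at hz
    obtain ⟨-, h1, h2, h3, h4, h5⟩ := hz
    obtain ⟨h6, h7, h8⟩ := pair_facts hx h1 h2 h3 h4 h5
    have e : 2 * (2 * a * b + a + b) + 1 = (2 * a + 1) * (2 * b + 1) := by ring
    have h9 : Ok ((2 * a + 1) * (2 * b + 1)) := ok_mul h6 h7 (by omega) (by omega)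
    have h10 : ¬ ((2 * a + 1) * (2 * b + 1)).Prime := Nat.not_prime_mul h6.ne_one h7.ne_one
    rw [← e] at h8 h9 h10
    rw [Finset.mem_filter, Finset.mem_range]
    refine ⟨?_, h9, ?_, h10⟩
    · change 2 * a * b + a + b < (x + 1) / 2
      omega
    · change 0 < 2 * a * b + a + b
      omega
  · rintro ⟨a, b⟩ hz ⟨a', b'⟩ hz' heq
    rw [mem_pairs] at hz hz'
    obtain ⟨-, h1, h2, h3, h4, h5⟩ := hz
    obtain ⟨h6, h7, h8⟩ := pair_facts hx h1 h2 h3 h4 h5
    obtain ⟨-, h1', h2', h3', h4', h5'⟩ := hz'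
    obtain ⟨h6', h7', h8'⟩ := pair_facts hx h1' h2' h3' h4' h5'
    change 2 * a * b + a + b = 2 * a' * b' + a' + b' at heq
    have e : (2 * a + 1) * (2 * b + 1) = (2 * a' + 1) * (2 * b' + 1) := by linarith
    have m1 := minFac_mul h6 h7 (by omega)
    have m2 := minFac_mul h6' h7' (by omega)
    rw [e, m2] at m1
    have ha : a = a' := by omega
    subst ha
    have hb : 2 * b + 1 = 2 * b' + 1 := Nat.eq_of_mul_eq_mul_left (by omega) e
    have hb' : b = b' := by omega
    rw [hb']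
  · intro i hi
    rw [Finset.mem_filter, Finset.mem_range] at hi
    have hi1 : i < (x + 1) / 2 := hi.1
    have hi2 : 0 < i := hi.2.2.1
    obtain ⟨a, b, h1, h2, h3, h4, h5, h6⟩ :=
      comp_factor (n := 2 * i + 1) (x := x) (by omega) hx (by omega) hi.2.1 (by omega) hi.2.2.2
    have hle : (2 * a + 1) * (2 * b + 1) ≤ x := by omega
    refine ⟨(a, b), ?_, ?_⟩
    · rw [mem_pairs]
      refine ⟨⟨?_, ?_⟩, h2, h3, ?_, h4, h5⟩
      · have : (2 * a + 1) * (2 * a + 1) < (2 * b0 + 1) * (2 * b0 + 1) := by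
          calc _ ≤ (2 * a + 1) * (2 * b + 1) := Nat.mul_le_mul_left _ (by omega)
          _ ≤ x := hle
          _ < _ := by rw [← sq]; exact hb
        have := lt_of_mul_self_lt_mul_self₀ (by omega) this
        omega
      · have : 1 * (2 * b + 1) ≤ (2 * a + 1) * (2 * b + 1) := Nat.mul_le_mul_right _ (by omega)
        omega
      · rw [R_eq]
        have : 2 * b + 1 ≤ x / (2 * a + 1) :=
          (Nat.le_div_iff_mul_le (by omega)).mpr (by rw [mul_comm]; exact hle)
        omega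
    · have e : 2 * (2 * a * b + a + b) + 1 = (2 * a + 1) * (2 * b + 1) := by ring
      rw [← h1] at e
      change 2 * a * b + a + b = i
      omega
  · rintro ⟨a, b⟩ _
    have e : (2 * a + 1) * (2 * b + 1) = 2 * (2 * a * b + a + b) + 1 := by ring
    change f ((2 * a + 1) * (2 * b + 1)) = f (2 * (2 * a * b + a + b) + 1)
    rw [e]

theorem comp_sum2 (x b0 : ℕ) (f : ℕ → ℕ) :
    ∑ a ∈ Ico 846 b0, ∑ b ∈ Ico a (R x a), u a * u b * f ((2 * a + 1) * (2 * b + 1)) =
    ∑ z ∈ pairs x b0, f ((2 * z.1 + 1) * (2 * z.2 + 1)) := by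
  unfold pairs
  rw [Finset.sum_filter, Finset.sum_product]
  rw [← Finset.sum_subset (s₁ := Ico 846 b0) (s₂ := range b0)
    (f := fun a => ∑ y ∈ range (x + 1),
      if 846 ≤ a ∧ a ≤ y ∧ y < R x a ∧ Ok (2 * a + 1) ∧ Ok (2 * y + 1) then
        f ((2 * a + 1) * (2 * y + 1)) else 0)]
  · refine Finset.sum_congr rfl fun a ha => ?_
    rw [Finset.mem_Ico] at ha
    rw [← Finset.sum_subset (s₁ := Ico a (R x a)) (s₂ := range (x + 1))]
    · refine Finset.sum_congr rfl fun b hb => ?_
      rw [Finset.mem_Ico] at hb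
      split_ifs with h
      · rw [u_eq_one.mpr h.2.2.2.1, u_eq_one.mpr h.2.2.2.2]; ring
      · by_cases h1 : Ok (2 * a + 1)
        · have h2 : ¬ Ok (2 * b + 1) := fun h2 => h ⟨ha.1, hb.1, hb.2, h1, h2⟩
          rw [u_zero_or h2]; ring
        · rw [u_zero_or h1]; ring
    · intro b hb
      rw [Finset.mem_Ico] at hb
      rw [Finset.mem_range]
      have : R x a ≤ x + 1 := by
        rw [R_eq]
        have := Nat.div_le_self x (2 * a + 1)
        omega
      omega
    · intro b _ hb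
      rw [Finset.mem_Ico] at hb
      rw [if_neg]
      rintro ⟨_, h1, h2, _⟩
      exact hb ⟨h1, h2⟩
  · intro a ha
    rw [Finset.mem_Ico] at ha
    rw [Finset.mem_range]; exact ha.2
  · intro a ha ha2
    rw [Finset.mem_range] at ha
    rw [Finset.mem_Ico] at ha2
    apply Finset.sum_eq_zero
    intro b _
    rw [if_neg]
    rintro ⟨h1, _⟩
    exact ha2 ⟨h1, ha⟩

theorem comp_sum (x b0 : ℕ) (hx : x < 4852559557) (hb : x < (2 * b0 + 1) ^ 2)
    (f : ℕ → ℕ) :
    ∑ i ∈ (range ((x + 1) / 2)).filter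
      (fun i => Ok (2 * i + 1) ∧ 0 < i ∧ ¬ (2 * i + 1).Prime), f (2 * i + 1) =
    ∑ a ∈ Ico 846 b0, ∑ b ∈ Ico a (R x a), u a * u b * f ((2 * a + 1) * (2 * b + 1)) := by
  rw [comp_sum1 x b0 hx hb f, comp_sum2 x b0 f]

theorem prime_sum (x : ℕ) (f : ℕ → ℕ) :
    ∑ i ∈ (range ((x + 1) / 2)).filter
      (fun i => Ok (2 * i + 1) ∧ 0 < i ∧ (2 * i + 1).Prime), f (2 * i + 1) =
    ∑ p ∈ PSet x, f p := by
  refine Finset.sum_nbij' (fun i => 2 * i + 1) (fun p => p / 2) ?_ ?_ ?_ ?_ ?_
  · intro i hi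
    rw [Finset.mem_filter, Finset.mem_range] at hi
    obtain ⟨h1, h2, h3, h4⟩ := hi
    have h5 := h2.minFac (by omega) (by omega)
    rw [h4.minFac_eq] at h5
    unfold PSet
    rw [Finset.mem_filter, Finset.mem_Icc]
    exact ⟨⟨h5, by omega⟩, h4⟩
  · intro p hp
    unfold PSet at hp
    rw [Finset.mem_filter, Finset.mem_Icc] at hp
    obtain ⟨⟨h1, h2⟩, h3⟩ := hp
    have h4 : p % 2 = 1 := by
      rcases h3.eq_two_or_odd with h | h
      · omega
      · exact h
    have h5 : 2 * (p / 2) + 1 = p := by omega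
    rw [Finset.mem_filter, Finset.mem_range, h5]
    exact ⟨by omega, ok_of_prime h3 h1, by omega, h3⟩
  · intro i _; omega
  · intro p hp
    unfold PSet at hp
    rw [Finset.mem_filter, Finset.mem_Icc] at hp
    obtain ⟨⟨h1, h2⟩, h3⟩ := hp
    have h4 : p % 2 = 1 := by
      rcases h3.eq_two_or_odd with h | h
      · omega
      · exact h
    change 2 * (p / 2) + 1 = p
    omega
  · intro i _; rfl

theorem main_sum (x b0 : ℕ) (hx1 : 0 < x) (hx : x < 4852559557) (hb : x < (2 * b0 + 1) ^ 2)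
    (hx2 : x / 1693 ≤ 2782898) (hb0 : b0 ≤ 34400) :
    G ((x + 1) / 2) = (HH + 1) + ∑ p ∈ PSet x, (HH + p) + Q x b0 := by
  have h0 : Q x b0 = ∑ a ∈ Ico 846 b0, ∑ b ∈ Ico a (R x a),
      u a * u b * (HH + (2 * a + 1) * (2 * b + 1)) := by
    unfold Q
    refine Finset.sum_congr rfl fun a ha => ?_
    rw [Finset.mem_Ico] at ha
    apply qq_spec x a _ (by omega)
    rw [R_eq]
    have : x / (2 * a + 1) ≤ x / 1693 := Nat.div_le_div_left (by omega) (by norm_num)
    omega
  rw [h0, ← comp_sum x b0 hx hb (fun n => HH + n), ← prime_sum x (fun n => HH + n)]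
  unfold G
  have h1 : ∀ i, gw i = if Ok (2 * i + 1) then HH + (2 * i + 1) else 0 := by
    intro i
    unfold gw u
    split_ifs <;> simp
  rw [Finset.sum_congr rfl (fun i _ => h1 i), ← Finset.sum_filter]
  have h2 : (range ((x + 1) / 2)).filter (fun i => Ok (2 * i + 1)) =
      {0} ∪ ((range ((x + 1) / 2)).filter
        (fun i => Ok (2 * i + 1) ∧ 0 < i ∧ (2 * i + 1).Prime)) ∪
      ((range ((x + 1) / 2)).filter
        (fun i => Ok (2 * i + 1) ∧ 0 < i ∧ ¬ (2 * i + 1).Prime)) := by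
    ext i
    simp only [Finset.mem_filter, Finset.mem_range, Finset.mem_union, Finset.mem_singleton]
    constructor
    · rintro ⟨h3, h4⟩
      rcases Nat.eq_zero_or_pos i with h5 | h5
      · left; left; exact h5
      · by_cases h6 : (2 * i + 1).Prime
        · left; right; exact ⟨h3, h4, h5, h6⟩
        · right; exact ⟨h3, h4, h5, h6⟩
    · rintro ((rfl | h) | h)
      · refine ⟨by omega, ?_⟩
        intro p hp hd
        have := PP_small p hp
        have := Nat.le_of_dvd (by norm_num) hd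
        omega
      · exact ⟨h.1, h.2.1⟩
      · exact ⟨h.1, h.2.1⟩
  rw [h2, Finset.sum_union, Finset.sum_union, Finset.sum_singleton]
  · rw [Finset.disjoint_left]
    intro i hi
    rw [Finset.mem_singleton] at hi
    simp [hi]
  · rw [Finset.disjoint_left]
    intro i hi hi2
    simp only [Finset.mem_filter, Finset.mem_range, Finset.mem_union, Finset.mem_singleton] at hi hi2
    rcases hi with h | h
    · omega
    · exact hi2.2.2.2 h.2.2.2

theorem main_card (x b0 g q N S : ℕ) (hx1 : 0 < x) (hx : x < 4852559557)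
    (hb : x < (2 * b0 + 1) ^ 2) (hx2 : x / 1693 ≤ 2782898) (hb0 : b0 ≤ 34400)
    (hg : G ((x + 1) / 2) = g) (hq : Q x b0 = q) (hS : S < HH)
    (h : g = (HH + 1) + (HH * N + S) + q) :
    (PSet x).card = N ∧ ∑ p ∈ PSet x, p = S := by
  have h1 := main_sum x b0 hx1 hx hb hx2 hb0
  rw [hg, hq, Finset.sum_add_distrib, Finset.sum_const, smul_eq_mul, h] at h1
  have h2 : ∑ p ∈ PSet x, p < HH := by
    calc _ ≤ ∑ p ∈ Finset.Icc 1693 x, p := Finset.sum_le_sum_of_subset (Finset.filter_subset _ _)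
    _ ≤ ∑ p ∈ Finset.Icc 1693 x, 4852559557 := Finset.sum_le_sum fun p hp => by
        rw [Finset.mem_Icc] at hp; omega
    _ = (x + 1 - 1693) * 4852559557 := by simp
    _ < HH := by unfold HH; omega
  unfold HH at *
  omega

end R467.PS
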