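/-! Trial division in the kernel. -/

set_option maxRecDepth 100000

namespace R467.PS

/-- no `2 * j + 3`, `j < K`, divides `n`. -/
noncomputable def tr (n K : Nat) : Bool :=
  Nat.rec (motive := fun _ => Bool) true
    (fun j ih => Nat.rec (motive := fun _ => Bool) false (fun _ _ => ih)
      (Nat.mod n (Nat.add (Nat.mul 2 j) 3))) K

theorem tr1 : tr 2274652151 23850 = true := by decide +kernel

theorem tr2 : tr 4711447171 34320 = true := by decide +kernel

end R467.PS
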