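import Mathlib
import Pool.Agent.R467.PS.SpecD
import Pool.Agent.R467.PS.Chain
import Pool.Agent.R467.PS.Trial

/-! The two values of the prime counting function and of the sum of primes. -/

namespace R467.PS

open Finset

theorem tr_succ (n K : ℕ) : tr n (K + 1) =
    Nat.rec (motive := fun _ => Bool) false (fun _ _ => tr n K) (n % (2 * K + 3)) := rfl

theorem tr_spec {n K : ℕ} (h : tr n K = true) : ∀ j < K, n % (2 * j + 3) ≠ 0 := by
  induction K with
  | zero => intro j hj; omega
  | succ K ih =>
    rw [tr_succ] at h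
    rcases Nat.eq_zero_or_pos (n % (2 * K + 3)) with h0 | h0
    · rw [h0] at h
      have h' : false = true := h
      exact absurd h' (by decide)
    · obtain ⟨m, hm⟩ := Nat.exists_eq_succ_of_ne_zero h0.ne'
      rw [hm] at h
      have h' : tr n K = true := h
      intro j hj
      rcases Nat.lt_succ_iff_lt_or_eq.mp hj with h1 | h1
      · exact ih h' j h1
      · rw [h1]; omega

theorem tr_prime {n K : ℕ} (h : tr n K = true) (hodd : n % 2 = 1) (h1 : 1 < n)
    (hn : n < (2 * K + 3) ^ 2) : n.Prime := by
  by_contra hp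
  have h2 := Nat.minFac_sq_le_self (by omega) hp
  have h3 : n.minFac.Prime := Nat.minFac_prime (by omega)
  have h4 : n.minFac < 2 * K + 3 := by
    by_contra hh
    have : (2 * K + 3) ^ 2 ≤ n.minFac ^ 2 := Nat.pow_le_pow_left (by omega) 2
    omega
  have h5 := Nat.minFac_dvd n
  have h6 : n.minFac % 2 = 1 := by
    rcases h3.eq_two_or_odd with h | h
    · rw [h] at h5; omega
    · exact h
  have h7 := h3.two_le
  obtain ⟨j, hj⟩ : ∃ j, n.minFac = 2 * j + 3 := ⟨(n.minFac - 3) / 2, by omega⟩
  exact tr_spec h j (by omega) (by rw [← hj]; exact Nat.mod_eq_zero_of_dvd h5)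

theorem prime1 : Nat.Prime 2274652151 :=
  tr_prime tr1 (by norm_num) (by norm_num) (by norm_num)

theorem prime2 : Nat.Prime 4711447171 :=
  tr_prime tr2 (by norm_num) (by norm_num) (by norm_num)

theorem card1 : (PSet 2274652151).card = 111008508 ∧
    ∑ p ∈ PSet 2274652151, p = 123000806832623632 :=
  main_card 2274652151 23854 218741613201956713963048506119494054597
    78021610137665908392814114068350886580 111008508 123000806832623632
    (by norm_num) (by norm_num) (by norm_num) (by norm_num) (by norm_num) gx1 Qp57 (by norm_num)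
    (by norm_num)

theorem card2 : (PSet 4711447171).card = 222017279 ∧
    ∑ p ∈ PSet 4711447171, p = 510024998640106077 :=
  main_card 4711447171 34382 452884605683313911538582226269371455004
    171444267430275040601746226645870451646 222017279 510024998640106077
    (by norm_num) (by norm_num) (by norm_num) (by norm_num) (by norm_num) gx2 Qq127 (by norm_num)
    (by norm_num)

theorem count_eq {x : ℕ} (hx : 1693 ≤ x) (hp : x.Prime) :
    Nat.count Nat.Prime x + 1 = 263 + (PSet x).card := by
  have h0 := count_small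
  rw [Nat.count_eq_card_filter_range] at h0
  have h2 : (range (x + 1)).filter Nat.Prime =
      (range 1693).filter Nat.Prime ∪ PSet x := by
    ext p
    unfold PSet
    simp only [Finset.mem_filter, Finset.mem_range, Finset.mem_union, Finset.mem_Icc]
    constructor
    · rintro ⟨h, h'⟩
      by_cases h3 : p < 1693
      · exact Or.inl ⟨h3, h'⟩
      · exact Or.inr ⟨⟨by omega, by omega⟩, h'⟩
    · rintro (⟨h, h'⟩ | ⟨⟨h1, h2⟩, h'⟩)
      · exact ⟨by omega, h'⟩
      · exact ⟨by omega, h'⟩
  have h3 : Nat.count Nat.Prime (x + 1) = Nat.count Nat.Prime x + 1 := by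
    rw [Nat.count_succ, if_pos hp]
  rw [← h3, Nat.count_eq_card_filter_range, h2, Finset.card_union_of_disjoint, h0]
  rw [Finset.disjoint_left]
  intro p h4 h5
  unfold PSet at h5
  simp only [Finset.mem_filter, Finset.mem_range, Finset.mem_Icc] at h4 h5
  omega

theorem count1 : Nat.count Nat.Prime 2274652151 = 111008770 := by
  have := count_eq (x := 2274652151) (by norm_num) prime1
  rw [card1.1] at this
  omega

theorem count2 : Nat.count Nat.Prime 4711447171 = 222017541 := by
  have := count_eq (x := 4711447171) (by norm_num) prime2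
  rw [card2.1] at this
  omega

theorem sum_between {x y : ℕ} (hx : 1693 ≤ x) (hxy : x ≤ y) (hp : x.Prime) :
    (∑ p ∈ (Finset.Icc x y).filter Nat.Prime, p) + ∑ p ∈ PSet x, p = (∑ p ∈ PSet y, p) + x := by
  have h1 : PSet y = (PSet x).erase x ∪ (Finset.Icc x y).filter Nat.Prime := by
    ext p
    unfold PSet
    simp only [Finset.mem_filter, Finset.mem_union, Finset.mem_Icc, Finset.mem_erase]
    constructor
    · rintro ⟨h, h'⟩
      by_cases h3 : p < x
      · exact Or.inl ⟨by omega, ⟨by omega, by omega⟩, h'⟩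
      · exact Or.inr ⟨⟨by omega, by omega⟩, h'⟩
    · rintro (⟨h0, ⟨h1, h2⟩, h'⟩ | ⟨⟨h1, h2⟩, h'⟩)
      · exact ⟨⟨by omega, by omega⟩, h'⟩
      · exact ⟨⟨by omega, by omega⟩, h'⟩
  have h2 : Disjoint ((PSet x).erase x) ((Finset.Icc x y).filter Nat.Prime) := by
    rw [Finset.disjoint_left]
    intro p h4 h5
    unfold PSet at h4
    simp only [Finset.mem_filter, Finset.mem_Icc, Finset.mem_erase] at h4 h5
    omega
  rw [h1, Finset.sum_union h2]
  have h3 : x ∈ PSet x := by
    unfold PSet
    simp only [Finset.mem_filter, Finset.mem_Icc]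
    exact ⟨⟨hx, le_rfl⟩, hp⟩
  have h4 : (∑ p ∈ (PSet x).erase x, p) + x = ∑ p ∈ PSet x, p := Finset.sum_erase_add _ _ h3
  omega

theorem sum_nth {n m x y : ℕ} (hx : x.Prime) (hy : y.Prime) (hn : Nat.count Nat.Prime x + 1 = n)
    (hm : Nat.count Nat.Prime y + 1 = m) :
    ∑ k ∈ Finset.Icc n m, Nat.nth Nat.Prime (k - 1) =
      ∑ p ∈ (Finset.Icc x y).filter Nat.Prime, p := by
  have hx' : Nat.nth Nat.Prime (n - 1) = x := by
    rw [← hn, Nat.add_sub_cancel]; exact Nat.nth_count hx
  have hy' : Nat.nth Nat.Prime (m - 1) = y := by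
    rw [← hm, Nat.add_sub_cancel]; exact Nat.nth_count hy
  have hmono := Nat.nth_monotone Nat.infinite_setOfPred_prime
  refine Finset.sum_nbij' (fun k => Nat.nth Nat.Prime (k - 1))
    (fun p => Nat.count Nat.Prime p + 1) ?_ ?_ ?_ ?_ ?_
  · intro k hk
    rw [Finset.mem_Icc] at hk
    rw [Finset.mem_filter, Finset.mem_Icc]
    refine ⟨⟨?_, ?_⟩, Nat.nth_mem_of_infinite Nat.infinite_setOfPred_prime _⟩
    · rw [← hx']; exact hmono (by omega)
    · rw [← hy']; exact hmono (by omega)
  · intro p hp
    rw [Finset.mem_filter, Finset.mem_Icc] at hp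
    rw [Finset.mem_Icc, ← hn, ← hm]
    exact ⟨Nat.add_le_add_right (Nat.count_monotone _ hp.1.1) 1,
      Nat.add_le_add_right (Nat.count_monotone _ hp.1.2) 1⟩
  · intro k hk
    rw [Finset.mem_Icc] at hk
    rw [Nat.count_nth_of_infinite Nat.infinite_setOfPred_prime]
    omega
  · intro p hp
    rw [Finset.mem_filter, Finset.mem_Icc] at hp
    rw [Nat.add_sub_cancel]
    exact Nat.nth_count hp.2
  · intro k _; rfl

theorem aux {A B C x b c r : ℕ} (h : A + B = C + x) (hB : B = b) (hC : C = c)
    (hr : r + b = c + x) : A = r := by omega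

theorem the_sum : ∑ k ∈ Finset.Icc 111008771 222017542, Nat.nth Nat.Prime (k - 1) =
    387024194082134596 :=
  (sum_nth prime1 prime2 (by rw [count1]) (by rw [count2])).trans
    (aux (sum_between (x := 2274652151) (y := 4711447171) (by norm_num) (by norm_num) prime1)
      card1.2 card2.2 (by norm_num))

end R467.PS
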